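import Pool.Agent.Helper11.DR.Gz
import Pool.Agent.Helper5.DR.CHF

/-!
# Project DR (MP_a499ba_nt), part A1: the two families. `PQ Q`: uniform law on the odd squarefree `q ≤ Q`, with the completely
multiplicative signs `gz (zq q)`; `PB S`: the product law of signs with mean `bp p`, `p ∈ S`.
-/

set_option autoImplicit false

namespace Pool.Agent.Helper11.DR

open Finset MeasureTheory Pool.Agent.Helper5.RM Pool.Agent.Helper96.AF Pool.Agent.Helper11.Q3 Pool.Agent.DR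

instance instMS : MeasurableSpace (Finset ℕ) := ⊤

instance instMSC : MeasurableSingletonClass (Finset ℕ) := ⟨fun _ => trivial⟩

/-! ### the product law -/

/-- averages of products -/
lemma av_prod (S : Finset ℕ) (h : ℕ → ℝ → ℝ) : av S (fun T => ∏ p ∈ S, h p (sg T p)) = ∏ p ∈ S, ((h p 1 + h p (-1)) / 2) := by
  induction S using Finset.induction_on with
  | empty => simp [av_empty]
  | insert q S hq ih =>
    rw [av_insert hq, Finset.prod_insert hq, ← ih]
    have e1 : av S (fun T => ∏ p ∈ insert q S, h p (sg T p)) = h q 1 * av S (fun T => ∏ p ∈ S, h p (sg T p)) := by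
      rw [← av_mul_left]
      refine av_congr fun T hT => ?_
      rw [Finset.prod_insert hq, sg_not_mem fun h => hq (hT h)]
    have e2 : av S (fun T => ∏ p ∈ insert q S, h p (sg (insert q T) p)) = h q (-1) * av S (fun T => ∏ p ∈ S, h p (sg T p)) := by
      rw [← av_mul_left]
      refine av_congr fun T _ => ?_
      rw [Finset.prod_insert hq, sg_mem (Finset.mem_insert_self q T)]
      congr 1
      refine Finset.prod_congr rfl fun p hp => ?_
      rw [sg_insert_of_ne]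
      rintro rfl
      exact hq hp
    rw [e1, e2]
    ring

/-- the weight of the sign pattern `T` -/
noncomputable def wb (S T : Finset ℕ) : ℝ := (∏ p ∈ S, (1 + sg T p * bp p)) / 2 ^ S.card

/-- the biased law -/
noncomputable def PB (S : Finset ℕ) : Measure (Finset ℕ) := FM S.powerset (wb S)

lemma wb_nonneg {S : Finset ℕ} (hS : ∀ p ∈ S, p.Prime) (T : Finset ℕ) : 0 ≤ wb S T := by
  unfold wb
  refine div_nonneg (Finset.prod_nonneg fun p hp => ?_) (by positivity)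
  have h1 := bp_lt_one (hS p hp)
  have h2 := bp_nonneg p
  unfold sg
  split_ifs <;> linarith

lemma sum_wb (S : Finset ℕ) (F : Finset ℕ → ℝ) : ∑ T ∈ S.powerset, wb S T * F T = av S fun T => F T * ∏ p ∈ S, (1 + sg T p * bp p) := by
  unfold av wb
  rw [Finset.sum_div]
  exact Finset.sum_congr rfl fun T _ => by ring

lemma sum_wb_one (S : Finset ℕ) : ∑ T ∈ S.powerset, wb S T = 1 := by
  have h := sum_wb S fun _ => 1
  simp only [mul_one, one_mul] at h
  rw [h, av_prod S fun p x => 1 + x * bp p]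
  refine Finset.prod_eq_one fun p _ => ?_
  ring

lemma PB_prob {S : Finset ℕ} (hS : ∀ p ∈ S, p.Prime) : IsProbabilityMeasure (PB S) :=
  FM_prob _ _ (fun T _ => wb_nonneg hS T) (sum_wb_one S)

lemma PB_int {S : Finset ℕ} (hS : ∀ p ∈ S, p.Prime) (F : Finset ℕ → ℝ) :
    ∫ T, F T ∂(PB S) = av S fun T => F T * ∏ p ∈ S, (1 + sg T p * bp p) := by
  unfold PB
  rw [FM_integral _ _ (fun T _ => wb_nonneg hS T), ← sum_wb]
  simp only [smul_eq_mul]

/-- the family of the biased signs -/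
noncomputable def chB (T : Finset ℕ) (n : ℕ) : ℂ := (gz (sg T) n : ℂ)

lemma gz_norm {z : ℕ → ℝ} (hz : Sgn z) {n : ℕ} (hn : 1 ≤ n) : ‖(gz z n : ℂ)‖ = 1 := by
  rw [Complex.norm_real, Real.norm_eq_abs]
  rcases gz_sq hz (by omega : n ≠ 0) with h | h <;> rw [h] <;> norm_num

theorem cf_B {S : Finset ℕ} (hS : ∀ p ∈ S, p.Prime) (Z : ℕ) : CF (PB S) chB Z where
  prob := PB_prob hS
  meas := fun _ => measurable_from_top
  one := fun T => by unfold chB; rw [gz_one]; simp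
  mul := fun T m n => by unfold chB; rw [gz_mul]; push_cast; ring
  norm := fun T n h1 _ => (gz_norm (sgn_sg T) h1).le

/-- the correlations of the biased signs -/
theorem corr_B {S : Finset ℕ} (hS : ∀ p ∈ S, p.Prime) {m n : ℕ} (hm : 1 ≤ m) (hn : 1 ≤ n) (h : od (m * n) ⊆ S) :
    ∫ T, chB T m * (starRingEnd ℂ) (chB T n) ∂(PB S) = (kap (m * n) : ℂ) := by
  have e1 : ∀ T : Finset ℕ, chB T m * (starRingEnd ℂ) (chB T n) = ((∏ p ∈ od (m * n), sg T p : ℝ) : ℂ) := by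
    intro T
    unfold chB
    rw [Complex.conj_ofReal, ← Complex.ofReal_mul, ← gz_mul, gz_odd (sgn_sg T) (Nat.mul_ne_zero (by omega) (by omega))]
  simp_rw [e1]
  rw [integral_complex_ofReal, PB_int hS]
  congr 1
  have e2 : ∀ T : Finset ℕ, (∏ p ∈ od (m * n), sg T p) * ∏ p ∈ S, (1 + sg T p * bp p) =
      ∏ p ∈ S, (fun (p : ℕ) (x : ℝ) => (if p ∈ od (m * n) then x else 1) * (1 + x * bp p)) p (sg T p) := by
    intro T
    simp only
    rw [Finset.prod_mul_distrib, Finset.prod_ite_mem, Finset.inter_eq_right.2 h]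
  simp_rw [e2]
  rw [av_prod S fun (p : ℕ) (x : ℝ) => (if p ∈ od (m * n) then x else 1) * (1 + x * bp p)]
  unfold kap
  rw [← Finset.inter_eq_right.2 h, ← Finset.prod_ite_mem]
  refine Finset.prod_congr rfl fun p _ => ?_
  rw [Finset.inter_eq_right.2 h]
  split_ifs <;> ring

/-! ### the real characters -/

/-- the uniform law on the odd squarefree `q ≤ Q` -/
noncomputable def PQ (Q : ℕ) : Measure ℕ := FM (OS Q) fun _ => 1 / ((OS Q).card : ℝ)

/-- the family of the real characters, the zeros filled with `1` -/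
noncomputable def chQ (q n : ℕ) : ℂ := (gz (zq q) n : ℂ)

lemma PQ_prob {Q : ℕ} (h : 0 < (OS Q).card) : IsProbabilityMeasure (PQ Q) := by
  refine FM_prob _ _ (fun _ _ => by positivity) ?_
  rw [Finset.sum_const, nsmul_eq_mul, mul_one_div_cancel]
  exact_mod_cast h.ne'

theorem cf_Q {Q : ℕ} (h : 0 < (OS Q).card) (Z : ℕ) : CF (PQ Q) chQ Z where
  prob := PQ_prob h
  meas := fun _ => measurable_from_top
  one := fun q => by unfold chQ; rw [gz_one]; simp
  mul := fun q m n => by unfold chQ; rw [gz_mul]; push_cast; ring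
  norm := fun q n h1 _ => (gz_norm sgn_zq h1).le

/-- the correlations of the real characters -/
theorem corr_Q {C : ℝ} (hC : 0 ≤ C) {Q : ℕ} (hQ : 1 ≤ Q) (hc : (Q : ℝ) / 8 ≤ (OS Q).card)
    (h : ∀ (S : Finset ℕ), (∀ p ∈ S, p.Prime) →
      |∑ q ∈ OS Q, ∏ p ∈ S, zq q p - (OS Q).card * ∏ p ∈ S, bp p| ≤ C * (∏ p ∈ S, (p : ℝ)) ^ 2 * Real.sqrt Q)
    {Z m n : ℕ} (hm : 1 ≤ m) (hm2 : m ≤ Z) (hn : 1 ≤ n) (hn2 : n ≤ Z) :
    ‖(∫ q, chQ q m * (starRingEnd ℂ) (chQ q n) ∂(PQ Q)) - (kap (m * n) : ℂ)‖ ≤ 8 * C * (Z : ℝ) ^ 4 / Real.sqrt Q := by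
  have hQ0 : (0 : ℝ) < Q := by exact_mod_cast hQ
  have hcard : (0 : ℝ) < (OS Q).card := by linarith [div_pos hQ0 (by norm_num : (0 : ℝ) < 8)]
  have hmn : m * n ≠ 0 := Nat.mul_ne_zero (by omega) (by omega)
  have e1 : ∀ q : ℕ, chQ q m * (starRingEnd ℂ) (chQ q n) = ((∏ p ∈ od (m * n), zq q p : ℝ) : ℂ) := by
    intro q
    unfold chQ
    rw [Complex.conj_ofReal, ← Complex.ofReal_mul, ← gz_mul, gz_odd sgn_zq hmn]
  simp_rw [e1]
  rw [integral_complex_ofReal, ← Complex.ofReal_sub, Complex.norm_real, Real.norm_eq_abs]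
  unfold PQ
  rw [FM_integral _ _ (fun _ _ => by positivity)]
  simp only [smul_eq_mul]
  rw [← Finset.mul_sum]
  have h1 := h (od (m * n)) fun p hp => od_prime hp
  have h2 : ∏ p ∈ od (m * n), (p : ℝ) ≤ (Z : ℝ) ^ 2 := by
    refine (prod_od_le hmn).trans ?_
    push_cast
    have h3 : (m : ℝ) ≤ Z := by exact_mod_cast hm2
    have h4 : (n : ℝ) ≤ Z := by exact_mod_cast hn2
    nlinarith [(Nat.cast_nonneg m : (0 : ℝ) ≤ m), (Nat.cast_nonneg n : (0 : ℝ) ≤ n)]
  have h3 : 0 ≤ ∏ p ∈ od (m * n), (p : ℝ) := Finset.prod_nonneg fun p _ => Nat.cast_nonneg p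
  have h4 : (∏ p ∈ od (m * n), (p : ℝ)) ^ 2 ≤ (Z : ℝ) ^ 4 := by
    calc (∏ p ∈ od (m * n), (p : ℝ)) ^ 2 ≤ ((Z : ℝ) ^ 2) ^ 2 := pow_le_pow_left₀ h3 h2 2
      _ = (Z : ℝ) ^ 4 := by ring
  have e2 : 1 / ((OS Q).card : ℝ) * ∑ q ∈ OS Q, ∏ p ∈ od (m * n), zq q p - kap (m * n) =
      (∑ q ∈ OS Q, ∏ p ∈ od (m * n), zq q p - (OS Q).card * ∏ p ∈ od (m * n), bp p) / (OS Q).card := by
    unfold kap
    field_simp
  rw [e2, abs_div, abs_of_pos hcard, div_le_div_iff₀ hcard (Real.sqrt_pos.2 hQ0)]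
  have h5 : Real.sqrt Q * Real.sqrt Q = Q := Real.mul_self_sqrt hQ0.le
  calc |∑ q ∈ OS Q, ∏ p ∈ od (m * n), zq q p - (OS Q).card * ∏ p ∈ od (m * n), bp p| * Real.sqrt Q ≤
        (C * (∏ p ∈ od (m * n), (p : ℝ)) ^ 2 * Real.sqrt Q) * Real.sqrt Q := mul_le_mul_of_nonneg_right h1 (Real.sqrt_nonneg _)
    _ ≤ (C * (Z : ℝ) ^ 4 * Real.sqrt Q) * Real.sqrt Q := by gcongr
    _ = C * (Z : ℝ) ^ 4 * Q := by rw [mul_assoc, h5]
    _ ≤ C * (Z : ℝ) ^ 4 * (8 * (OS Q).card) := by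
        refine mul_le_mul_of_nonneg_left (by linarith) (by positivity)
    _ = 8 * C * (Z : ℝ) ^ 4 * (OS Q).card := by ring

end Pool.Agent.Helper11.DR
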