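import Pool.Agent.Helper11.DR.Pack

/-!
# Project DR (MP_a499ba_nt), part A1: from the scale `r` to the conductors
-/

set_option autoImplicit false

namespace Pool.Agent.Helper11.DR

open Finset MeasureTheory Filter Topology Pool.Agent.Helper5.RM Pool.Agent.Helper96.AF Pool.Agent.Helper11.Q3 Pool.Agent.DR Pool.Agent.Helper66.LW
open Pool.Agent.IT

lemma Y_ge (n : ℕ) : n ≤ Y n := by
  unfold Y
  have h1 : n < 2 ^ n := Nat.lt_two_pow_self
  have h2 : 2 ^ n < 2 ^ 2 ^ n := Nat.lt_two_pow_self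
  omega

/-- the scale belonging to `Q` -/
theorem choose_r (C0 : ℝ) (r0 : ℕ) : ∃ Q0 : ℕ, ∀ Q : ℕ, Q0 ≤ Q → ∃ r : ℕ, r0 ≤ r ∧ C0 * (Y (150 * r) : ℝ) ^ 10 ≤ Q ∧
    Real.log (Real.log (8 * Q)) ≤ 200 * r := by
  set C := max C0 1 with hC
  have hC1 : 1 ≤ C := le_max_right _ _
  obtain ⟨r2, hr2⟩ := exists_nat_gt (Real.log (8 * C))
  set r1 := max (max r0 r2) 2 with hr1
  refine ⟨⌈C * (Y (150 * r1) : ℝ) ^ 10⌉₊, fun Q hQ => ?_⟩
  have hQ' : C * (Y (150 * r1) : ℝ) ^ 10 ≤ Q := Nat.ceil_le.1 hQ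
  have hYR : ∀ n : ℕ, (1 : ℝ) ≤ (Y n : ℝ) := fun n => by
    have : 1 ≤ Y n := by unfold Y; exact Nat.one_le_two_pow
    exact_mod_cast this
  have hex : ∃ r : ℕ, (Q : ℝ) < C * (Y (150 * (r + 1)) : ℝ) ^ 10 := by
    refine ⟨Q, ?_⟩
    have h1 : (Q : ℝ) < (Y (150 * (Q + 1)) : ℝ) := by
      have := Y_ge (150 * (Q + 1))
      exact_mod_cast (by omega : Q < Y (150 * (Q + 1)))
    have h2 : (Y (150 * (Q + 1)) : ℝ) ≤ (Y (150 * (Q + 1)) : ℝ) ^ 10 := le_self_pow₀ (hYR _) (by norm_num)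
    have h3 : (0 : ℝ) ≤ (Y (150 * (Q + 1)) : ℝ) ^ 10 := pow_nonneg (Nat.cast_nonneg _) _
    nlinarith
  obtain ⟨r, hr, hmin⟩ : ∃ r : ℕ, (Q : ℝ) < C * (Y (150 * (r + 1)) : ℝ) ^ 10 ∧ ∀ s : ℕ, s < r → C * (Y (150 * (s + 1)) : ℝ) ^ 10 ≤ Q := by
    classical
    exact ⟨Nat.find hex, Nat.find_spec hex, fun s hs => not_lt.1 (Nat.find_min hex hs)⟩
  have hrr : r1 ≤ r := by
    by_contra h
    push Not at h
    have h1 : (Y (150 * (r + 1)) : ℝ) ≤ Y (150 * r1) := by exact_mod_cast Y_mono (by omega)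
    have h2 : C * (Y (150 * (r + 1)) : ℝ) ^ 10 ≤ C * (Y (150 * r1) : ℝ) ^ 10 := by
      have h0 : (0 : ℝ) ≤ (Y (150 * (r + 1)) : ℝ) := Nat.cast_nonneg _
      have := pow_le_pow_left₀ h0 h1 10
      exact mul_le_mul_of_nonneg_left this (by linarith)
    linarith
  have hr2' : 2 ≤ r := (le_max_right _ _).trans hrr
  have hr0' : r0 ≤ r := ((le_max_left _ _).trans (le_max_left _ _)).trans hrr
  have hrr2 : r2 ≤ r := ((le_max_right _ _).trans (le_max_left _ _)).trans hrr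
  refine ⟨r, hr0', ?_, ?_⟩
  · have h1 := hmin (r - 1) (by omega)
    rw [show r - 1 + 1 = r by omega] at h1
    refine le_trans ?_ h1
    exact mul_le_mul_of_nonneg_right (le_max_left _ _) (pow_nonneg (Nat.cast_nonneg _) _)
  · have hQ1 : (1 : ℝ) ≤ Q := by
      refine le_trans ?_ hQ'
      calc (1 : ℝ) = 1 * 1 ^ 10 := by norm_num
        _ ≤ C * (Y (150 * r1) : ℝ) ^ 10 := by
            refine mul_le_mul hC1 (pow_le_pow_left₀ (by norm_num) (hYR _) 10) (by norm_num) (by linarith)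
    have h1 : Real.log (8 * Q) ≤ 2 ^ (150 * (r + 1) + 3) := by
      have e1 : Real.log (8 * Q) ≤ Real.log (8 * C * (Y (150 * (r + 1)) : ℝ) ^ 10) := by
        apply Real.log_le_log (by linarith)
        linarith
      have e2 : Real.log (8 * C * (Y (150 * (r + 1)) : ℝ) ^ 10) = Real.log (8 * C) + 10 * (2 ^ (150 * (r + 1)) * Real.log 2) := by
        have : (0 : ℝ) < (Y (150 * (r + 1)) : ℝ) := by linarith [hYR (150 * (r + 1))]
        rw [Real.log_mul (by linarith) (pow_ne_zero _ this.ne'), Real.log_pow]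
        congr 1
        unfold Y
        push_cast
        rw [Real.log_pow]
        push_cast
        ring
      have e3 : Real.log (8 * C) ≤ 2 ^ (150 * (r + 1)) := by
        have h2 : (r2 : ℝ) ≤ 2 ^ (150 * (r + 1)) := by
          have h3 : r2 < 2 ^ r2 := Nat.lt_two_pow_self
          have h4 : 2 ^ r2 ≤ 2 ^ (150 * (r + 1)) := Nat.pow_le_pow_right (by norm_num) (by omega)
          exact_mod_cast (h3.le.trans h4)
        linarith
      have e4 : Real.log 2 < 0.7 := by linarith [Real.log_two_lt_d9]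
      have e5 : (0 : ℝ) < 2 ^ (150 * (r + 1)) := by positivity
      rw [pow_add]
      nlinarith
    have h2 : 0 < Real.log (8 * Q) := Real.log_pos (by linarith)
    have h3 := Real.log_le_log h2 h1
    rw [Real.log_pow] at h3
    have h4 : Real.log 2 < 0.7 := by linarith [Real.log_two_lt_d9]
    have hr2R : (2 : ℝ) ≤ r := by exact_mod_cast hr2'
    push_cast at h3
    nlinarith

/-- the threshold for the conductors -/
noncomputable def thr (δ : ℝ) (q : ℝ) : ℝ := Real.log (Real.log q) ^ (1 / 4 - δ)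

lemma ll8 {q : ℕ} (hq : 1 ≤ q) : 0 < Real.log (Real.log (8 * q)) := by
  have hq1 : (1 : ℝ) ≤ q := by exact_mod_cast hq
  apply Real.log_pos
  rw [Real.lt_log_iff_exp_lt (by linarith)]
  have := Real.exp_one_lt_d9
  linarith

/-- the threshold at the scale `r` is larger -/
theorem thr_le {δ : ℝ} (hδ : 0 < δ) (hδ2 : δ < 1 / 4) : ∃ r0 : ℕ, ∀ r : ℕ, r0 ≤ r → ∀ Q : ℕ, Real.log (Real.log (8 * Q)) ≤ 200 * r →
    ∀ q : ℕ, 1 ≤ q → q ≤ Q → thr δ (8 * q) ≤ (r : ℝ) ^ (1 / 4 - δ / 2) := by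
  obtain ⟨r0, hr0⟩ := exists_nat_gt ((4 : ℝ) ^ (2 / δ))
  refine ⟨max r0 1, fun r hr Q hQ q hq hqQ => ?_⟩
  have hr1 : 1 ≤ r := (le_max_right _ _).trans hr
  have hr0' : (r0 : ℝ) ≤ r := by exact_mod_cast (le_max_left _ _).trans hr
  have hrR : (0 : ℝ) < r := by exact_mod_cast hr1
  have hq1 : (1 : ℝ) ≤ q := by exact_mod_cast hq
  have hqQ' : (q : ℝ) ≤ Q := by exact_mod_cast hqQ
  have h1 : Real.log (Real.log (8 * q)) ≤ 200 * r := by
    refine le_trans ?_ hQ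
    have h2 : 0 < Real.log (8 * q) := Real.log_pos (by linarith)
    exact Real.log_le_log h2 (Real.log_le_log (by linarith) (by linarith))
  have h3 : (4 : ℝ) ≤ (r : ℝ) ^ (δ / 2) := by
    have h4 : ((4 : ℝ) ^ (2 / δ)) ^ (δ / 2) ≤ (r : ℝ) ^ (δ / 2) := Real.rpow_le_rpow (by positivity) (by linarith) (by linarith)
    rw [← Real.rpow_mul (by norm_num), show 2 / δ * (δ / 2) = 1 by field_simp, Real.rpow_one] at h4
    exact h4
  unfold thr
  calc Real.log (Real.log (8 * q)) ^ (1 / 4 - δ) ≤ (200 * r : ℝ) ^ (1 / 4 - δ) :=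
        Real.rpow_le_rpow (ll8 hq).le h1 (by linarith)
    _ = (200 : ℝ) ^ (1 / 4 - δ) * (r : ℝ) ^ (1 / 4 - δ) := Real.mul_rpow (by norm_num) hrR.le
    _ ≤ (256 : ℝ) ^ (1 / 4 : ℝ) * (r : ℝ) ^ (1 / 4 - δ) := by
        refine mul_le_mul_of_nonneg_right ?_ (by positivity)
        calc (200 : ℝ) ^ (1 / 4 - δ) ≤ (200 : ℝ) ^ (1 / 4 : ℝ) := Real.rpow_le_rpow_of_exponent_le (by norm_num) (by linarith)
          _ ≤ (256 : ℝ) ^ (1 / 4 : ℝ) := Real.rpow_le_rpow (by norm_num) (by norm_num) (by norm_num)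
    _ = 4 * (r : ℝ) ^ (1 / 4 - δ) := by
        congr 1
        rw [show (256 : ℝ) = 4 ^ (4 : ℝ) by norm_num, ← Real.rpow_mul (by norm_num)]
        norm_num
    _ ≤ (r : ℝ) ^ (δ / 2) * (r : ℝ) ^ (1 / 4 - δ) := mul_le_mul_of_nonneg_right h3 (by positivity)
    _ = (r : ℝ) ^ (1 / 4 - δ / 2) := by
        rw [← Real.rpow_add hrR]
        congr 1
        ring

open Classical in
/-- the number of the bad conductors -/
theorem count_bad (B : ℕ → ℝ → Prop) (hB : ∀ q C C', C ≤ C' → B q C → B q C')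
    (h : ∀ δ η : ℝ, 0 < δ → 0 < η → ∃ (r0 : ℕ) (C0 : ℝ), ∀ r : ℕ, r0 ≤ r → ∀ Q : ℕ, C0 * (Y (150 * r) : ℝ) ^ 10 ≤ Q →
      (PQ Q).real {q | B q ((r : ℝ) ^ (1 / 4 - δ))} ≤ η) {δ : ℝ} (hδ : 0 < δ) (hδ2 : δ < 1 / 4) {η : ℝ} (hη : 0 < η) :
    ∃ Q0 : ℕ, ∀ Q : ℕ, Q0 ≤ Q → (((OS Q).filter fun q : ℕ => B q (thr δ (8 * (q : ℝ)))).card : ℝ) ≤ η * (OS Q).card := by
  obtain ⟨r1, C0, h1⟩ := h (δ / 2) η (by linarith) hη
  obtain ⟨r2, h2⟩ := thr_le hδ hδ2
  obtain ⟨Q0, h3⟩ := choose_r C0 (max r1 r2)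
  refine ⟨Q0, fun Q hQ => ?_⟩
  obtain ⟨r, hr, hr2, hr3⟩ := h3 Q hQ
  have h4 := h1 r ((le_max_left _ _).trans hr) Q hr2
  have h5 := h2 r ((le_max_right _ _).trans hr) Q hr3
  rcases Nat.eq_zero_or_pos (OS Q).card with h0 | h0
  · have : OS Q = ∅ := Finset.card_eq_zero.1 h0
    simp [this]
  have h0' : (0 : ℝ) < (OS Q).card := by exact_mod_cast h0
  unfold PQ at h4
  rw [FM_real _ _ (fun _ _ => by positivity) _ (by trivial)] at h4
  have h6 : (∑ q ∈ OS Q, 1 / ((OS Q).card : ℝ) * ({q | B q ((r : ℝ) ^ (1 / 4 - δ / 2))} : Set ℕ).indicator 1 q) =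
      (((OS Q).filter fun q => B q ((r : ℝ) ^ (1 / 4 - δ / 2))).card : ℝ) / (OS Q).card := by
    rw [Finset.card_filter]
    push_cast
    rw [Finset.sum_div]
    refine Finset.sum_congr rfl fun q _ => ?_
    by_cases h : B q ((r : ℝ) ^ (1 / 4 - δ / 2))
    · rw [Set.indicator_of_mem (show q ∈ {q | B q ((r : ℝ) ^ (1 / 4 - δ / 2))} from h), if_pos h]
      simp
    · rw [Set.indicator_of_notMem (show q ∉ {q | B q ((r : ℝ) ^ (1 / 4 - δ / 2))} from h), if_neg h]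
      simp
  have h7 : (((OS Q).filter fun q => B q ((r : ℝ) ^ (1 / 4 - δ / 2))).card : ℝ) / (OS Q).card ≤ η := by
    rw [← h6]
    exact h4
  rw [div_le_iff₀ h0'] at h7
  refine le_trans ?_ h7
  refine Nat.cast_le.2 (Finset.card_le_card fun q hq => ?_)
  · rw [Finset.mem_filter] at hq ⊢
    refine ⟨hq.1, hB q _ _ (h5 q ?_ ?_) hq.2⟩
    · exact (Finset.mem_Icc.1 (Finset.mem_filter.1 hq.1).1).1
    · exact (Finset.mem_Icc.1 (Finset.mem_filter.1 hq.1).1).2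

end Pool.Agent.Helper11.DR
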