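import Pool.Agent.Helper11.DR.End
import Pool.Agent.Helper95.TF.PsiCount
import Pool.Agent.Helper96.QT.DefL

/-!
# Project DR (MP_a499ba_nt), part A1: the density statement for all primitive real characters
-/

set_option autoImplicit false

namespace Pool.Agent.Helper11.DR

open Finset MeasureTheory Filter Topology Pool.Agent.Helper5.RM Pool.Agent.Helper96.AF Pool.Agent.Helper11.Q3 Pool.Agent.DR Pool.Agent.Helper66.LW
open Pool.Agent.IT Pool.Agent.QT Pool.Agent.Q3psi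

/-! ### definitions -/

/-- `μ(n) χ(n)` -/
noncomputable def ajq (j : Fin 4) (q n : ℕ) : ℝ := (ArithmeticFunction.moebius n : ℝ) * ((ps j n * jacobiSym n q : ℤ) : ℝ)

/-- `λ(n) χ(n)` -/
noncomputable def ljq (j : Fin 4) (q n : ℕ) : ℝ := ((lam n : ℤ) : ℝ) * ((ps j n * jacobiSym n q : ℤ) : ℝ)

/-- the one-sided bound for the Moebius sums -/
def BM (j : Fin 4) (σ : ℝ) (q : ℕ) (C : ℝ) : Prop :=
  ∃ (N : ℕ) (_ : NeZero N) (χ : DirichletCharacter ℂ N), N = cd j * q ∧ Hyp χ (ajq j q) σ C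

/-- the one-sided bound for the Liouville sums -/
def BL (j : Fin 4) (σ : ℝ) (q : ℕ) (C : ℝ) : Prop :=
  ∃ (N : ℕ) (_ : NeZero N) (χ : DirichletCharacter ℂ N), N = cd j * q ∧ HypL χ (ajq j q) (ljq j q) σ C

/-- the bound of the core -/
def Core (B : ℕ → ℝ → Prop) : Prop := ∀ δ η : ℝ, 0 < δ → 0 < η → ∃ (r0 : ℕ) (C0 : ℝ), ∀ r : ℕ, r0 ≤ r → ∀ Q : ℕ,
  C0 * (Y (150 * r) : ℝ) ^ 10 ≤ Q → (PQ Q).real {q | B q ((r : ℝ) ^ (1 / 4 - δ))} ≤ η

/-- `∑_{n ≤ x} μ(n) χ(n)` -/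
noncomputable def Mc {N : ℕ} (χ : DirichletCharacter ℂ N) (x : ℝ) : ℝ :=
  ∑ n ∈ Finset.Icc 1 ⌊x⌋₊, (ArithmeticFunction.moebius n : ℝ) * (χ n).re

/-- `∑_{n ≤ x} λ(n) χ(n)` -/
noncomputable def Lc {N : ℕ} (χ : DirichletCharacter ℂ N) (x : ℝ) : ℝ :=
  ∑ n ∈ Finset.Icc 1 ⌊x⌋₊, (-1 : ℝ) ^ ArithmeticFunction.cardFactors n * (χ n).re

/-- `F x > C √x` for arbitrarily large `x` -/
def High (F : ℝ → ℝ) (C : ℝ) : Prop := ∀ x₀ : ℝ, ∃ x : ℝ, x₀ ≤ x ∧ C * Real.sqrt x < F x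

/-- `F x < - C √x` for arbitrarily large `x` -/
def Low (F : ℝ → ℝ) (C : ℝ) : Prop := ∀ x₀ : ℝ, ∃ x : ℝ, x₀ ≤ x ∧ F x < -(C * Real.sqrt x)

/-- the property of the character -/
def Osc {N : ℕ} (χ : DirichletCharacter ℂ N) (C : ℝ) : Prop :=
  High (Mc χ) C ∧ High (Lc χ) C ∧ (Low (Mc χ) C ∧ Low (Lc χ) C ∨
    ∃ (_ : NeZero N) (β : ℝ), 1 / 2 ≤ β ∧ β < 1 ∧ DirichletCharacter.LFunction χ β = 0)

/-! ### one character -/

/-- If `σ F(x) ≤ C √x` fails for arbitrarily large `t`, it fails for arbitrarily large `x` (copy of `QT.unbdd`). -/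
theorem unbdd' {a : ℕ → ℝ} {σ C : ℝ} (h : ¬∃ t₁ : ℝ, ∀ t : ℝ, t₁ ≤ t → σ * FF a t ≤ C) (x₀ : ℝ) :
    ∃ x : ℝ, x₀ ≤ x ∧ C * Real.sqrt x < σ * mS a x := by
  push Not at h
  obtain ⟨t, ht, h1⟩ := h (max 0 (Real.log (max x₀ 1)))
  have ht0 : 0 ≤ t := (le_max_left _ _).trans ht
  have ht1 : Real.log (max x₀ 1) ≤ t := (le_max_right _ _).trans ht
  refine ⟨Real.exp t, ?_, ?_⟩
  · have h2 : (0 : ℝ) < max x₀ 1 := lt_of_lt_of_le one_pos (le_max_right _ _)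
    calc x₀ ≤ max x₀ 1 := le_max_left _ _
      _ = Real.exp (Real.log (max x₀ 1)) := (Real.exp_log h2).symm
      _ ≤ Real.exp t := Real.exp_le_exp.2 ht1
  · unfold FF at h1
    rw [if_pos ht0] at h1
    have h3 : Real.sqrt (Real.exp t) = Real.exp (t / 2) := by rw [← Real.exp_half]
    rw [h3]
    have h4 : σ * mS a (Real.exp t) = (σ * (Real.exp (-(t / 2)) * mS a (Real.exp t))) * Real.exp (t / 2) := by
      have h5 : Real.exp (-(t / 2)) * Real.exp (t / 2) = 1 := by rw [← Real.exp_add]; simp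
      calc σ * mS a (Real.exp t) = σ * mS a (Real.exp t) * 1 := (mul_one _).symm
        _ = σ * mS a (Real.exp t) * (Real.exp (-(t / 2)) * Real.exp (t / 2)) := by rw [h5]
        _ = _ := by ring
    rw [h4]
    exact mul_lt_mul_of_pos_right h1 (Real.exp_pos _)

theorem bad_char {N : ℕ} [NeZero N] {χ : DirichletCharacter ℂ N} (hp : χ.IsPrimitive) (h2 : χ ^ 2 = 1) (h1 : χ ≠ 1) {j : Fin 4} {q : ℕ}
    (hN : N = cd j * q) (hχ : ∀ n : ℕ, χ n = ((ps j n * jacobiSym n q : ℤ) : ℂ)) {C : ℝ} (hb : ¬ Osc χ C) :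
    BM j 1 q C ∨ BM j (-1) q C ∨ BL j 1 q C ∨ BL j (-1) q C := by
  have hre : ∀ n : ℕ, (χ n).re = ((ps j n * jacobiSym n q : ℤ) : ℝ) := by
    intro n
    rw [hχ n]
    simp
  have hdat : Dat χ (ajq j q) := by
    refine ⟨hp, h2, h1, fun n => ?_⟩
    rw [hχ n]
    unfold ajq
    push_cast
    ring
  have hdatL : DatL χ (ajq j q) (ljq j q) := by
    refine ⟨hdat, fun n => ?_⟩
    rw [hχ n]
    unfold ljq
    push_cast
    ring
  have hM : ∀ x, mS (ajq j q) x = Mc χ x := by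
    intro x
    unfold mS Mc ajq
    exact Finset.sum_congr rfl fun n _ => by rw [hre n]
  have hL : ∀ x, mS (ljq j q) x = Lc χ x := by
    intro x
    unfold mS Lc ljq lam
    refine Finset.sum_congr rfl fun n _ => ?_
    rw [hre n]
    push_cast
    ring
  by_contra hcon
  push Not at hcon
  obtain ⟨c1, c2, c3, c4⟩ := hcon
  apply hb
  have hh : ∀ σ : ℝ, (σ = 1 ∨ σ = -1) → (σ = -1 → ∀ β : ℝ, 1 / 2 ≤ β → β < 1 → DirichletCharacter.LFunction χ β ≠ 0) →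
      ∀ x₀ : ℝ, ∃ x : ℝ, x₀ ≤ x ∧ C * Real.sqrt x < σ * mS (ajq j q) x := by
    intro σ hσ hz
    apply unbdd'
    intro h5
    rcases hσ with rfl | rfl
    · exact c1 ⟨N, inferInstance, χ, hN, hdat, Or.inl rfl, hz, h5⟩
    · exact c2 ⟨N, inferInstance, χ, hN, hdat, Or.inr rfl, hz, h5⟩
  have hhL : ∀ σ : ℝ, (σ = 1 ∨ σ = -1) → (σ = -1 → ∀ β : ℝ, 1 / 2 ≤ β → β < 1 → DirichletCharacter.LFunction χ β ≠ 0) →
      ∀ x₀ : ℝ, ∃ x : ℝ, x₀ ≤ x ∧ C * Real.sqrt x < σ * mS (ljq j q) x := by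
    intro σ hσ hz
    apply unbdd'
    intro h5
    rcases hσ with rfl | rfl
    · exact c3 ⟨N, inferInstance, χ, hN, hdatL, Or.inl rfl, hz, h5⟩
    · exact c4 ⟨N, inferInstance, χ, hN, hdatL, Or.inr rfl, hz, h5⟩
  refine ⟨fun x₀ => ?_, fun x₀ => ?_, ?_⟩
  · obtain ⟨x, hx, h⟩ := hh 1 (Or.inl rfl) (fun h => absurd h (by norm_num)) x₀
    exact ⟨x, hx, by rwa [one_mul, hM] at h⟩
  · obtain ⟨x, hx, h⟩ := hhL 1 (Or.inl rfl) (fun h => absurd h (by norm_num)) x₀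
    exact ⟨x, hx, by rwa [one_mul, hL] at h⟩
  · by_cases hz : ∀ β : ℝ, 1 / 2 ≤ β → β < 1 → DirichletCharacter.LFunction χ β ≠ 0
    · left
      constructor
      · intro x₀
        obtain ⟨x, hx, h⟩ := hh (-1) (Or.inr rfl) (fun _ => hz) x₀
        rw [hM] at h
        exact ⟨x, hx, by linarith⟩
      · intro x₀
        obtain ⟨x, hx, h⟩ := hhL (-1) (Or.inr rfl) (fun _ => hz) x₀
        rw [hL] at h
        exact ⟨x, hx, by linarith⟩
    · right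
      push Not at hz
      obtain ⟨β, hβ1, hβ2, hβ3⟩ := hz
      exact ⟨inferInstance, β, hβ1, hβ2, hβ3⟩

lemma hyp_mono {q : ℕ} [NeZero q] {χ : DirichletCharacter ℂ q} {a : ℕ → ℝ} {σ C C' : ℝ} (h : Hyp χ a σ C) (hC : C ≤ C') : Hyp χ a σ C' :=
  ⟨h.dat, h.sg, h.zf, by
    obtain ⟨t, ht⟩ := h.bd
    exact ⟨t, fun s hs => (ht s hs).trans hC⟩⟩

lemma hypL_mono {q : ℕ} [NeZero q] {χ : DirichletCharacter ℂ q} {a l : ℕ → ℝ} {σ C C' : ℝ} (h : HypL χ a l σ C) (hC : C ≤ C') :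
    HypL χ a l σ C' :=
  ⟨h.dat, h.sg, h.zf, by
    obtain ⟨t, ht⟩ := h.bd
    exact ⟨t, fun s hs => (ht s hs).trans hC⟩⟩

lemma BM_mono (j : Fin 4) (σ : ℝ) (q : ℕ) (C C' : ℝ) (hC : C ≤ C') (h : BM j σ q C) : BM j σ q C' := by
  obtain ⟨N, h0, χ, hN, h⟩ := h
  exact ⟨N, h0, χ, hN, hyp_mono h hC⟩

lemma BL_mono (j : Fin 4) (σ : ℝ) (q : ℕ) (C C' : ℝ) (hC : C ≤ C') (h : BL j σ q C) : BL j σ q C' := by
  obtain ⟨N, h0, χ, hN, h⟩ := h
  exact ⟨N, h0, χ, hN, hypL_mono h hC⟩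

/-! ### counting -/

lemma thr_mono {δ : ℝ} (hδ2 : δ < 1 / 4) {N q : ℕ} (hN : 3 ≤ N) (hNq : N ≤ 8 * q) : thr δ N ≤ thr δ (8 * q) := by
  have h3 : (3 : ℝ) ≤ N := by exact_mod_cast hN
  have h8 : (N : ℝ) ≤ 8 * q := by exact_mod_cast hNq
  have h1 : 1 < Real.log N := by
    rw [Real.lt_log_iff_exp_lt (by linarith)]
    have := Real.exp_one_lt_d9
    linarith
  unfold thr
  refine Real.rpow_le_rpow (Real.log_nonneg h1.le) (Real.log_le_log (by linarith) (Real.log_le_log (by linarith) h8)) (by linarith)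

lemma cd_le (j : Fin 4) : cd j ≤ 8 := by fin_cases j <;> simp [cd]

lemma three_le {j : Fin 4} {q : ℕ} (hq : Odd q) (h : 1 < cd j * q) : 3 ≤ cd j * q := by
  obtain ⟨k, rfl⟩ := hq
  fin_cases j <;> simp only [cd] at h ⊢ <;> omega

open Classical in
/-- the number of the bad characters -/
theorem bad_count (hM : ∀ (j : Fin 4) (σ : ℝ), (σ = 1 ∨ σ = -1) → Core (BM j σ)) (hL : ∀ (j : Fin 4) (σ : ℝ), (σ = 1 ∨ σ = -1) → Core (BL j σ))
    {δ : ℝ} (hδ : 0 < δ) (hδ2 : δ < 1 / 4) {η : ℝ} (hη : 0 < η) : ∃ X0 : ℕ, ∀ X : ℕ, X0 ≤ X →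
    ({x ∈ RC X | ¬ Osc x.2 (thr δ x.1)}.ncard : ℝ) ≤ η * ((RC X).ncard + 1 : ℕ) := by
  have hj : ∀ j : Fin 4, ∃ Q0 : ℕ, ∀ Q : ℕ, Q0 ≤ Q → (((OS Q).filter fun q => 1 < cd j * q ∧
      ¬ Osc (chi j q) (thr δ ((cd j * q : ℕ) : ℝ))).card : ℝ) ≤ η * (OS Q).card := by
    intro j
    obtain ⟨Q1, h1⟩ := count_bad (BM j 1) (BM_mono j 1) (hM j 1 (Or.inl rfl)) hδ hδ2 (η := η / 4) (by linarith)
    obtain ⟨Q2, h2⟩ := count_bad (BM j (-1)) (BM_mono j (-1)) (hM j (-1) (Or.inr rfl)) hδ hδ2 (η := η / 4) (by linarith)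
    obtain ⟨Q3, h3⟩ := count_bad (BL j 1) (BL_mono j 1) (hL j 1 (Or.inl rfl)) hδ hδ2 (η := η / 4) (by linarith)
    obtain ⟨Q4, h4⟩ := count_bad (BL j (-1)) (BL_mono j (-1)) (hL j (-1) (Or.inr rfl)) hδ hδ2 (η := η / 4) (by linarith)
    refine ⟨max (max Q1 Q2) (max Q3 Q4), fun Q hQ => ?_⟩
    have e1 := h1 Q (((le_max_left _ _).trans (le_max_left _ _)).trans hQ)
    have e2 := h2 Q (((le_max_right _ _).trans (le_max_left _ _)).trans hQ)
    have e3 := h3 Q (((le_max_left _ _).trans (le_max_right _ _)).trans hQ)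
    have e4 := h4 Q (((le_max_right _ _).trans (le_max_right _ _)).trans hQ)
    have hsub : ((OS Q).filter fun q => 1 < cd j * q ∧ ¬ Osc (chi j q) (thr δ ((cd j * q : ℕ) : ℝ))) ⊆
        (((OS Q).filter fun q : ℕ => BM j 1 q (thr δ (8 * (q : ℝ)))) ∪ ((OS Q).filter fun q : ℕ => BM j (-1) q (thr δ (8 * (q : ℝ))))) ∪
        (((OS Q).filter fun q : ℕ => BL j 1 q (thr δ (8 * (q : ℝ)))) ∪ ((OS Q).filter fun q : ℕ => BL j (-1) q (thr δ (8 * (q : ℝ))))) := by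
      intro q hq
      rw [Finset.mem_filter] at hq
      obtain ⟨hqO, hq1, hq2⟩ := hq
      have hqO' := hqO
      unfold OS at hqO'
      rw [Finset.mem_filter] at hqO'
      obtain ⟨-, hodd, hsf⟩ := hqO'
      obtain ⟨hval, hne, hdat⟩ := chi_spec hodd hsf hq1
      have hb := bad_char hdat.prim hdat.sq hdat.ne rfl hval hq2
      have h3N := three_le hodd hq1
      have h8N : cd j * q ≤ 8 * q := Nat.mul_le_mul_right _ (cd_le j)
      have hth := thr_mono (δ := δ) hδ2 h3N h8N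
      simp only [Finset.mem_union, Finset.mem_filter]
      rcases hb with hb | hb | hb | hb
      · exact Or.inl (Or.inl ⟨hqO, BM_mono _ _ _ _ _ hth hb⟩)
      · exact Or.inl (Or.inr ⟨hqO, BM_mono _ _ _ _ _ hth hb⟩)
      · exact Or.inr (Or.inl ⟨hqO, BL_mono _ _ _ _ _ hth hb⟩)
      · exact Or.inr (Or.inr ⟨hqO, BL_mono _ _ _ _ _ hth hb⟩)
    have hcard := (Finset.card_le_card hsub).trans ((Finset.card_union_le _ _).trans
      (add_le_add (Finset.card_union_le _ _) (Finset.card_union_le _ _)))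
    have hcard' : (((OS Q).filter fun q => 1 < cd j * q ∧ ¬ Osc (chi j q) (thr δ ((cd j * q : ℕ) : ℝ))).card : ℝ) ≤
        ((((OS Q).filter fun q : ℕ => BM j 1 q (thr δ (8 * (q : ℝ)))).card : ℝ) +
          (((OS Q).filter fun q : ℕ => BM j (-1) q (thr δ (8 * (q : ℝ)))).card : ℝ)) +
        ((((OS Q).filter fun q : ℕ => BL j 1 q (thr δ (8 * (q : ℝ)))).card : ℝ) +
          (((OS Q).filter fun q : ℕ => BL j (-1) q (thr δ (8 * (q : ℝ)))).card : ℝ)) := by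
      have := (Nat.cast_le (α := ℝ)).2 hcard
      rwa [Nat.cast_add, Nat.cast_add, Nat.cast_add] at this
    linarith
  choose Q0 hQ0 using hj
  refine ⟨8 * (Q0 0 + Q0 1 + Q0 2 + Q0 3 + 1), fun X hX => ?_⟩
  have hX1 : 1 ≤ X := by omega
  have hdiv : ∀ j : Fin 4, Q0 j ≤ X / cd j := by
    intro j
    have h1 : X / 8 ≤ X / cd j := Nat.div_le_div_left (cd_le j) (cd_pos j)
    have h2 : Q0 j ≤ X / 8 := by
      rw [Nat.le_div_iff_mul_le (by norm_num)]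
      fin_cases j <;> simp only [Fin.zero_eta, Fin.mk_one, Fin.reduceFinMk] <;> omega
    exact h2.trans h1
  have hc := count (fun N χ => ¬ Osc χ (thr δ (N : ℝ))) X
  rw [hc, card_RC X hX1]
  push_cast
  rw [Finset.mul_sum]
  refine Finset.sum_le_sum fun j _ => ?_
  have := hQ0 j _ (hdiv j)
  push_cast at this
  exact this

open Classical in
/-- density one among all primitive real characters -/
theorem density_all (hM : ∀ (j : Fin 4) (σ : ℝ), (σ = 1 ∨ σ = -1) → Core (BM j σ))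
    (hL : ∀ (j : Fin 4) (σ : ℝ), (σ = 1 ∨ σ = -1) → Core (BL j σ)) {δ : ℝ} (hδ : 0 < δ) (hδ2 : δ < 1 / 4) :
    Tendsto (fun X : ℕ => ({x ∈ RC X | Osc x.2 (thr δ x.1)}.ncard : ℝ) / (RC X).ncard) atTop (𝓝 1) := by
  rw [Metric.tendsto_atTop]
  intro ε hε
  obtain ⟨X0, h0⟩ := bad_count hM hL hδ hδ2 (η := ε / 4) (by linarith)
  refine ⟨max X0 16, fun X hX => ?_⟩
  have hX0 : X0 ≤ X := (le_max_left _ _).trans hX
  have hX16 : 16 ≤ X := (le_max_right _ _).trans hX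
  have hbad := h0 X hX0
  have hfin := RC_finite X
  have hsum : {x ∈ RC X | Osc x.2 (thr δ x.1)}.ncard + {x ∈ RC X | ¬ Osc x.2 (thr δ x.1)}.ncard = (RC X).ncard := by
    rw [← Set.ncard_union_eq (Set.disjoint_left.2 fun x hx hx' => hx'.2 hx.2) (hfin.subset fun x hx => hx.1) (hfin.subset fun x hx => hx.1)]
    congr 1
    ext x
    simp only [Set.mem_union, Set.mem_ofPred_eq]
    tauto
  have hsum' : ({x ∈ RC X | Osc x.2 (thr δ x.1)}.ncard : ℝ) + ({x ∈ RC X | ¬ Osc x.2 (thr δ x.1)}.ncard : ℝ) = (RC X).ncard := by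
    exact_mod_cast hsum
  have hbig : (1 : ℝ) ≤ (RC X).ncard := by
    have h1 := card_RC X (by omega)
    rw [Fin.sum_univ_four] at h1
    have h2 : (X : ℝ) / 8 ≤ (OS X).card := Pool.Agent.Helper11.Q3.j1d X
    have h3 : OS (X / cd 0) = OS X := by simp [cd]
    rw [h3] at h1
    have h4 : ((OS X).card : ℝ) ≤ (RC X).ncard + 1 := by exact_mod_cast (by omega : (OS X).card ≤ (RC X).ncard + 1)
    have h5 : (16 : ℝ) ≤ X := by exact_mod_cast hX16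
    linarith
  rw [Real.dist_eq, abs_lt]
  have hpos : (0 : ℝ) < (RC X).ncard := by linarith
  have e1 : ({x ∈ RC X | Osc x.2 (thr δ x.1)}.ncard : ℝ) / (RC X).ncard - 1 =
      -(({x ∈ RC X | ¬ Osc x.2 (thr δ x.1)}.ncard : ℝ) / (RC X).ncard) := by
    rw [← hsum']
    rw [← hsum'] at hpos
    field_simp
    ring
  have e2 : ({x ∈ RC X | ¬ Osc x.2 (thr δ x.1)}.ncard : ℝ) / (RC X).ncard ≤ ε / 2 := by
    rw [div_le_iff₀ hpos]
    push_cast at hbad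
    nlinarith
  have e3 : 0 ≤ ({x ∈ RC X | ¬ Osc x.2 (thr δ x.1)}.ncard : ℝ) / (RC X).ncard := by positivity
  rw [e1]
  constructor <;> linarith

end Pool.Agent.Helper11.DR
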