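import Mathlib

/-!
# Project DR (MP_a499ba_nt): probability measures of finite support
-/

set_option autoImplicit false

namespace Pool.Agent.Helper11.DR

open MeasureTheory

/-- the measure with the weights `w a`, `a ∈ A` -/
noncomputable def FM {β : Type} [MeasurableSpace β] (A : Finset β) (w : β → ℝ) : Measure β :=
  ∑ a ∈ A, ENNReal.ofReal (w a) • Measure.dirac a

variable {β : Type} [MeasurableSpace β] [MeasurableSingletonClass β]

theorem FM_apply (A : Finset β) (w : β → ℝ) (E : Set β) (hE : MeasurableSet E) :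
    FM A w E = ∑ a ∈ A, ENNReal.ofReal (w a) * E.indicator 1 a := by
  unfold FM
  rw [Measure.finsetSum_apply]
  refine Finset.sum_congr rfl fun a _ => ?_
  rw [Measure.smul_apply, Measure.dirac_apply' a hE, smul_eq_mul]

theorem FM_prob (A : Finset β) (w : β → ℝ) (h0 : ∀ a ∈ A, 0 ≤ w a) (h1 : ∑ a ∈ A, w a = 1) : IsProbabilityMeasure (FM A w) := by
  constructor
  rw [FM_apply A w _ MeasurableSet.univ]
  simp only [Set.indicator_univ, Pi.one_apply, mul_one]
  rw [← ENNReal.ofReal_sum_of_nonneg h0, h1, ENNReal.ofReal_one]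

theorem FM_real (A : Finset β) (w : β → ℝ) (h0 : ∀ a ∈ A, 0 ≤ w a) (E : Set β) (hE : MeasurableSet E) :
    (FM A w).real E = ∑ a ∈ A, w a * E.indicator 1 a := by
  classical
  unfold Measure.real
  rw [FM_apply A w E hE, ENNReal.toReal_sum]
  · refine Finset.sum_congr rfl fun a ha => ?_
    rw [ENNReal.toReal_mul, ENNReal.toReal_ofReal (h0 a ha)]
    by_cases h : a ∈ E
    · simp [Set.indicator_of_mem h]
    · simp [Set.indicator_of_notMem h]
  · intro a _
    by_cases h : a ∈ E
    · simp [Set.indicator_of_mem h]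
    · simp [Set.indicator_of_notMem h]

theorem FM_integrable {F : Type*} [NormedAddCommGroup F] (A : Finset β) (w : β → ℝ) (f : β → F) : Integrable f (FM A w) := by
  unfold FM
  refine integrable_finsetSum_measure.2 fun a _ => ?_
  refine Integrable.smul_measure ?_ ENNReal.ofReal_ne_top
  exact integrable_dirac (by simp)

theorem FM_integral {F : Type*} [NormedAddCommGroup F] [NormedSpace ℝ F] [CompleteSpace F] (A : Finset β) (w : β → ℝ)
    (h0 : ∀ a ∈ A, 0 ≤ w a) (f : β → F) : ∫ a, f a ∂(FM A w) = ∑ a ∈ A, w a • f a := by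
  unfold FM
  rw [integral_finsetSum_measure]
  · refine Finset.sum_congr rfl fun a ha => ?_
    rw [integral_smul_measure, integral_dirac, ENNReal.toReal_ofReal (h0 a ha)]
  · intro a _
    refine Integrable.smul_measure ?_ ENNReal.ofReal_ne_top
    exact integrable_dirac (by simp)

end Pool.Agent.Helper11.DR
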