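import Pool.Agent.Helper11.Q3.Stmts
import Pool.Agent.Helper11.DR.FM

/-!
# Project DR (MP_a499ba_nt), part A1: completely multiplicative signs, the kernel `kap` of their correlations
-/

set_option autoImplicit false

namespace Pool.Agent.Helper11.DR

open Finset MeasureTheory Pool.Agent.Helper5.RM Pool.Agent.Helper11.Q3

/-- the primes with odd exponent -/
noncomputable def od (n : ℕ) : Finset ℕ := n.primeFactors.filter fun p => Odd (n.factorization p)

lemma mem_od {n p : ℕ} : p ∈ od n ↔ p ∈ n.primeFactors ∧ Odd (n.factorization p) := by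
  unfold od
  rw [Finset.mem_filter]

lemma od_prime {n p : ℕ} (h : p ∈ od n) : p.Prime := Nat.prime_of_mem_primeFactors (mem_od.1 h).1

lemma gz_eq (z : ℕ → ℝ) {n : ℕ} (hn : n ≠ 0) : gz z n = n.factorization.prod fun p k => z p ^ k := by
  unfold gz
  rw [if_neg hn]
  rfl

lemma gz_zero (z : ℕ → ℝ) : gz z 0 = 0 := by simp [gz]

lemma gz_one (z : ℕ → ℝ) : gz z 1 = 1 := by simp [gz]

lemma gz_mul (z : ℕ → ℝ) (m n : ℕ) : gz z (m * n) = gz z m * gz z n := by
  rcases eq_or_ne m 0 with rfl | hm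
  · simp [gz_zero]
  rcases eq_or_ne n 0 with rfl | hn
  · simp [gz_zero]
  rw [gz_eq z (mul_ne_zero hm hn), gz_eq z hm, gz_eq z hn, Nat.factorization_mul hm hn,
    Finsupp.prod_add_index' (fun p => pow_zero _) (fun p a b => pow_add _ _ _)]

/-- signs -/
def Sgn (z : ℕ → ℝ) : Prop := ∀ p : ℕ, p.Prime → z p = 1 ∨ z p = -1

lemma gz_odd {z : ℕ → ℝ} (hz : Sgn z) {n : ℕ} (hn : n ≠ 0) : gz z n = ∏ p ∈ od n, z p := by
  unfold gz od
  rw [if_neg hn, Finset.prod_filter]
  refine Finset.prod_congr rfl fun p hp => ?_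
  rcases hz p (Nat.prime_of_mem_primeFactors hp) with h | h
  · rw [h]; simp
  · rw [h]
    split_ifs with ho
    · exact ho.neg_one_pow
    · rw [Nat.not_odd_iff_even] at ho
      exact ho.neg_one_pow

lemma gz_sq {z : ℕ → ℝ} (hz : Sgn z) {n : ℕ} (hn : n ≠ 0) : gz z n = 1 ∨ gz z n = -1 := by
  rw [gz_odd hz hn]
  have : ∀ S : Finset ℕ, (∀ p ∈ S, p.Prime) → (∏ p ∈ S, z p = 1 ∨ ∏ p ∈ S, z p = -1) := by
    intro S
    induction S using Finset.induction_on with
    | empty => intro _; left; simp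
    | insert a s ha ih =>
      intro h
      rw [Finset.prod_insert ha]
      have h1 := ih fun p hp => h p (Finset.mem_insert_of_mem hp)
      rcases hz a (h a (Finset.mem_insert_self a s)) with h2 | h2 <;> rcases h1 with h3 | h3 <;> rw [h2, h3] <;> norm_num
  exact this _ fun p hp => od_prime hp

lemma sgn_sg (T : Finset ℕ) : Sgn (sg T) := by
  intro p _
  unfold sg
  split_ifs
  · right; rfl
  · left; rfl

lemma sgn_zq {q : ℕ} : Sgn (zq q) := by
  intro p hp
  unfold zq
  split_ifs with h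
  · left; rfl
  · have hc : (p : ℤ).gcd q = 1 := by
      rw [Int.gcd_natCast_natCast]
      exact (Nat.Prime.coprime_iff_not_dvd hp).2 h
    rcases jacobiSym.eq_one_or_neg_one hc with h2 | h2
    · right; rw [h2]; norm_num
    · left; rw [h2]; norm_num

/-- the kernel -/
noncomputable def kap (n : ℕ) : ℝ := ∏ p ∈ od n, bp p

lemma bp_nonneg (p : ℕ) : 0 ≤ bp p := by
  unfold bp
  split_ifs
  · exact le_rfl
  · positivity

lemma bp_le {p : ℕ} (hp : p.Prime) : bp p ≤ 1 / p := by
  have h0 : (0 : ℝ) < p := by exact_mod_cast hp.pos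
  unfold bp
  split_ifs
  · positivity
  · exact one_div_le_one_div_of_le h0 (by linarith)

lemma bp_lt_one {p : ℕ} (hp : p.Prime) : bp p < 1 := by
  have h0 : (2 : ℝ) ≤ p := by exact_mod_cast hp.two_le
  refine (bp_le hp).trans_lt ?_
  rw [div_lt_one (by linarith)]
  linarith

lemma kap_nonneg (n : ℕ) : 0 ≤ kap n := Finset.prod_nonneg fun p _ => bp_nonneg p

/-- parity of the exponents -/
lemma od_sq_mul {j a : ℕ} (hj : j ≠ 0) (ha : Squarefree a) : od (j ^ 2 * a) = a.primeFactors := by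
  have ha0 : a ≠ 0 := ha.ne_zero
  ext p
  rw [mem_od, Nat.factorization_mul (pow_ne_zero 2 hj) ha0, Nat.factorization_pow]
  simp only [Finsupp.add_apply, Finsupp.smul_apply, smul_eq_mul]
  constructor
  · rintro ⟨h1, h2⟩
    have h3 : a.factorization p ≠ 0 := by
      intro h
      rw [h, add_zero] at h2
      exact (Nat.not_odd_iff_even.2 (even_two_mul _)) h2
    rw [← Nat.support_factorization, Finsupp.mem_support_iff]
    exact h3
  · intro h
    have hp := Nat.prime_of_mem_primeFactors h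
    refine ⟨?_, ?_⟩
    · rw [Nat.mem_primeFactors]
      exact ⟨hp, Dvd.dvd.mul_left (Nat.dvd_of_mem_primeFactors h) _, mul_ne_zero (pow_ne_zero 2 hj) ha0⟩
    · have h1 := ha.natFactorization_le_one p
      have h2 : a.factorization p ≠ 0 := by
        rw [← Finsupp.mem_support_iff, Nat.support_factorization]
        exact h
      have h3 : a.factorization p = 1 := by omega
      rw [h3]
      exact ⟨j.factorization p, rfl⟩

lemma kap_le {j a : ℕ} (hj : j ≠ 0) (ha : Squarefree a) : kap (j ^ 2 * a) ≤ 1 / a := by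
  unfold kap
  rw [od_sq_mul hj ha]
  have h1 : ∏ p ∈ a.primeFactors, bp p ≤ ∏ p ∈ a.primeFactors, (1 / (p : ℝ)) :=
    Finset.prod_le_prod (fun p _ => bp_nonneg p) fun p hp => bp_le (Nat.prime_of_mem_primeFactors hp)
  refine h1.trans (le_of_eq ?_)
  rw [Finset.prod_div_distrib, Finset.prod_const_one]
  congr 1
  rw [← Nat.cast_prod, Nat.prod_primeFactors_of_squarefree ha]

/-- the product of the primes with odd exponent -/
lemma prod_od_le {n : ℕ} (hn : n ≠ 0) : ∏ p ∈ od n, (p : ℝ) ≤ n := by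
  have h1 : ∏ p ∈ od n, p ≤ ∏ p ∈ n.primeFactors, p := by
    refine Finset.prod_le_prod_of_subset_of_one_le' (Finset.filter_subset _ _) fun p hp _ => ?_
    exact (Nat.prime_of_mem_primeFactors hp).one_lt.le
  have h2 : ∏ p ∈ n.primeFactors, p ≤ n := Nat.le_of_dvd (Nat.pos_of_ne_zero hn) (Nat.prod_primeFactors_dvd n)
  rw [← Nat.cast_prod]
  exact_mod_cast h1.trans h2

end Pool.Agent.Helper11.DR
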