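import Pool.Agent.Helper11.DR.Ms
import Pool.Agent.Helper5.DR.CHF3

/-!
# Project DR (MP_a499ba_nt), part A1: the moment bound for the biased signs (port of `Pool.Agent.DR.khin` of helper5)
-/

set_option autoImplicit false

namespace Pool.Agent.Helper11.DR

open Finset MeasureTheory Pool.Agent.Helper5.RM Pool.Agent.Helper96.AF Pool.Agent.Helper11.Q3 Pool.Agent.DR Pool.Agent.Helper66.LW
open Pool.Agent.IT

variable {a α : ℕ → ℂ}

lemma chB_eq (T : Finset ℕ) (n : ℕ) : chB T n = gt T ∅ n := by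
  unfold chB gz gt
  split_ifs with h
  · simp
  · push_cast
    refine Finset.prod_congr rfl fun p _ => ?_
    simp

/-- one factor -/
lemma one_fac {b y : ℝ} (hb0 : 0 ≤ b) : (Real.exp y * (1 + b) + Real.exp (-y) * (1 + -1 * b)) / 2 ≤ Real.exp (y ^ 2 / 2 + 2 * (b * |y|)) := by
  have h1 : (Real.exp y * (1 + b) + Real.exp (-y) * (1 + -1 * b)) / 2 = Real.cosh y + b * Real.sinh y := by
    rw [Real.cosh_eq, Real.sinh_eq]
    ring
  have h2 := Real.cosh_le_exp_half_sq y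
  have hc := Real.one_le_cosh y
  have h3 : b * Real.sinh y ≤ 2 * (b * |y|) * Real.cosh y := by
    rcases le_or_gt |y| 1 with h | h
    · have h4 : |Real.sinh y| ≤ 2 * |y| := by
        have e1 := Real.abs_exp_sub_one_le h
        have e2 := Real.abs_exp_sub_one_le (x := -y) (by rwa [abs_neg])
        rw [abs_neg] at e2
        rw [Real.sinh_eq, abs_div, abs_of_pos (by norm_num : (0 : ℝ) < 2), div_le_iff₀ (by norm_num)]
        have e3 : Real.exp y - Real.exp (-y) = (Real.exp y - 1) - (Real.exp (-y) - 1) := by ring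
        rw [e3]
        refine (abs_sub _ _).trans ?_
        linarith
      have h5 : b * Real.sinh y ≤ b * (2 * |y|) := mul_le_mul_of_nonneg_left ((le_abs_self _).trans h4) hb0
      have h6 : 0 ≤ 2 * (b * |y|) := by positivity
      nlinarith
    · have h4 : Real.sinh y ≤ Real.cosh y := (Real.sinh_lt_cosh y).le
      have h5 : b * Real.sinh y ≤ b * Real.cosh y := mul_le_mul_of_nonneg_left h4 hb0
      have h6 : b * 1 ≤ b * |y| := mul_le_mul_of_nonneg_left h.le hb0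
      nlinarith
  rw [h1, Real.exp_add]
  have h7 : 1 + 2 * (b * |y|) ≤ Real.exp (2 * (b * |y|)) := by
    have := Real.add_one_le_exp (2 * (b * |y|))
    linarith
  have h8 : 0 ≤ 2 * (b * |y|) := by positivity
  calc Real.cosh y + b * Real.sinh y ≤ Real.cosh y * (1 + 2 * (b * |y|)) := by nlinarith
    _ ≤ Real.exp (y ^ 2 / 2) * Real.exp (2 * (b * |y|)) := mul_le_mul h2 h7 (by positivity) (Real.exp_pos _).le

/-- exponential moments of the biased signs -/
theorem avb_exp {S U : Finset ℕ} (hU : U ⊆ S) (y : ℕ → ℝ) :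
    av S (fun T => Real.exp (∑ p ∈ U, sg T p * y p) * ∏ p ∈ S, (1 + sg T p * bp p)) ≤
      Real.exp (∑ p ∈ U, (y p ^ 2 / 2 + 2 * (bp p * |y p|))) := by
  classical
  have e1 : ∀ T : Finset ℕ, Real.exp (∑ p ∈ U, sg T p * y p) * ∏ p ∈ S, (1 + sg T p * bp p) =
      ∏ p ∈ S, (fun (p : ℕ) (x : ℝ) => (if p ∈ U then Real.exp (x * y p) else 1) * (1 + x * bp p)) p (sg T p) := by
    intro T
    simp only
    rw [Finset.prod_mul_distrib, Finset.prod_ite_mem, Finset.inter_eq_right.2 hU, Real.exp_sum]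
  simp_rw [e1]
  rw [av_prod S fun (p : ℕ) (x : ℝ) => (if p ∈ U then Real.exp (x * y p) else 1) * (1 + x * bp p)]
  have e2 : Real.exp (∑ p ∈ U, (y p ^ 2 / 2 + 2 * (bp p * |y p|))) =
      ∏ p ∈ S, if p ∈ U then Real.exp (y p ^ 2 / 2 + 2 * (bp p * |y p|)) else 1 := by
    rw [Finset.prod_ite_mem, Finset.inter_eq_right.2 hU, Real.exp_sum]
  rw [e2]
  refine Finset.prod_le_prod (fun p _ => ?_) fun p _ => ?_
  · split_ifs
    · have h1 : (Real.exp (1 * y p) * (1 + 1 * bp p) + Real.exp (-1 * y p) * (1 + -1 * bp p)) / 2 =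
          Real.cosh (y p) + bp p * Real.sinh (y p) := by
        rw [Real.cosh_eq, Real.sinh_eq, one_mul, neg_one_mul]
        ring
      rw [h1]
      have h2 : -Real.cosh (y p) ≤ Real.sinh (y p) := by
        have := Real.exp_pos (y p)
        rw [← Real.cosh_add_sinh] at this
        linarith
      have h3 : bp p ≤ 1 := by
        unfold bp
        split_ifs
        · norm_num
        · rw [div_le_one (by positivity)]
          have : (0 : ℝ) ≤ p := Nat.cast_nonneg p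
          linarith
      have h4 := bp_nonneg p
      have h5 := Real.cosh_pos (y p)
      nlinarith
    · have h1 : ((1 : ℝ) * (1 + 1 * bp p) + 1 * (1 + -1 * bp p)) / 2 = 1 := by ring
      rw [h1]
      norm_num
  · split_ifs
    · have h1 := one_fac (y := y p) (bp_nonneg p)
      rw [one_mul, one_mul, neg_one_mul (y p)]
      exact h1
    · have h1 : ((1 : ℝ) * (1 + 1 * bp p) + 1 * (1 + -1 * bp p)) / 2 = 1 := by ring
      rw [h1]

/-- the moment bound -/
theorem mom_B (hL : LogC a α) {r : ℕ} (hr : 9 ≤ r) {ξ : ℕ → ℂ} (hξ : ∀ j, ‖ξ j‖ ≤ 2 ^ (40 * r)) {N : ℕ} (hN : Y (r + 1) ≤ N) :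
    ∫ T, LF r α ξ (chB T) ^ (2 * 2 ^ (122 * r)) ∂(PB (PP N)) ≤
      ((2 * 2 ^ (122 * r)).factorial : ℝ) * Real.exp (-(2 : ℝ) ^ (122 * r)) := by
  classical
  obtain ⟨g0, hg0⟩ : ∃ g0 : ℕ → ℂ, ∀ m, g0 m = 1 := ⟨fun _ => 1, fun _ => rfl⟩
  have hg : ∀ m, 1 ≤ m → m ≤ Y (r + 1) → ‖g0 m‖ ≤ 1 := fun m _ _ => by rw [hg0]; simp
  set M : ℕ := 2 ^ (122 * r) with hM
  set B1 : ℝ := ∑ m ∈ (Icc 1 (Y (r + 1))).filter (fun m => ¬ m.Prime), ‖AA r α ξ m‖ with hB1
  set x : ℕ → ℝ := fun p => (AA r α ξ p * g0 p).re with hx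
  have hB1le : B1 ≤ 2 ^ (62 * r + 3) := by
    calc B1 ≤ ∑ m ∈ (Icc 1 (Y (r + 1))).filter (fun m => ¬ m.Prime), 2 ^ (60 * r) * (‖α m‖ / Real.sqrt m) := by
          refine sum_le_sum fun m hm => AA_le hL (by omega) hξ ?_
          rw [mem_filter, mem_Icc] at hm
          exact hm.1.1
      _ = 2 ^ (60 * r) * ∑ m ∈ (Icc 1 (Y (r + 1))).filter (fun m => ¬ m.Prime), ‖α m‖ / Real.sqrt m := by rw [mul_sum]
      _ ≤ 2 ^ (60 * r) * 2 ^ (2 * r + 3) := mul_le_mul_of_nonneg_left (np5 hL r) (by positivity)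
      _ = 2 ^ (62 * r + 3) := by rw [← pow_add]; congr 1; ring
  have hV : ∑ p ∈ PP (Y (r + 1)), x p ^ 2 ≤ 2 ^ (121 * r + 2) := by
    calc ∑ p ∈ PP (Y (r + 1)), x p ^ 2 ≤ ∑ p ∈ PP (Y (r + 1)), 2 ^ (120 * r) * (1 / (p : ℝ)) := by
          refine sum_le_sum fun p hp => ?_
          obtain ⟨hp1, hp2⟩ := mem_PP.1 hp
          have hp0 : (0 : ℝ) < p := by exact_mod_cast hp1.pos
          have h1 : |x p| ≤ 2 ^ (60 * r) * (1 / Real.sqrt p) := by
            refine (Complex.abs_re_le_norm _).trans ?_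
            rw [norm_mul]
            calc ‖AA r α ξ p‖ * ‖g0 p‖ ≤ ‖AA r α ξ p‖ * 1 := mul_le_mul_of_nonneg_left (hg p hp1.one_le hp2) (norm_nonneg _)
              _ = ‖AA r α ξ p‖ := mul_one _
              _ ≤ 2 ^ (60 * r) * (‖α p‖ / Real.sqrt p) := AA_le hL (by omega) hξ hp1.one_le
              _ ≤ 2 ^ (60 * r) * (1 / Real.sqrt p) := by
                  refine mul_le_mul_of_nonneg_left ?_ (by positivity)
                  exact div_le_div_of_nonneg_right (al_le_one hL p) (Real.sqrt_nonneg _)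
          calc x p ^ 2 = |x p| ^ 2 := (sq_abs _).symm
            _ ≤ (2 ^ (60 * r) * (1 / Real.sqrt p)) ^ 2 := pow_le_pow_left₀ (abs_nonneg _) h1 2
            _ = 2 ^ (120 * r) * (1 / (p : ℝ)) := by
                rw [mul_pow, div_pow, Real.sq_sqrt hp0.le, ← pow_mul]
                congr 2
                ring
                norm_num
      _ = 2 ^ (120 * r) * ∑ p ∈ PP (Y (r + 1)), 1 / (p : ℝ) := by rw [mul_sum]
      _ ≤ 2 ^ (120 * r) * ∑ n ∈ Icc 1 (Y (r + 1)), (1 : ℝ) / n := by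
          refine mul_le_mul_of_nonneg_left ?_ (by positivity)
          apply sum_le_sum_of_subset_of_nonneg
          · unfold PP
            exact filter_subset _ _
          · intro n _ _
            positivity
      _ ≤ 2 ^ (120 * r) * (1 + 2 ^ (r + 1)) := mul_le_mul_of_nonneg_left (harm5 r) (by positivity)
      _ ≤ 2 ^ (121 * r + 2) := by
          have h1 : (1 : ℝ) ≤ 2 ^ (r + 1) := one_le_pow₀ (by norm_num)
          calc (2 : ℝ) ^ (120 * r) * (1 + 2 ^ (r + 1)) ≤ 2 ^ (120 * r) * (2 * 2 ^ (r + 1)) := by gcongr; linarith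
            _ = 2 ^ (121 * r + 2) := by ring
  -- the decomposition
  have hdec : ∀ T1 : Finset ℕ, ∃ y : ℝ, |y| ≤ B1 ∧ LF r α ξ (fun n => g0 n * gt T1 ∅ n) = ∑ p ∈ PP (Y (r + 1)), sg T1 p * x p + y := by
    intro T1
    refine ⟨(∑ m ∈ (Icc 1 (Y (r + 1))).filter (fun m => ¬ m.Prime), AA r α ξ m * (g0 m * gt T1 ∅ m)).re, ?_, ?_⟩
    · refine (Complex.abs_re_le_norm _).trans ((norm_sum_le _ _).trans (sum_le_sum fun m hm => ?_))
      rw [mem_filter, mem_Icc] at hm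
      rw [norm_mul, norm_mul, gt_norm _ _ hm.1.1, mul_one]
      calc ‖AA r α ξ m‖ * ‖g0 m‖ ≤ ‖AA r α ξ m‖ * 1 := mul_le_mul_of_nonneg_left (hg m hm.1.1 hm.1.2) (norm_nonneg _)
        _ = _ := mul_one _
    · rw [LF_eq, ← sum_filter_add_sum_filter_not (Icc 1 (Y (r + 1))) Nat.Prime, Complex.add_re]
      congr 1
      rw [Complex.re_sum]
      refine sum_congr rfl fun p hp => ?_
      have hp1 : p.Prime := (mem_filter.1 hp).2
      rw [gt_prime T1 hp1, hx, ← mul_assoc, mul_comm (AA r α ξ p * g0 p) (sg T1 p : ℂ), Complex.re_ofReal_mul]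
  -- pointwise bound
  have hf0 : (0 : ℝ) < ((2 * M).factorial : ℝ) := by exact_mod_cast Nat.factorial_pos _
  have hpt : ∀ T1 : Finset ℕ, LF r α ξ (fun n => g0 n * gt T1 ∅ n) ^ (2 * M) ≤ ((2 * M).factorial : ℝ) * ((64 : ℝ) ^ M)⁻¹ * Real.exp (8 * B1) *
      (Real.exp (∑ p ∈ PP (Y (r + 1)), sg T1 p * (8 * x p)) + Real.exp (∑ p ∈ PP (Y (r + 1)), sg T1 p * (-8 * x p))) := by
    intro T1
    obtain ⟨y, hy, he⟩ := hdec T1
    set X := LF r α ξ (fun n => g0 n * gt T1 ∅ n) with hX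
    have h1 := Real.pow_div_factorial_le_exp (x := 8 * |X|) (by positivity) (2 * M)
    rw [div_le_iff₀ hf0] at h1
    have h2 : (8 * |X|) ^ (2 * M) = (64 : ℝ) ^ M * X ^ (2 * M) := by
      rw [mul_pow, pow_mul |X|, sq_abs, ← pow_mul X, pow_mul (8 : ℝ)]
      norm_num
    rw [h2] at h1
    have h3 : Real.exp (8 * |X|) ≤ Real.exp (8 * X) + Real.exp (-8 * X) := by
      rcases abs_cases X with ⟨h, _⟩ | ⟨h, _⟩
      · rw [h]
        have := Real.exp_pos (-8 * X)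
        linarith
      · rw [h, show 8 * -X = -8 * X by ring]
        have := Real.exp_pos (8 * X)
        linarith
    rw [abs_le] at hy
    have h4 : Real.exp (8 * X) ≤ Real.exp (8 * B1) * Real.exp (∑ p ∈ PP (Y (r + 1)), sg T1 p * (8 * x p)) := by
      rw [← Real.exp_add]
      apply Real.exp_le_exp.2
      have h5 : ∑ p ∈ PP (Y (r + 1)), sg T1 p * (8 * x p) = 8 * ∑ p ∈ PP (Y (r + 1)), sg T1 p * x p := by
        rw [mul_sum]
        exact sum_congr rfl fun p _ => by ring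
      rw [h5, he]
      linarith [hy.2]
    have h5 : Real.exp (-8 * X) ≤ Real.exp (8 * B1) * Real.exp (∑ p ∈ PP (Y (r + 1)), sg T1 p * (-8 * x p)) := by
      rw [← Real.exp_add]
      apply Real.exp_le_exp.2
      have h5 : ∑ p ∈ PP (Y (r + 1)), sg T1 p * (-8 * x p) = -8 * ∑ p ∈ PP (Y (r + 1)), sg T1 p * x p := by
        rw [mul_sum]
        exact sum_congr rfl fun p _ => by ring
      rw [h5, he]
      linarith [hy.1]
    have h64 : (0 : ℝ) < (64 : ℝ) ^ M := by positivity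
    have h6 : X ^ (2 * M) ≤ ((64 : ℝ) ^ M)⁻¹ * (Real.exp (8 * |X|) * ((2 * M).factorial : ℝ)) := by
      rw [inv_mul_eq_div, le_div_iff₀ h64]
      linarith
    refine h6.trans ?_
    have h7 : Real.exp (8 * |X|) ≤ Real.exp (8 * B1) * (Real.exp (∑ p ∈ PP (Y (r + 1)), sg T1 p * (8 * x p)) +
        Real.exp (∑ p ∈ PP (Y (r + 1)), sg T1 p * (-8 * x p))) := by
      rw [mul_add]
      linarith
    calc ((64 : ℝ) ^ M)⁻¹ * (Real.exp (8 * |X|) * ((2 * M).factorial : ℝ)) ≤ ((64 : ℝ) ^ M)⁻¹ * ((Real.exp (8 * B1) *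
          (Real.exp (∑ p ∈ PP (Y (r + 1)), sg T1 p * (8 * x p)) + Real.exp (∑ p ∈ PP (Y (r + 1)), sg T1 p * (-8 * x p)))) * ((2 * M).factorial : ℝ)) := by
          gcongr
      _ = _ := by ring
  -- the average
  have hPr : ∀ p ∈ PP N, p.Prime := fun p hp => (mem_PP.1 hp).1
  have hsub : PP (Y (r + 1)) ⊆ PP N := by
    intro p hp
    rw [mem_PP] at hp ⊢
    exact ⟨hp.1, hp.2.trans hN⟩
  rw [PB_int hPr]
  have hW : ∀ T : Finset ℕ, 0 ≤ ∏ p ∈ PP N, (1 + sg T p * bp p) := by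
    intro T
    have h1 := wb_nonneg hPr T
    unfold wb at h1
    by_contra hc
    push Not at hc
    have := div_neg_of_neg_of_pos hc (by positivity : (0 : ℝ) < 2 ^ (PP N).card)
    linarith
  have hLF : ∀ T : Finset ℕ, LF r α ξ (chB T) = LF r α ξ (fun n => g0 n * gt T ∅ n) := by
    intro T
    congr 1
    funext n
    rw [chB_eq, hg0, one_mul]
  have hpt2 : ∀ T : Finset ℕ, LF r α ξ (chB T) ^ (2 * M) * ∏ p ∈ PP N, (1 + sg T p * bp p) ≤
      ((2 * M).factorial : ℝ) * ((64 : ℝ) ^ M)⁻¹ * Real.exp (8 * B1) *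
      (Real.exp (∑ p ∈ PP (Y (r + 1)), sg T p * (8 * x p)) * ∏ p ∈ PP N, (1 + sg T p * bp p) +
        Real.exp (∑ p ∈ PP (Y (r + 1)), sg T p * (-8 * x p)) * ∏ p ∈ PP N, (1 + sg T p * bp p)) := by
    intro T
    have h1 := mul_le_mul_of_nonneg_right (hpt T) (hW T)
    rw [hLF]
    refine h1.trans (le_of_eq ?_)
    ring
  refine (av_mono fun T1 _ => hpt2 T1).trans ?_
  rw [av_mul_left, av_add]
  have e1 := avb_exp hsub (fun p => 8 * x p)
  have e2 := avb_exp hsub (fun p => -8 * x p)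
  have hbx : ∑ p ∈ PP (Y (r + 1)), 2 * (bp p * |8 * x p|) ≤ (2 : ℝ) ^ (121 * r + 7) := by
    calc ∑ p ∈ PP (Y (r + 1)), 2 * (bp p * |8 * x p|) ≤ ∑ p ∈ PP (Y (r + 1)), 2 ^ (60 * r + 4) * (1 / (p : ℝ)) := by
          refine sum_le_sum fun p hp => ?_
          obtain ⟨hp1, hp2⟩ := mem_PP.1 hp
          have hp0 : (0 : ℝ) < p := by exact_mod_cast hp1.pos
          have h1 : |x p| ≤ 2 ^ (60 * r) := by
            refine (Complex.abs_re_le_norm _).trans ?_
            rw [norm_mul]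
            calc ‖AA r α ξ p‖ * ‖g0 p‖ ≤ ‖AA r α ξ p‖ * 1 := mul_le_mul_of_nonneg_left (hg p hp1.one_le hp2) (norm_nonneg _)
              _ = ‖AA r α ξ p‖ := mul_one _
              _ ≤ 2 ^ (60 * r) * (‖α p‖ / Real.sqrt p) := AA_le hL (by omega) hξ hp1.one_le
              _ ≤ 2 ^ (60 * r) * 1 := by
                  refine mul_le_mul_of_nonneg_left ?_ (by positivity)
                  rw [div_le_one (Real.sqrt_pos.2 hp0)]
                  refine (al_le_one hL p).trans ?_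
                  rw [Real.one_le_sqrt]
                  exact_mod_cast hp1.one_le
              _ = 2 ^ (60 * r) := mul_one _
          rw [abs_mul, abs_of_pos (by norm_num : (0 : ℝ) < 8)]
          have h2 := bp_le hp1
          calc 2 * (bp p * (8 * |x p|)) ≤ 2 * (1 / p * (8 * 2 ^ (60 * r))) := by
                have := bp_nonneg p
                gcongr
            _ = 2 ^ (60 * r + 4) * (1 / (p : ℝ)) := by
                rw [pow_add]
                ring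
      _ = 2 ^ (60 * r + 4) * ∑ p ∈ PP (Y (r + 1)), 1 / (p : ℝ) := by rw [mul_sum]
      _ ≤ 2 ^ (60 * r + 4) * ∑ n ∈ Icc 1 (Y (r + 1)), (1 : ℝ) / n := by
          refine mul_le_mul_of_nonneg_left ?_ (by positivity)
          apply sum_le_sum_of_subset_of_nonneg
          · unfold PP
            exact filter_subset _ _
          · intro n _ _
            positivity
      _ ≤ 2 ^ (60 * r + 4) * (1 + 2 ^ (r + 1)) := mul_le_mul_of_nonneg_left (harm5 r) (by positivity)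
      _ ≤ 2 ^ (60 * r + 4) * (2 ^ (r + 1) + 2 ^ (r + 1)) := by
          have h1 : (1 : ℝ) ≤ 2 ^ (r + 1) := one_le_pow₀ (by norm_num)
          gcongr
      _ = 2 ^ (61 * r + 6) := by ring
      _ ≤ 2 ^ (121 * r + 7) := pow_le_pow_right₀ (by norm_num) (by omega)
  have hsq : (∑ p ∈ PP (Y (r + 1)), (8 * x p) ^ 2 / 2) ≤ (2 : ℝ) ^ (121 * r + 7) := by
    have : ∑ p ∈ PP (Y (r + 1)), (8 * x p) ^ 2 / 2 = 32 * ∑ p ∈ PP (Y (r + 1)), x p ^ 2 := by
      rw [mul_sum]
      exact sum_congr rfl fun p _ => by ring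
    rw [this]
    calc 32 * (∑ p ∈ PP (Y (r + 1)), x p ^ 2) ≤ 32 * 2 ^ (121 * r + 2) := by gcongr
      _ = 2 ^ (121 * r + 7) := by ring
  have e3 : ∑ p ∈ PP (Y (r + 1)), ((8 * x p) ^ 2 / 2 + 2 * (bp p * |8 * x p|)) ≤ (2 : ℝ) ^ (121 * r + 8) := by
    rw [sum_add_distrib]
    calc _ ≤ (2 : ℝ) ^ (121 * r + 7) + 2 ^ (121 * r + 7) := add_le_add hsq hbx
      _ = 2 ^ (121 * r + 8) := by ring
  have e4 : ∑ p ∈ PP (Y (r + 1)), ((-8 * x p) ^ 2 / 2 + 2 * (bp p * |-8 * x p|)) ≤ (2 : ℝ) ^ (121 * r + 8) := by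
    refine le_trans (le_of_eq ?_) e3
    refine sum_congr rfl fun p _ => ?_
    rw [show -8 * x p = -(8 * x p) by ring, abs_neg, neg_sq]
  have e5 := Real.exp_le_exp.2 e3
  have e6 := Real.exp_le_exp.2 e4
  have hMr : ((M : ℕ) : ℝ) = 2 ^ (122 * r) := by rw [hM]; push_cast; rfl
  have hbig : (512 : ℝ) ≤ 2 ^ r := by
    calc (512 : ℝ) = 2 ^ 9 := by norm_num
      _ ≤ 2 ^ r := pow_le_pow_right₀ (by norm_num) hr
  have e7 : (2 : ℝ) ^ (121 * r + 8) ≤ 1 / 2 * 2 ^ (122 * r) := by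
    calc (2 : ℝ) ^ (121 * r + 8) = 1 / 2 * (2 ^ (121 * r) * 512) := by ring
      _ ≤ 1 / 2 * (2 ^ (121 * r) * 2 ^ r) := by gcongr
      _ = 1 / 2 * 2 ^ (122 * r) := by rw [← pow_add]; congr 2; ring
  have e8 : 8 * B1 ≤ 1 / 2 * 2 ^ (122 * r) := by
    calc 8 * B1 ≤ 8 * 2 ^ (62 * r + 3) := by linarith
      _ = (2 : ℝ) ^ (62 * r + 6) := by ring
      _ ≤ 2 ^ (121 * r + 8) := pow_le_pow_right₀ (by norm_num) (by omega)
      _ ≤ _ := e7
  have e9 : ((64 : ℝ) ^ M)⁻¹ ≤ Real.exp (-(4 * 2 ^ (122 * r))) := by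
    rw [← hMr, ← Real.rpow_natCast, Real.rpow_def_of_pos (by norm_num), ← Real.exp_neg]
    apply Real.exp_le_exp.2
    have h1 : Real.log 64 = 6 * Real.log 2 := by
      rw [show (64 : ℝ) = 2 ^ 6 by norm_num, Real.log_pow]
      push_cast
      ring
    have h2 := Real.log_two_gt_d9
    have h3 : (0 : ℝ) ≤ M := Nat.cast_nonneg _
    rw [h1]
    nlinarith
  have hM4 : (4 : ℝ) ≤ 2 ^ (122 * r) := by
    calc (4 : ℝ) = 2 ^ 2 := by norm_num
      _ ≤ 2 ^ (122 * r) := pow_le_pow_right₀ (by norm_num) (by omega)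
  have e10 : ((64 : ℝ) ^ M)⁻¹ * Real.exp (8 * B1) * (Real.exp ((2 : ℝ) ^ (121 * r + 8)) + Real.exp ((2 : ℝ) ^ (121 * r + 8))) ≤
      Real.exp (-(2 : ℝ) ^ (122 * r)) := by
    calc ((64 : ℝ) ^ M)⁻¹ * Real.exp (8 * B1) * (Real.exp ((2 : ℝ) ^ (121 * r + 8)) + Real.exp ((2 : ℝ) ^ (121 * r + 8))) ≤
          Real.exp (-(4 * 2 ^ (122 * r))) * Real.exp (1 / 2 * 2 ^ (122 * r)) * (Real.exp (1 / 2 * 2 ^ (122 * r)) + Real.exp (1 / 2 * 2 ^ (122 * r))) := by
          gcongr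
      _ = 2 * Real.exp (-(3 * 2 ^ (122 * r))) := by
          rw [← two_mul, mul_left_comm, ← Real.exp_add, ← Real.exp_add]
          congr 2
          ring
      _ ≤ Real.exp (-(2 : ℝ) ^ (122 * r)) := by
          have h1 : Real.exp (-(3 * 2 ^ (122 * r))) = Real.exp (-(2 * 2 ^ (122 * r))) * Real.exp (-(2 : ℝ) ^ (122 * r)) := by
            rw [← Real.exp_add]
            congr 1
            ring
          have h2 : Real.exp (-(2 * 2 ^ (122 * r))) ≤ 1 / 4 := by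
            rw [Real.exp_neg, ← one_div]
            apply one_div_le_one_div_of_le (by norm_num)
            have := Real.add_one_le_exp (2 * (2 : ℝ) ^ (122 * r))
            linarith
          rw [h1]
          have h3 := Real.exp_pos (-(2 : ℝ) ^ (122 * r))
          nlinarith
  have hc0 : 0 ≤ ((2 * M).factorial : ℝ) * ((64 : ℝ) ^ M)⁻¹ * Real.exp (8 * B1) := by positivity
  calc ((2 * M).factorial : ℝ) * ((64 : ℝ) ^ M)⁻¹ * Real.exp (8 * B1) *
        (av (PP N) (fun T => Real.exp (∑ p ∈ PP (Y (r + 1)), sg T p * (8 * x p)) * ∏ p ∈ PP N, (1 + sg T p * bp p)) +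
          av (PP N) (fun T => Real.exp (∑ p ∈ PP (Y (r + 1)), sg T p * (-8 * x p)) * ∏ p ∈ PP N, (1 + sg T p * bp p))) ≤
        ((2 * M).factorial : ℝ) * ((64 : ℝ) ^ M)⁻¹ * Real.exp (8 * B1) *
        (Real.exp ((2 : ℝ) ^ (121 * r + 8)) + Real.exp ((2 : ℝ) ^ (121 * r + 8))) :=
        mul_le_mul_of_nonneg_left (add_le_add (e1.trans e5) (e2.trans e6)) hc0
    _ = ((2 * M).factorial : ℝ) * (((64 : ℝ) ^ M)⁻¹ * Real.exp (8 * B1) *
        (Real.exp ((2 : ℝ) ^ (121 * r + 8)) + Real.exp ((2 : ℝ) ^ (121 * r + 8)))) := by ring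
    _ ≤ _ := mul_le_mul_of_nonneg_left e10 hf0.le

end Pool.Agent.Helper11.DR
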