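import Pool.Agent.Helper11.DR.Bia

/-!
# Project DR (MP_a499ba_nt), part A1: the mean square bound for the two families
-/

set_option autoImplicit false

namespace Pool.Agent.Helper11.DR

open Finset MeasureTheory Pool.Agent.Helper5.RM Pool.Agent.Helper96.AF Pool.Agent.Helper11.Q3 Pool.Agent.DR

lemma sum_inv_le {N : ℕ} (hN : 1 ≤ N) : ∑ k ∈ Finset.Icc 1 N, (1 / (k : ℝ)) ≤ 1 + Real.log N := by
  induction N, hN using Nat.le_induction with
  | base => simp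
  | succ n hn ih =>
    rw [Finset.sum_Icc_succ_top (by omega)]
    have hn0 : (0 : ℝ) < n := by exact_mod_cast hn
    have h1 := Real.one_sub_inv_le_log_of_pos (show (0 : ℝ) < (n + 1) / n by positivity)
    rw [Real.log_div (by positivity) hn0.ne', inv_div] at h1
    have h2 : 1 - (n : ℝ) / (n + 1) = 1 / (n + 1) := by field_simp; ring
    push_cast
    linarith

lemma sum_32_le {N : ℕ} (hN : 1 ≤ N) : ∑ k ∈ Finset.Icc 1 N, (1 / ((k : ℝ) * Real.sqrt k)) ≤ 3 - 2 / Real.sqrt N := by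
  induction N, hN using Nat.le_induction with
  | base => norm_num
  | succ n hn ih =>
    rw [Finset.sum_Icc_succ_top (by omega)]
    have hn0 : (0 : ℝ) < n := by exact_mod_cast hn
    push_cast
    set a := Real.sqrt n with ha
    set b := Real.sqrt ((n : ℝ) + 1) with hb
    have ha0 : 0 < a := Real.sqrt_pos.2 hn0
    have hb0 : 0 < b := Real.sqrt_pos.2 (by linarith)
    have ha2 : a ^ 2 = n := Real.sq_sqrt hn0.le
    have hb2 : b ^ 2 = n + 1 := Real.sq_sqrt (by linarith)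
    have hab : a ≤ b := Real.sqrt_le_sqrt (by linarith)
    have key : 1 / (((n : ℝ) + 1) * b) ≤ 2 / a - 2 / b := by
      rw [← hb2, div_sub_div _ _ ha0.ne' hb0.ne', div_le_div_iff₀ (by positivity) (by positivity)]
      have h1 : (b - a) * (b + a) = 1 := by nlinarith
      have h2 : a * (b + a) ≤ 2 * b ^ 2 := by nlinarith
      have h3 : a ≤ 2 * b ^ 2 * (b - a) := by
        have h4 : 0 ≤ b - a := by linarith
        calc a = a * ((b - a) * (b + a)) := by rw [h1, mul_one]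
          _ = (a * (b + a)) * (b - a) := by ring
          _ ≤ 2 * b ^ 2 * (b - a) := mul_le_mul_of_nonneg_right h2 h4
      nlinarith [mul_le_mul_of_nonneg_left h3 hb0.le]
    linarith

/-- the double sum -/
theorem sum_kap {N : ℕ} (hN : 1 ≤ N) : ∑ m ∈ Finset.Icc 1 N, ∑ n ∈ Finset.Icc 1 N, (1 / (Real.sqrt m * Real.sqrt n) * kap (m * n)) ≤
    9 * (1 + Real.log N) ^ 3 := by
  classical
  choose d k hk hd using Nat.sq_mul_squarefree
  have hN0 : (1 : ℝ) ≤ N := by exact_mod_cast hN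
  have hL : 0 ≤ Real.log N := Real.log_nonneg hN0
  set I := Finset.Icc 1 N with hI
  have hk0 : ∀ m ∈ I, k m ≠ 0 := by
    intro m hm h
    have := hk m
    rw [h] at this
    rw [hI, Finset.mem_Icc] at hm
    simp at this
    omega
  have hd0 : ∀ m, d m ≠ 0 := fun m => (hd m).ne_zero
  have hkI : ∀ m ∈ I, k m ∈ I ∧ d m ∈ I := by
    intro m hm
    have h1 := hk0 m hm
    have h2 := hd0 m
    have h3 := hk m
    rw [hI, Finset.mem_Icc] at hm ⊢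
    rw [Finset.mem_Icc]
    have h4 : k m ≤ k m ^ 2 * d m := by
      calc k m ≤ k m ^ 2 := Nat.le_self_pow (by norm_num) _
        _ ≤ k m ^ 2 * d m := Nat.le_mul_of_pos_right _ (Nat.pos_of_ne_zero h2)
    have h5 : d m ≤ k m ^ 2 * d m := Nat.le_mul_of_pos_left _ (by positivity)
    rw [h3] at h4 h5
    refine ⟨⟨Nat.one_le_iff_ne_zero.2 h1, h4.trans hm.2⟩, ⟨Nat.one_le_iff_ne_zero.2 h2, h5.trans hm.2⟩⟩
  let φ : ℕ × ℕ → ℕ × (ℕ × ℕ) × (ℕ × ℕ) := fun x =>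
    (Nat.gcd (d x.1) (d x.2), (d x.1 / Nat.gcd (d x.1) (d x.2), d x.2 / Nat.gcd (d x.1) (d x.2)), (k x.1, k x.2))
  let G : ℕ × (ℕ × ℕ) × (ℕ × ℕ) → ℝ := fun y =>
    1 / (y.1 : ℝ) * (1 / ((y.2.1.1 : ℝ) * Real.sqrt y.2.1.1) * (1 / ((y.2.1.2 : ℝ) * Real.sqrt y.2.1.2))) *
      (1 / (y.2.2.1 : ℝ) * (1 / (y.2.2.2 : ℝ)))
  have hG0 : ∀ y, 0 ≤ G y := fun y => by
    simp only [G]
    positivity
  have hinj : Set.InjOn φ ((I ×ˢ I : Finset (ℕ × ℕ)) : Set (ℕ × ℕ)) := by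
    rintro ⟨m, n⟩ _ ⟨m', n'⟩ _ h
    simp only [φ, Prod.mk.injEq] at h
    obtain ⟨h1, ⟨h2, h3⟩, h4, h5⟩ := h
    have e1 : d m = d m' := by
      rw [← Nat.div_mul_cancel (Nat.gcd_dvd_left (d m) (d n)), h2, h1, Nat.div_mul_cancel (Nat.gcd_dvd_left (d m') (d n'))]
    have e2 : d n = d n' := by
      rw [← Nat.div_mul_cancel (Nat.gcd_dvd_right (d m) (d n)), h3, h1, Nat.div_mul_cancel (Nat.gcd_dvd_right (d m') (d n'))]
    rw [Prod.mk.injEq]
    exact ⟨by rw [← hk m, ← hk m', e1, h4], by rw [← hk n, ← hk n', e2, h5]⟩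
  have hmaps : ∀ x ∈ I ×ˢ I, φ x ∈ I ×ˢ ((I ×ˢ I) ×ˢ (I ×ˢ I)) := by
    rintro ⟨m, n⟩ hx
    rw [Finset.mem_product] at hx
    obtain ⟨hm1, hm2⟩ := hkI m hx.1
    obtain ⟨hn1, hn2⟩ := hkI n hx.2
    have hg : 0 < Nat.gcd (d m) (d n) := Nat.gcd_pos_of_pos_left _ (Nat.pos_of_ne_zero (hd0 m))
    have hdm : 0 < d m / Nat.gcd (d m) (d n) := Nat.div_pos (Nat.gcd_le_left _ (Nat.pos_of_ne_zero (hd0 m))) hg
    have hdn : 0 < d n / Nat.gcd (d m) (d n) := Nat.div_pos (Nat.gcd_le_right _ (Nat.pos_of_ne_zero (hd0 n))) hg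
    simp only [φ, Finset.mem_product]
    rw [hI, Finset.mem_Icc] at hm2 hn2
    refine ⟨?_, ⟨?_, ?_⟩, hm1, hn1⟩
    · rw [hI, Finset.mem_Icc]
      exact ⟨hg, (Nat.gcd_le_left _ (Nat.pos_of_ne_zero (hd0 m))).trans hm2.2⟩
    · rw [hI, Finset.mem_Icc]
      exact ⟨hdm, (Nat.div_le_self _ _).trans hm2.2⟩
    · rw [hI, Finset.mem_Icc]
      exact ⟨hdn, (Nat.div_le_self _ _).trans hn2.2⟩
  have hterm : ∀ x ∈ I ×ˢ I, 1 / (Real.sqrt x.1 * Real.sqrt x.2) * kap (x.1 * x.2) ≤ G (φ x) := by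
    rintro ⟨m, n⟩ hx
    rw [Finset.mem_product] at hx
    simp only [φ, G]
    obtain ⟨g, hg⟩ : ∃ g, g = Nat.gcd (d m) (d n) := ⟨_, rfl⟩
    obtain ⟨d', hd'⟩ : ∃ d', d' = d m / Nat.gcd (d m) (d n) := ⟨_, rfl⟩
    obtain ⟨e', he'⟩ : ∃ e', e' = d n / Nat.gcd (d m) (d n) := ⟨_, rfl⟩
    rw [← hd', ← he', ← hg]
    have hgpos : 0 < Nat.gcd (d m) (d n) := Nat.gcd_pos_of_pos_left _ (Nat.pos_of_ne_zero (hd0 m))
    have hcop : Nat.Coprime d' e' := by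
      rw [hd', he']
      exact Nat.coprime_div_gcd_div_gcd hgpos
    have em : d m = g * d' := by rw [hd', hg, Nat.mul_div_cancel' (Nat.gcd_dvd_left _ _)]
    have en : d n = g * e' := by rw [he', hg, Nat.mul_div_cancel' (Nat.gcd_dvd_right _ _)]
    have hg0 : g ≠ 0 := by rw [hg]; exact hgpos.ne'
    have hd'0 : d' ≠ 0 := by
      rintro rfl
      exact hd0 m (by rw [em, mul_zero])
    have he'0 : e' ≠ 0 := by
      rintro rfl
      exact hd0 n (by rw [en, mul_zero])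
    have hsf : Squarefree (d' * e') := by
      rw [Nat.squarefree_mul hcop]
      exact ⟨(hd m).squarefree_of_dvd ⟨g, by rw [em]; ring⟩, (hd n).squarefree_of_dvd ⟨g, by rw [en]; ring⟩⟩
    have hkm := hk0 m hx.1
    have hkn := hk0 n hx.2
    have e1 : m * n = (k m * k n * g) ^ 2 * (d' * e') := by
      have h1 : (k m ^ 2 * d m) * (k n ^ 2 * d n) = m * n := by rw [hk m, hk n]
      rw [← h1, em, en]
      ring
    have h2 : kap (m * n) ≤ 1 / ((d' : ℝ) * e') := by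
      rw [e1]
      have := kap_le (j := k m * k n * g) (a := d' * e') (by positivity) hsf
      push_cast at this
      exact this
    have hgR : (0 : ℝ) < g := by exact_mod_cast Nat.pos_of_ne_zero hg0
    have hdR : (0 : ℝ) < d' := by exact_mod_cast Nat.pos_of_ne_zero hd'0
    have heR : (0 : ℝ) < e' := by exact_mod_cast Nat.pos_of_ne_zero he'0
    have hkR : (0 : ℝ) < k m := by exact_mod_cast Nat.pos_of_ne_zero hkm
    have hlR : (0 : ℝ) < k n := by exact_mod_cast Nat.pos_of_ne_zero hkn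
    have s1 : Real.sqrt m = k m * (Real.sqrt g * Real.sqrt d') := by
      have h1 : (m : ℝ) = (k m : ℝ) ^ 2 * ((g : ℝ) * d') := by
        have h3 := hk m
        rw [em] at h3
        exact_mod_cast h3.symm
      rw [h1, Real.sqrt_mul (by positivity), Real.sqrt_sq hkR.le, Real.sqrt_mul hgR.le]
    have s2 : Real.sqrt n = k n * (Real.sqrt g * Real.sqrt e') := by
      have h1 : (n : ℝ) = (k n : ℝ) ^ 2 * ((g : ℝ) * e') := by
        have h3 := hk n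
        rw [en] at h3
        exact_mod_cast h3.symm
      rw [h1, Real.sqrt_mul (by positivity), Real.sqrt_sq hlR.le, Real.sqrt_mul hgR.le]
    have s3 : Real.sqrt m * Real.sqrt n = k m * k n * g * (Real.sqrt d' * Real.sqrt e') := by
      rw [s1, s2]
      have : Real.sqrt g * Real.sqrt g = g := Real.mul_self_sqrt hgR.le
      linear_combination (k m : ℝ) * k n * (Real.sqrt d' * Real.sqrt e') * this
    rw [s3]
    have hsd : 0 < Real.sqrt d' := Real.sqrt_pos.2 hdR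
    have hse : 0 < Real.sqrt e' := Real.sqrt_pos.2 heR
    calc 1 / ((k m : ℝ) * k n * g * (Real.sqrt d' * Real.sqrt e')) * kap (m * n) ≤
          1 / ((k m : ℝ) * k n * g * (Real.sqrt d' * Real.sqrt e')) * (1 / ((d' : ℝ) * e')) := by
          refine mul_le_mul_of_nonneg_left h2 (by positivity)
      _ = _ := by field_simp
  have h1 : ∑ m ∈ I, ∑ n ∈ I, (1 / (Real.sqrt m * Real.sqrt n) * kap (m * n)) ≤ ∑ y ∈ I ×ˢ ((I ×ˢ I) ×ˢ (I ×ˢ I)), G y := by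
    rw [← Finset.sum_product']
    refine (Finset.sum_le_sum hterm).trans ?_
    rw [← Finset.sum_image (g := φ) (f := G) (s := I ×ˢ I) hinj]
    refine Finset.sum_le_sum_of_subset_of_nonneg ?_ fun y _ _ => hG0 y
    intro y hy
    obtain ⟨x, hx, rfl⟩ := Finset.mem_image.1 hy
    exact hmaps x hx
  refine h1.trans ?_
  have h2 : ∑ y ∈ I ×ˢ ((I ×ˢ I) ×ˢ (I ×ˢ I)), G y = (∑ a ∈ I, 1 / (a : ℝ)) * ((∑ a ∈ I, 1 / ((a : ℝ) * Real.sqrt a)) *
      (∑ a ∈ I, 1 / ((a : ℝ) * Real.sqrt a))) * ((∑ a ∈ I, 1 / (a : ℝ)) * (∑ a ∈ I, 1 / (a : ℝ))) := by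
    have P2 : ∀ f g : ℕ → ℝ, ∑ y ∈ I ×ˢ I, f y.1 * g y.2 = (∑ a ∈ I, f a) * ∑ a ∈ I, g a := by
      intro f g
      rw [Finset.sum_product, Finset.sum_mul_sum]
    have P4 : ∀ f g : ℕ × ℕ → ℝ, ∑ y ∈ (I ×ˢ I) ×ˢ (I ×ˢ I), f y.1 * g y.2 = (∑ a ∈ I ×ˢ I, f a) * ∑ a ∈ I ×ˢ I, g a := by
      intro f g
      rw [Finset.sum_product, Finset.sum_mul_sum]
    rw [Finset.sum_product, ← P2 (fun a => 1 / ((a : ℝ) * Real.sqrt a)) (fun a => 1 / ((a : ℝ) * Real.sqrt a)),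
      ← P2 (fun a => 1 / (a : ℝ)) (fun a => 1 / (a : ℝ)), mul_assoc,
      ← P4 (fun a => 1 / ((a.1 : ℝ) * Real.sqrt a.1) * (1 / ((a.2 : ℝ) * Real.sqrt a.2))) (fun a => 1 / (a.1 : ℝ) * (1 / (a.2 : ℝ))),
      Finset.sum_mul_sum]
    refine Finset.sum_congr rfl fun x _ => Finset.sum_congr rfl fun y _ => ?_
    simp only [G]
    ring
  rw [h2]
  have a1 := sum_inv_le hN
  have a2 := sum_32_le hN
  have a3 : ∑ a ∈ I, 1 / ((a : ℝ) * Real.sqrt a) ≤ 3 := by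
    have : 0 ≤ 2 / Real.sqrt N := by positivity
    linarith
  have b1 : 0 ≤ ∑ a ∈ I, 1 / (a : ℝ) := Finset.sum_nonneg fun _ _ => by positivity
  have b2 : 0 ≤ ∑ a ∈ I, 1 / ((a : ℝ) * Real.sqrt a) := Finset.sum_nonneg fun _ _ => by positivity
  calc _ ≤ (1 + Real.log N) * (3 * 3) * ((1 + Real.log N) * (1 + Real.log N)) := by
        refine mul_le_mul (mul_le_mul a1 (mul_le_mul a3 a3 b2 (by norm_num)) (by positivity) (by linarith))
          (mul_le_mul a1 a1 b1 (by linarith)) (by positivity) (by positivity)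
    _ = 9 * (1 + Real.log N) ^ 3 := by ring

/-- the mean square bound -/
theorem ms_of {Ω : Type} [MeasurableSpace Ω] {P : Measure Ω} {χ : Ω → ℕ → ℂ} {Z : ℕ} (h : CF P χ Z) {e : ℝ}
    (hc : ∀ m n : ℕ, 1 ≤ m → m ≤ Z → 1 ≤ n → n ≤ Z → ‖∫ ω, χ ω m * (starRingEnd ℂ) (χ ω n) ∂P‖ ≤ kap (m * n) + e)
    (γ : ℕ → ℂ) (c : ℝ) (hc0 : 0 ≤ c) (hγ : ∀ n : ℕ, 1 ≤ n → ‖γ n‖ ≤ c / Real.sqrt n) {N : ℕ} (hN : 1 ≤ N) (hNZ : N ≤ Z)
    (he : (N : ℝ) ^ 2 * e ≤ 2) (he0 : 0 ≤ e) :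
    ∫ ω, ‖∑ n ∈ Finset.Icc 1 N, γ n * χ ω n‖ ^ 2 ∂P ≤ c ^ 2 * (2 + Real.log N) ^ 4 := by
  have hN0 : (1 : ℝ) ≤ N := by exact_mod_cast hN
  have hL : 0 ≤ Real.log N := Real.log_nonneg hN0
  have h1 : ((∫ ω, ‖∑ n ∈ Finset.Icc 1 N, γ n * χ ω n‖ ^ 2 ∂P : ℝ) : ℂ) =
      ∑ m ∈ Finset.Icc 1 N, ∑ n ∈ Finset.Icc 1 N, γ m * (starRingEnd ℂ) (γ n) * ∫ ω, χ ω m * (starRingEnd ℂ) (χ ω n) ∂P := by
    rw [← h.int_eq γ γ hNZ hNZ, ← integral_complex_ofReal]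
    refine integral_congr_ae (Filter.Eventually.of_forall fun ω => ?_)
    simp only
    rw [Complex.mul_conj, Complex.normSq_eq_norm_sq]
  have h2 : ∫ ω, ‖∑ n ∈ Finset.Icc 1 N, γ n * χ ω n‖ ^ 2 ∂P ≤ ‖((∫ ω, ‖∑ n ∈ Finset.Icc 1 N, γ n * χ ω n‖ ^ 2 ∂P : ℝ) : ℂ)‖ := by
    rw [Complex.norm_real]
    exact le_abs_self _
  refine h2.trans ?_
  rw [h1]
  have h3 : ∀ m ∈ Finset.Icc 1 N, ∀ n ∈ Finset.Icc 1 N, ‖γ m * (starRingEnd ℂ) (γ n) * ∫ ω, χ ω m * (starRingEnd ℂ) (χ ω n) ∂P‖ ≤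
      c ^ 2 * (1 / (Real.sqrt m * Real.sqrt n) * kap (m * n)) + c ^ 2 * e := by
    intro m hm n hn
    rw [Finset.mem_Icc] at hm hn
    have hsm : 1 ≤ Real.sqrt m := by
      rw [Real.one_le_sqrt]
      exact_mod_cast hm.1
    have hsn : 1 ≤ Real.sqrt n := by
      rw [Real.one_le_sqrt]
      exact_mod_cast hn.1
    rw [norm_mul, norm_mul, RCLike.norm_conj]
    have hk := kap_nonneg (m * n)
    calc ‖γ m‖ * ‖γ n‖ * ‖∫ ω, χ ω m * (starRingEnd ℂ) (χ ω n) ∂P‖ ≤ (c / Real.sqrt m) * (c / Real.sqrt n) * (kap (m * n) + e) := by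
          refine mul_le_mul (mul_le_mul (hγ m hm.1) (hγ n hn.1) (norm_nonneg _) (by positivity))
            (hc m n hm.1 (hm.2.trans hNZ) hn.1 (hn.2.trans hNZ)) (norm_nonneg _) (by positivity)
      _ = c ^ 2 * (1 / (Real.sqrt m * Real.sqrt n) * kap (m * n)) + c ^ 2 * (1 / (Real.sqrt m * Real.sqrt n)) * e := by
          field_simp
      _ ≤ c ^ 2 * (1 / (Real.sqrt m * Real.sqrt n) * kap (m * n)) + c ^ 2 * 1 * e := by
          have h5 : 1 / (Real.sqrt m * Real.sqrt n) ≤ 1 := by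
            rw [div_le_one (by positivity)]
            exact one_le_mul_of_one_le_of_one_le hsm hsn
          gcongr
      _ = _ := by ring
  refine (norm_sum_le _ _).trans ((Finset.sum_le_sum fun m hm => (norm_sum_le _ _).trans (Finset.sum_le_sum (h3 m hm))).trans ?_)
  simp_rw [Finset.sum_add_distrib, ← Finset.mul_sum, Finset.sum_const, Nat.card_Icc, nsmul_eq_mul, Nat.add_sub_cancel]
  have h6 := sum_kap hN
  have h7 : c ^ 2 * ∑ i ∈ Finset.Icc 1 N, ∑ j ∈ Finset.Icc 1 N, (1 / (Real.sqrt i * Real.sqrt j) * kap (i * j)) ≤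
      c ^ 2 * (9 * (1 + Real.log N) ^ 3) := mul_le_mul_of_nonneg_left h6 (by positivity)
  have h8 : (N : ℝ) * ((N : ℝ) * (c ^ 2 * e)) ≤ c ^ 2 * 2 := by
    have := mul_le_mul_of_nonneg_left he (sq_nonneg c)
    calc (N : ℝ) * ((N : ℝ) * (c ^ 2 * e)) = c ^ 2 * ((N : ℝ) ^ 2 * e) := by ring
      _ ≤ c ^ 2 * 2 := this
  have h9 : 9 * (1 + Real.log N) ^ 3 + 2 ≤ (2 + Real.log N) ^ 4 := by
    obtain ⟨x, hx⟩ : ∃ x, x = 1 + Real.log N := ⟨_, rfl⟩
    have hx1 : 1 ≤ x := by linarith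
    have e1 : (2 + Real.log N) = 1 + x := by linarith
    rw [e1, ← hx]
    nlinarith [sq_nonneg (x ^ 2 - 5 / 2 * x), sq_nonneg (x - 5 / 2), mul_nonneg (by linarith : (0 : ℝ) ≤ x - 1) (by linarith : (0 : ℝ) ≤ x)]
  calc _ ≤ c ^ 2 * (9 * (1 + Real.log N) ^ 3) + c ^ 2 * 2 := by
        refine le_trans (le_of_eq ?_) (add_le_add h7 h8)
        ring
    _ = c ^ 2 * (9 * (1 + Real.log N) ^ 3 + 2) := by ring
    _ ≤ c ^ 2 * (2 + Real.log N) ^ 4 := mul_le_mul_of_nonneg_left h9 (by positivity)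

end Pool.Agent.Helper11.DR
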