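import Pool.Agent.Helper11.DR.Mom
import Pool.Agent.Helper31.Q3.J1a
import Pool.Agent.Helper80.Q3.J1bd
import Pool.Agent.Helper63.Q3.J1

/-!
# Project DR (MP_a499ba_nt), part A1: the two families, everything that the transfer needs
-/

set_option autoImplicit false

namespace Pool.Agent.Helper11.DR

open Finset MeasureTheory Pool.Agent.Helper5.RM Pool.Agent.Helper96.AF Pool.Agent.Helper11.Q3 Pool.Agent.DR Pool.Agent.Helper66.LW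
open Pool.Agent.IT

lemma od_sub {m n Z : ℕ} (hm : 1 ≤ m) (hm2 : m ≤ Z) (hn : 1 ≤ n) (hn2 : n ≤ Z) : od (m * n) ⊆ PP Z := by
  intro p hp
  have h1 := (mem_od.1 hp).1
  rw [Nat.primeFactors_mul (by omega) (by omega), Finset.mem_union] at h1
  rw [mem_PP]
  rcases h1 with h | h
  · exact ⟨Nat.prime_of_mem_primeFactors h, (Nat.le_of_dvd (by omega) (Nat.dvd_of_mem_primeFactors h)).trans hm2⟩
  · exact ⟨Nat.prime_of_mem_primeFactors h, (Nat.le_of_dvd (by omega) (Nat.dvd_of_mem_primeFactors h)).trans hn2⟩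

lemma PP_prime (N : ℕ) : ∀ p ∈ PP N, p.Prime := fun _ hp => (mem_PP.1 hp).1

theorem corr_B' {Z m n : ℕ} (hm : 1 ≤ m) (hm2 : m ≤ Z) (hn : 1 ≤ n) (hn2 : n ≤ Z) :
    ∫ T, chB T m * (starRingEnd ℂ) (chB T n) ∂(PB (PP Z)) = (kap (m * n) : ℂ) :=
  corr_B (PP_prime Z) hm hn (od_sub hm hm2 hn hn2)

/-- the mean square bound for the biased signs -/
theorem ms_B {Z : ℕ} (γ : ℕ → ℂ) (c : ℝ) (hc0 : 0 ≤ c) (hγ : ∀ n : ℕ, 1 ≤ n → ‖γ n‖ ≤ c / Real.sqrt n) (N : ℕ) (hN : 1 ≤ N)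
    (hNZ : N ^ 3 ≤ Z) : ∫ T, ‖∑ n ∈ Finset.Icc 1 N, γ n * chB T n‖ ^ 2 ∂(PB (PP Z)) ≤ c ^ 2 * (2 + Real.log N) ^ 4 := by
  have hNZ' : N ≤ Z := (Nat.le_self_pow (by norm_num) N).trans hNZ
  refine ms_of (cf_B (PP_prime Z) Z) (e := 0) (fun m n hm hm2 hn hn2 => ?_) γ c hc0 hγ hN hNZ' (by norm_num) le_rfl
  rw [corr_B' hm hm2 hn hn2, Complex.norm_real, Real.norm_eq_abs, abs_of_nonneg (kap_nonneg _), add_zero]

/-- for `Q` large in terms of `Z` the real characters have the correlations of the biased signs -/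
theorem Q_large : ∃ C : ℝ, 0 < C ∧ ∀ Q Z : ℕ, 1 ≤ Z → C * (Z : ℝ) ^ 10 ≤ Q → 0 < (OS Q).card ∧
    (∀ m n : ℕ, 1 ≤ m → m ≤ Z → 1 ≤ n → n ≤ Z →
      ‖(∫ q, chQ q m * (starRingEnd ℂ) (chQ q n) ∂(PQ Q)) - (kap (m * n) : ℂ)‖ ≤ 2 / (Z : ℝ)) := by
  obtain ⟨C, hC, h⟩ := Pool.Agent.Helper63.Q3.j1 Pool.Agent.Helper31.Q3.j1a Pool.Agent.Helper11.Q3.j1b
  refine ⟨16 * C ^ 2 + 1, by positivity, fun Q Z hZ hQ => ?_⟩
  have hZ1 : (1 : ℝ) ≤ Z := by exact_mod_cast hZ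
  have hQ1 : (1 : ℝ) ≤ Q := by
    have h1 : (1 : ℝ) ≤ (Z : ℝ) ^ 10 := one_le_pow₀ hZ1
    nlinarith [sq_nonneg C]
  have hQ1' : 1 ≤ Q := by exact_mod_cast hQ1
  have hcard := Pool.Agent.Helper11.Q3.j1d Q
  have hc0 : (0 : ℝ) < (OS Q).card := by linarith [div_pos (by linarith : (0 : ℝ) < Q) (by norm_num : (0 : ℝ) < 8)]
  refine ⟨by exact_mod_cast hc0, fun m n hm hm2 hn hn2 => ?_⟩
  refine (corr_Q hC.le hQ1' hcard (h Q) hm hm2 hn hn2).trans ?_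
  have hsq : 4 * C * (Z : ℝ) ^ 5 ≤ Real.sqrt Q := by
    apply Real.le_sqrt_of_sq_le
    calc (4 * C * (Z : ℝ) ^ 5) ^ 2 = 16 * C ^ 2 * (Z : ℝ) ^ 10 := by ring
      _ ≤ (16 * C ^ 2 + 1) * (Z : ℝ) ^ 10 := by
          have : (0 : ℝ) ≤ (Z : ℝ) ^ 10 := by positivity
          nlinarith
      _ ≤ Q := hQ
  rw [div_le_div_iff₀ (Real.sqrt_pos.2 (by linarith)) (by linarith)]
  calc 8 * C * (Z : ℝ) ^ 4 * Z = 2 * (4 * C * (Z : ℝ) ^ 5) := by ring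
    _ ≤ 2 * Real.sqrt Q := by linarith

/-- the difference of the correlations, in the form of `chf2` -/
theorem corr_QB {Q Z : ℕ} (h : ∀ m n : ℕ, 1 ≤ m → m ≤ Z → 1 ≤ n → n ≤ Z →
      ‖(∫ q, chQ q m * (starRingEnd ℂ) (chQ q n) ∂(PQ Q)) - (kap (m * n) : ℂ)‖ ≤ 2 / (Z : ℝ)) :
    ∀ m n : ℕ, 1 ≤ m → m ≤ Z → 1 ≤ n → n ≤ Z → ‖(∫ q, chQ q m * (starRingEnd ℂ) (chQ q n) ∂(PQ Q)) -
      ∫ T, chB T m * (starRingEnd ℂ) (chB T n) ∂(PB (PP Z))‖ ≤ 2 / (Z : ℝ) := by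
  intro m n hm hm2 hn hn2
  rw [corr_B' hm hm2 hn hn2]
  exact h m n hm hm2 hn hn2

/-- the mean square bound for the real characters -/
theorem ms_Q {Q Z : ℕ} (hQ : 0 < (OS Q).card) (h : ∀ m n : ℕ, 1 ≤ m → m ≤ Z → 1 ≤ n → n ≤ Z →
      ‖(∫ q, chQ q m * (starRingEnd ℂ) (chQ q n) ∂(PQ Q)) - (kap (m * n) : ℂ)‖ ≤ 2 / (Z : ℝ))
    (γ : ℕ → ℂ) (c : ℝ) (hc0 : 0 ≤ c) (hγ : ∀ n : ℕ, 1 ≤ n → ‖γ n‖ ≤ c / Real.sqrt n) (N : ℕ) (hN : 1 ≤ N)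
    (hNZ : N ^ 3 ≤ Z) : ∫ q, ‖∑ n ∈ Finset.Icc 1 N, γ n * chQ q n‖ ^ 2 ∂(PQ Q) ≤ c ^ 2 * (2 + Real.log N) ^ 4 := by
  have hNZ' : N ≤ Z := (Nat.le_self_pow (by norm_num) N).trans hNZ
  have hN1 : (1 : ℝ) ≤ N := by exact_mod_cast hN
  have hZ0 : (0 : ℝ) < Z := by
    have : (N : ℝ) ≤ Z := by exact_mod_cast hNZ'
    linarith
  refine ms_of (cf_Q hQ Z) (e := 2 / (Z : ℝ)) (fun m n hm hm2 hn hn2 => ?_) γ c hc0 hγ hN hNZ' ?_ (by positivity)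
  · have h1 := h m n hm hm2 hn hn2
    have h2 : ‖∫ q, chQ q m * (starRingEnd ℂ) (chQ q n) ∂(PQ Q)‖ ≤ ‖(∫ q, chQ q m * (starRingEnd ℂ) (chQ q n) ∂(PQ Q)) -
        (kap (m * n) : ℂ)‖ + ‖(kap (m * n) : ℂ)‖ := by
      have := norm_add_le ((∫ q, chQ q m * (starRingEnd ℂ) (chQ q n) ∂(PQ Q)) - (kap (m * n) : ℂ)) (kap (m * n) : ℂ)
      rwa [sub_add_cancel] at this
    rw [Complex.norm_real, Real.norm_eq_abs, abs_of_nonneg (kap_nonneg _)] at h2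
    linarith
  · rw [mul_div_assoc', div_le_iff₀ hZ0]
    have h3 : ((N : ℝ)) ^ 3 ≤ Z := by exact_mod_cast hNZ
    have h4 : (N : ℝ) ^ 2 ≤ (N : ℝ) ^ 3 := pow_le_pow_right₀ hN1 (by norm_num)
    linarith

end Pool.Agent.Helper11.DR
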