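import Pool.Agent.Helper11.DR.Pack
import Pool.Agent.Helper96.DR.Lin
import Pool.Agent.Helper17.Q3.J2

/-!
# Project DR (MP_a499ba_nt), part A1: restriction of the biased law to the small primes, and comparison with fair signs
-/

set_option autoImplicit false

namespace Pool.Agent.Helper11.DR

open Finset MeasureTheory Filter Topology Pool.Agent.Helper5.RM Pool.Agent.Helper96.AF Pool.Agent.Helper11.Q3 Pool.Agent.DR Pool.Agent.Helper66.LW
open Pool.Agent.IT

lemma sg_inter {T U : Finset ℕ} {p : ℕ} (hp : p ∈ U) : sg (T ∩ U) p = sg T p := by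
  unfold sg
  simp [hp]

/-- the values at `n ≤ M` depend only on the primes up to `M` -/
lemma gz_res {M n : ℕ} (hn : n ≤ M) (T : Finset ℕ) : gz (sg (T ∩ PP M)) n = gz (sg T) n := by
  unfold gz
  split_ifs with h0
  · rfl
  · refine Finset.prod_congr rfl fun p hp => ?_
    rw [sg_inter]
    rw [mem_PP]
    exact ⟨Nat.prime_of_mem_primeFactors hp, (Nat.le_of_dvd (Nat.pos_of_ne_zero h0) (Nat.dvd_of_mem_primeFactors hp)).trans hn⟩

lemma fz_res {M n : ℕ} (hn : n ≤ M) (T : Finset ℕ) : fz (sg (T ∩ PP M)) n = fz (sg T) n := by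
  unfold fz
  split_ifs with h0
  · refine Finset.prod_congr rfl fun p hp => ?_
    rw [sg_inter]
    rw [mem_PP]
    exact ⟨Nat.prime_of_mem_primeFactors hp, (Nat.le_of_dvd (Nat.pos_of_ne_zero h0.ne_zero) (Nat.dvd_of_mem_primeFactors hp)).trans hn⟩
  · rfl

/-- the law of the biased signs as an average -/
theorem PB_pb {S : Finset ℕ} (hS : ∀ p ∈ S, p.Prime) (E : Finset ℕ → Prop) : (PB S).real {T | E T} = pb S E := by
  classical
  have := PB_prob hS
  have h1 : ∫ T, (Set.indicator {T | E T} (fun _ => (1 : ℝ))) T ∂(PB S) = (PB S).real {T | E T} := by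
    rw [integral_indicator (by trivial : MeasurableSet {T : Finset ℕ | E T})]
    simp
  rw [← h1, PB_int hS]
  unfold pb
  refine av_congr fun T _ => ?_
  congr 1

theorem pb_insert {S : Finset ℕ} {q : ℕ} (hq : q ∉ S) {E : Finset ℕ → Prop} (hE : ∀ T, E (insert q T) ↔ E T) : pb (insert q S) E = pb S E := by
  classical
  unfold pb
  rw [av_insert hq, ← mul_div_cancel_right₀ (av S fun T => (if E T then (1 : ℝ) else 0) * ∏ p ∈ S, (1 + sg T p * bp p)) (two_ne_zero)]
  congr 1
  have e1 : av S (fun T => (if E T then (1 : ℝ) else 0) * ∏ p ∈ insert q S, (1 + sg T p * bp p)) =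
      (1 + bp q) * av S (fun T => (if E T then (1 : ℝ) else 0) * ∏ p ∈ S, (1 + sg T p * bp p)) := by
    rw [← av_mul_left]
    refine av_congr fun T hT => ?_
    rw [Finset.prod_insert hq, sg_not_mem fun h => hq (hT h)]
    ring
  have e2 : av S (fun T => (if E (insert q T) then (1 : ℝ) else 0) * ∏ p ∈ insert q S, (1 + sg (insert q T) p * bp p)) =
      (1 - bp q) * av S (fun T => (if E T then (1 : ℝ) else 0) * ∏ p ∈ S, (1 + sg T p * bp p)) := by
    rw [← av_mul_left]
    refine av_congr fun T _ => ?_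
    rw [Finset.prod_insert hq, sg_mem (Finset.mem_insert_self q T), if_congr (hE T) rfl rfl]
    have h1 : ∏ p ∈ S, (1 + sg (insert q T) p * bp p) = ∏ p ∈ S, (1 + sg T p * bp p) := by
      refine Finset.prod_congr rfl fun p hp => ?_
      rw [sg_insert_of_ne]
      rintro rfl
      exact hq hp
    rw [h1]
    ring
  rw [e1, e2]
  ring

/-- restriction to a smaller set of primes -/
theorem pb_res {U S : Finset ℕ} (hU : U ⊆ S) {E : Finset ℕ → Prop} (hE : ∀ T, E T ↔ E (T ∩ U)) : pb S E = pb U E := by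
  classical
  have key : ∀ W : Finset ℕ, Disjoint U W → pb (U ∪ W) E = pb U E := by
    intro W
    induction W using Finset.induction_on with
    | empty => intro _; rw [Finset.union_empty]
    | insert q W hq ih =>
      intro hd
      rw [Finset.disjoint_insert_right] at hd
      rw [Finset.union_insert, pb_insert, ih hd.2]
      · rw [Finset.mem_union]
        push Not
        exact ⟨hd.1, hq⟩
      · intro T
        rw [hE (insert q T), hE T, Finset.insert_inter_of_notMem hd.1]
  have h1 := key (S \ U) Finset.disjoint_sdiff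
  rwa [Finset.union_sdiff_of_subset hU] at h1

lemma PP_mono {M N : ℕ} (h : M ≤ N) : PP M ⊆ PP N := by
  intro p hp
  rw [mem_PP] at hp ⊢
  exact ⟨hp.1, hp.2.trans h⟩

/-- biased signs are controlled by fair signs -/
theorem PB_fair : ∃ C : ℝ, 0 < C ∧ ∀ (M N : ℕ), M ≤ N → ∀ E : Finset ℕ → Prop, (∀ T, E T ↔ E (T ∩ PP M)) →
    (PB (PP N)).real {T | E T} ≤ C * Real.sqrt (pr (PP M) E) := by
  obtain ⟨C, hC, h⟩ := Pool.Agent.Helper11.Q3.j2
  refine ⟨C, hC, fun M N hMN E hE => ?_⟩
  rw [PB_pb (PP_prime N), pb_res (PP_mono hMN) hE]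
  exact h M E

/-- the event that the smoothed sums of `a (n) chB T n` satisfy a condition depends only on the primes up to `Y (r + 1)` -/
theorem SS_res (K : Ker) (r i : ℕ) (a : ℕ → ℂ) (T : Finset ℕ) :
    SS K r (fun n => a n * chB (T ∩ PP (Y (r + 1))) n) i = SS K r (fun n => a n * chB T n) i := by
  refine Pool.Agent.Helper96.DR.SS_congr fun n _ hn => ?_
  unfold chB
  rw [gz_res hn]

/-- the bound for the smoothed sums under the biased signs, from the bound under fair signs -/
theorem ev_fair : ∃ C : ℝ, 0 < C ∧ ∀ (K : Ker) (a : ℕ → ℂ) (c : ℂ) (r N : ℕ) (L : ℝ), Y (r + 1) ≤ N →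
    (PB (PP N)).real {T | ∀ i : ℕ, (i : ℝ) ≤ 1 / sr r → (c * SS K r (fun n => a n * chB T n) i).re ≤ L} ≤
      C * Real.sqrt (pr (PP (Y (r + 1))) fun T => ∀ i : ℕ, (i : ℝ) ≤ 1 / sr r → (c * SS K r (fun n => a n * chB T n) i).re ≤ L) := by
  obtain ⟨C, hC, h⟩ := PB_fair
  refine ⟨C, hC, fun K a c r N L hN => h (Y (r + 1)) N hN _ fun T => ?_⟩
  simp only [SS_res]

/-- the models -/
lemma mul_chB_sq (T : Finset ℕ) (n : ℕ) : (if Squarefree n then (1 : ℂ) else 0) * chB T n = (fz (sg T) n : ℂ) := by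
  unfold chB fz gz
  split_ifs with h h0
  · exact absurd h (by rw [h0]; exact not_squarefree_zero)
  · rw [one_mul]
    congr 1
    refine Finset.prod_congr rfl fun p hp => ?_
    have h1 : n.factorization p ≤ 1 := (Nat.squarefree_iff_factorization_le_one h.ne_zero).1 h p
    have h2 : n.factorization p ≠ 0 := by
      have := Nat.support_factorization n ▸ hp
      exact Finsupp.mem_support_iff.1 this
    rw [show n.factorization p = 1 by omega, pow_one]
  · simp
  · simp

end Pool.Agent.Helper11.DR
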