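import Pool.Agent.Helper11.DR.Wt

/-!
# Project DR (MP_a499ba_nt), block SER, part (ii): the weights as Fourier integrals and their Riemann sums
-/

set_option autoImplicit false

namespace Pool.Agent.Helper11.DR

open Finset MeasureTheory Filter Topology Pool.Agent.Helper5.RM Pool.Agent.Helper96.AF Pool.Agent.Helper66.LW Pool.Agent.IT
open Pool.Agent.DR

/-- `1/2 + sr r + iτ` -/
noncomputable def dd (r : ℕ) (τ : ℝ) : ℂ := ((1 / 2 + sr r : ℝ) : ℂ) + Complex.I * (τ : ℂ)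

/-- the integrand -/
noncomputable def Ff (K : Ker) (r : ℕ) (u : ℝ) (n : ℕ) (τ : ℝ) : ℂ :=
  ((Real.exp (sr r * Ur r) * K.ρ τ : ℝ) : ℂ) * Complex.exp (Complex.I * ((τ * u : ℝ) : ℂ)) / dd r τ * (n : ℂ) ^ (-(dd r τ))

lemma dd_re (r : ℕ) (τ : ℝ) : (dd r τ).re = 1 / 2 + sr r := by
  unfold dd
  simp

lemma dd_ne {r : ℕ} (hr : 2 ≤ r) (τ : ℝ) : dd r τ ≠ 0 := by
  intro h
  have := congrArg Complex.re h
  rw [dd_re, Complex.zero_re] at this
  have := sr_pos hr
  linarith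

lemma norm_dd {r : ℕ} (hr : 2 ≤ r) (τ : ℝ) : 1 / 2 ≤ ‖dd r τ‖ := by
  have h1 := Complex.re_le_norm (dd r τ)
  rw [dd_re] at h1
  have := sr_pos hr
  linarith

lemma rho_cs (K : Ker) : HasCompactSupport K.ρ := by
  refine HasCompactSupport.of_support_subset_isCompact (isCompact_Icc (a := -(1 / 4 : ℝ)) (b := 1 / 4)) ?_
  intro t ht
  by_contra h
  refine ht (K.ρ_supp t ?_)
  rw [Set.mem_Icc, ← abs_le, not_le] at h
  exact h.le

lemma rho_int (K : Ker) : Integrable K.ρ := K.ρ_smooth.continuous.integrable_of_hasCompactSupport (rho_cs K)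

lemma cpow_eq {n : ℕ} (hn : 1 ≤ n) (z : ℂ) : (n : ℂ) ^ z = Complex.exp ((Real.log n : ℂ) * z) := by
  have h : (n : ℂ) ≠ 0 := by exact_mod_cast (by omega : n ≠ 0)
  rw [Complex.cpow_def_of_ne_zero h, Complex.natCast_log]

/-- the weight is a Fourier integral -/
theorem Wn_eq (K : Ker) {r : ℕ} (hr : 2 ≤ r) (u : ℝ) {n : ℕ} (hn : 1 ≤ n) : (Wn K r u n : ℂ) = ∫ τ, Ff K r u n τ := by
  have hs := sr_pos hr
  set s := sr r with hsd
  set L := Real.log n with hL
  -- the double integral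
  let H : ℝ → ℝ → ℂ := fun v τ => ((Real.exp (s * Ur r) * K.ρ τ : ℝ) : ℂ) * Complex.exp (Complex.I * ((τ * u : ℝ) : ℂ)) *
    Complex.exp (-(dd r τ) * (v : ℂ))
  have hH : ∀ v τ, ‖H v τ‖ = Real.exp (s * Ur r) * (Real.exp (-(1 / 2 + s) * v) * |K.ρ τ|) := by
    intro v τ
    simp only [H]
    rw [norm_mul, norm_mul, Complex.norm_real, Complex.norm_exp, Complex.norm_exp, norm_mul, Real.norm_eq_abs, Real.norm_eq_abs,
      abs_of_pos (Real.exp_pos _)]
    have e1 : (Complex.I * ((τ * u : ℝ) : ℂ)).re = 0 := by simp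
    have e2 : (-(dd r τ) * (v : ℂ)).re = -(1 / 2 + s) * v := by
      rw [Complex.re_mul_ofReal, Complex.neg_re, dd_re]
    rw [e1, e2, Real.exp_zero]
    ring
  have hHc : Continuous fun p : ℝ × ℝ => H p.1 p.2 := by
    have h1 := K.ρ_smooth.continuous
    simp only [H, dd]
    fun_prop
  have hint : Integrable (fun p : ℝ × ℝ => H p.1 p.2) ((volume.restrict (Set.Ioi L)).prod volume) := by
    have h1 : Integrable (fun v : ℝ => Real.exp (-(1 / 2 + s) * v)) (volume.restrict (Set.Ioi L)) :=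
      integrableOn_exp_mul_Ioi (by linarith) L
    have h2 : Integrable (fun τ => |K.ρ τ|) := (rho_int K).abs
    have h3 := (h1.mul_prod h2).const_mul (Real.exp (s * Ur r))
    refine h3.mono' hHc.aestronglyMeasurable (Eventually.of_forall fun p => ?_)
    rw [hH]
  have h1 : (Wn K r u n : ℂ) = ∫ v in Set.Ioi L, ∫ τ, H v τ := by
    unfold Wn
    rw [← integral_complex_ofReal]
    refine integral_congr_ae (Eventually.of_forall fun v => ?_)
    simp only
    unfold gv kf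
    push_cast
    rw [K.w_eq (u - v), ← integral_const_mul, ← integral_const_mul]
    refine integral_congr_ae (Eventually.of_forall fun τ => ?_)
    simp only [H]
    rw [← hsd]
    have e1 : Complex.exp (Complex.I * ((τ : ℂ) * ((u - v : ℝ) : ℂ))) =
        Complex.exp (Complex.I * ((τ * u : ℝ) : ℂ)) * Complex.exp (-(Complex.I * (τ : ℂ)) * v) := by
      rw [← Complex.exp_add]
      congr 1
      push_cast
      ring
    have e2 : Complex.exp (-(dd r τ) * (v : ℂ)) = Complex.exp (-((v : ℂ) / 2)) * Complex.exp (-((s : ℂ) * v)) *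
        Complex.exp (-(Complex.I * (τ : ℂ)) * v) := by
      rw [← Complex.exp_add, ← Complex.exp_add]
      congr 1
      unfold dd
      push_cast
      ring
    have e3 : Complex.exp (-((s : ℂ) * ((v : ℂ) - (Ur r : ℂ)))) = Complex.exp ((s : ℂ) * Ur r) * Complex.exp (-((s : ℂ) * v)) := by
      rw [← Complex.exp_add]
      congr 1
      ring
    rw [e1, e2, e3]
    push_cast
    ring
  rw [h1, integral_integral_swap hint]
  refine integral_congr_ae (Eventually.of_forall fun τ => ?_)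
  simp only [H]
  rw [integral_const_mul, integral_exp_mul_complex_Ioi (by rw [Complex.neg_re, dd_re]; linarith)]
  unfold Ff
  rw [cpow_eq hn, ← hL, ← hsd]
  have hne := dd_ne hr τ
  rw [show (L : ℂ) * -(dd r τ) = -(dd r τ) * (L : ℂ) by ring]
  field_simp

/-- Riemann sums of Lipschitz functions -/
theorem riemann {F : ℝ → ℂ} {M : ℝ} (hc : Continuous F) (hF : ∀ x ∈ Set.Icc (-1 / 4 : ℝ) (1 / 4), ∀ y ∈ Set.Icc (-1 / 4 : ℝ) (1 / 4),
    ‖F x - F y‖ ≤ M * |x - y|) {N : ℕ} (hN : 0 < N) (hM : 0 ≤ M) :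
    ‖(∫ x in (-1 / 4 : ℝ)..(1 / 4), F x) - ∑ j ∈ Finset.range N, ((1 / (2 * N) : ℝ) : ℂ) * F (-1 / 4 + j / (2 * N))‖ ≤ M / (4 * N) := by
  have hN0 : (0 : ℝ) < N := by exact_mod_cast hN
  set a : ℕ → ℝ := fun j => -1 / 4 + j / (2 * N) with ha
  have ha0 : a 0 = -1 / 4 := by simp [ha]
  have haN : a N = 1 / 4 := by
    simp only [ha]
    field_simp
    norm_num
  have hstep : ∀ j, a (j + 1) - a j = 1 / (2 * N) := by
    intro j
    simp only [ha]
    push_cast
    ring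
  have hmem : ∀ j, j ≤ N → a j ∈ Set.Icc (-1 / 4 : ℝ) (1 / 4) := by
    intro j hj
    have hjN : (j : ℝ) ≤ N := by exact_mod_cast hj
    have h1 : (j : ℝ) / (2 * N) ≤ 1 / 2 := by
      rw [div_le_div_iff₀ (by positivity) (by norm_num)]
      linarith
    have h2 : 0 ≤ (j : ℝ) / (2 * N) := by positivity
    simp only [ha]
    constructor <;> linarith
  have e0 : (∫ x in (-1 / 4 : ℝ)..(1 / 4), F x) = ∑ j ∈ Finset.range N, ∫ x in a j..a (j + 1), F x := by
    rw [intervalIntegral.sum_integral_adjacent_intervals (fun j _ => hc.intervalIntegrable _ _), ha0, haN]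
  rw [e0, ← Finset.sum_sub_distrib]
  refine (norm_sum_le _ _).trans ?_
  have hterm : ∀ j ∈ Finset.range N, ‖(∫ x in a j..a (j + 1), F x) - ((1 / (2 * N) : ℝ) : ℂ) * F (a j)‖ ≤ M * (1 / (2 * N)) * (1 / (2 * N)) := by
    intro j hj
    rw [Finset.mem_range] at hj
    have hle : a j ≤ a (j + 1) := by
      have := hstep j
      have h1 : (0 : ℝ) < 1 / (2 * N) := by positivity
      linarith
    have e1 : ((1 / (2 * N) : ℝ) : ℂ) * F (a j) = ∫ x in a j..a (j + 1), F (a j) := by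
      rw [intervalIntegral.integral_const, hstep j]
      simp
    rw [e1, ← intervalIntegral.integral_sub (hc.intervalIntegrable _ _) (continuous_const.intervalIntegrable _ _)]
    have h2 := intervalIntegral.norm_integral_le_of_norm_le_const (a := a j) (b := a (j + 1)) (f := fun x => F x - F (a j))
      (C := M * (1 / (2 * N))) ?_
    · rwa [hstep j, abs_of_pos (by positivity)] at h2
    · intro x hx
      rw [Set.uIoc_of_le hle] at hx
      have hm1 := hmem j hj.le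
      have hm2 := hmem (j + 1) hj
      refine (hF x ⟨hm1.1.trans hx.1.le, hx.2.trans hm2.2⟩ (a j) hm1).trans ?_
      refine mul_le_mul_of_nonneg_left ?_ hM
      rw [abs_of_nonneg (by linarith [hx.1]), ← hstep j]
      linarith [hx.2]
  refine (Finset.sum_le_sum hterm).trans ?_
  rw [Finset.sum_const, Finset.card_range, nsmul_eq_mul]
  apply le_of_eq
  field_simp
  norm_num

/-- the integrand in a form that is easy to differentiate -/
lemma Ff_eq (K : Ker) (r : ℕ) (u : ℝ) {n : ℕ} (hn : 1 ≤ n) (τ : ℝ) : Ff K r u n τ =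
    ((Real.exp (sr r * Ur r) * Real.exp (-((1 / 2 + sr r) * Real.log n)) : ℝ) : ℂ) *
      ((K.ρ τ : ℂ) * Complex.exp (Complex.I * ((u - Real.log n : ℝ) : ℂ) * (τ : ℂ)) * (dd r τ)⁻¹) := by
  unfold Ff
  rw [cpow_eq hn]
  have e1 : Complex.exp ((Real.log n : ℂ) * -(dd r τ)) = ((Real.exp (-((1 / 2 + sr r) * Real.log n)) : ℝ) : ℂ) *
      Complex.exp (-(Complex.I * (Real.log n : ℂ) * (τ : ℂ))) := by
    rw [Complex.ofReal_exp, ← Complex.exp_add]
    congr 1
    unfold dd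
    push_cast
    ring
  have e2 : Complex.exp (Complex.I * ((u - Real.log n : ℝ) : ℂ) * (τ : ℂ)) = Complex.exp (Complex.I * ((τ * u : ℝ) : ℂ)) *
      Complex.exp (-(Complex.I * (Real.log n : ℂ) * (τ : ℂ))) := by
    rw [← Complex.exp_add]
    congr 1
    push_cast
    ring
  rw [e1, e2]
  push_cast
  ring

/-- bounds for `ρ` -/
lemma rho_bd (K : Ker) : ∃ R : ℝ, 0 < R ∧ ∀ τ, |K.ρ τ| ≤ R ∧ |deriv K.ρ τ| ≤ R := by
  have h1 := K.ρ_smooth.continuous.bounded_above_of_compact_support (rho_cs K)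
  have hd : Continuous (deriv K.ρ) := K.ρ_smooth.continuous_deriv (by norm_num)
  have h2 := hd.bounded_above_of_compact_support (rho_cs K).deriv
  obtain ⟨A, hA⟩ := h1
  obtain ⟨B, hB⟩ := h2
  refine ⟨max (max A B) 1, by positivity, fun τ => ⟨?_, ?_⟩⟩
  · exact (hA τ).trans ((le_max_left _ _).trans (le_max_left _ _))
  · exact (hB τ).trans ((le_max_right _ _).trans (le_max_left _ _))

lemma Ff_lip (K : Ker) {R : ℝ} (hR : 0 < R) (hRb : ∀ τ, |K.ρ τ| ≤ R ∧ |deriv K.ρ τ| ≤ R) {r : ℕ} (hr : 2 ≤ r) {u : ℝ} (hu : 0 ≤ u)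
    {n : ℕ} (hn : 1 ≤ n) (x y : ℝ) : ‖Ff K r u n x - Ff K r u n y‖ ≤
      Real.exp (sr r * Ur r) * (Real.sqrt n)⁻¹ * (4 * R * (2 + u + Real.log n)) * |x - y| := by
  have hn1 : (1 : ℝ) ≤ n := by exact_mod_cast hn
  have hl : 0 ≤ Real.log n := Real.log_nonneg hn1
  have hs := sr_pos hr
  set w : ℝ := u - Real.log n with hw
  have hwb : |w| ≤ u + Real.log n := by
    rw [hw, abs_le]
    constructor <;> linarith
  have hder : ∀ τ : ℝ, HasDerivAt (fun τ : ℝ => (K.ρ τ : ℂ) * Complex.exp (Complex.I * (w : ℂ) * (τ : ℂ)) * (dd r τ)⁻¹)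
      ((((deriv K.ρ τ : ℝ) : ℂ) * Complex.exp (Complex.I * (w : ℂ) * (τ : ℂ)) +
        (K.ρ τ : ℂ) * (Complex.exp (Complex.I * (w : ℂ) * (τ : ℂ)) * (Complex.I * (w : ℂ)))) * (dd r τ)⁻¹ +
        (K.ρ τ : ℂ) * Complex.exp (Complex.I * (w : ℂ) * (τ : ℂ)) * (-Complex.I / dd r τ ^ 2)) τ := by
    intro τ
    have d1 : HasDerivAt (fun τ : ℝ => (K.ρ τ : ℂ)) ((deriv K.ρ τ : ℝ) : ℂ) τ :=
      ((K.ρ_smooth.differentiable (by norm_num)) τ).hasDerivAt.ofReal_comp
    have d2 : HasDerivAt (fun τ : ℝ => Complex.exp (Complex.I * (w : ℂ) * (τ : ℂ)))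
        (Complex.exp (Complex.I * (w : ℂ) * (τ : ℂ)) * (Complex.I * (w : ℂ))) τ := by
      have d3 : HasDerivAt (fun τ : ℝ => Complex.I * (w : ℂ) * (τ : ℂ)) (Complex.I * (w : ℂ) * 1) τ :=
        (Complex.ofRealCLM.hasDerivAt (x := τ)).const_mul _
      have d4 := d3.cexp
      rwa [mul_one] at d4
    have d5 : HasDerivAt (fun τ : ℝ => dd r τ) Complex.I τ := by
      have d6 : HasDerivAt (fun τ : ℝ => (τ : ℂ)) 1 τ := Complex.ofRealCLM.hasDerivAt (x := τ)
      have d7 := (d6.const_mul Complex.I).const_add (((1 / 2 + sr r : ℝ) : ℂ))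
      rwa [mul_one] at d7
    exact (d1.mul d2).mul (d5.inv (dd_ne hr τ))
  have hexp : ∀ τ : ℝ, ‖Complex.exp (Complex.I * (w : ℂ) * (τ : ℂ))‖ = 1 := by
    intro τ
    rw [Complex.norm_exp]
    simp
  have hbd : ∀ τ : ℝ, ‖(((deriv K.ρ τ : ℝ) : ℂ) * Complex.exp (Complex.I * (w : ℂ) * (τ : ℂ)) +
        (K.ρ τ : ℂ) * (Complex.exp (Complex.I * (w : ℂ) * (τ : ℂ)) * (Complex.I * (w : ℂ)))) * (dd r τ)⁻¹ +
        (K.ρ τ : ℂ) * Complex.exp (Complex.I * (w : ℂ) * (τ : ℂ)) * (-Complex.I / dd r τ ^ 2)‖ ≤ 4 * R * (2 + u + Real.log n) := by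
    intro τ
    obtain ⟨b1, b2⟩ := hRb τ
    have hd := norm_dd hr τ
    have hd0 : 0 < ‖dd r τ‖ := by linarith
    have hinv : ‖(dd r τ)⁻¹‖ ≤ 2 := by
      rw [norm_inv, inv_le_comm₀ hd0 (by norm_num)]
      linarith
    have hinv2 : ‖-Complex.I / dd r τ ^ 2‖ ≤ 4 := by
      rw [norm_div, norm_neg, Complex.norm_I, norm_pow, div_le_iff₀ (by positivity)]
      nlinarith
    have t1 : ‖((deriv K.ρ τ : ℝ) : ℂ) * Complex.exp (Complex.I * (w : ℂ) * (τ : ℂ)) +
        (K.ρ τ : ℂ) * (Complex.exp (Complex.I * (w : ℂ) * (τ : ℂ)) * (Complex.I * (w : ℂ)))‖ ≤ R + R * (u + Real.log n) := by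
      refine (norm_add_le _ _).trans (add_le_add ?_ ?_)
      · rw [norm_mul, hexp, mul_one, Complex.norm_real]
        exact b2
      · rw [norm_mul, norm_mul, hexp, one_mul, norm_mul, Complex.norm_I, one_mul, Complex.norm_real, Complex.norm_real]
        exact mul_le_mul b1 hwb (norm_nonneg _) hR.le
    refine (norm_add_le _ _).trans ?_
    rw [norm_mul, norm_mul ((K.ρ τ : ℂ) * _), norm_mul (K.ρ τ : ℂ), hexp, mul_one, Complex.norm_real]
    have h5 := mul_le_mul t1 hinv (norm_nonneg _) (by positivity)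
    have h6 := mul_le_mul b1 hinv2 (norm_nonneg _) hR.le
    have h7 : 0 ≤ R * (u + Real.log n) := by positivity
    calc _ ≤ (R + R * (u + Real.log n)) * 2 + R * 4 := add_le_add h5 h6
      _ ≤ _ := by nlinarith
  have hlip := Convex.norm_image_sub_le_of_norm_hasDerivWithin_le (𝕜 := ℝ) (s := Set.univ) (x := y) (y := x)
    (fun τ _ => (hder τ).hasDerivWithinAt) (fun τ _ => hbd τ) convex_univ (Set.mem_univ _) (Set.mem_univ _)
  rw [Ff_eq K r u hn, Ff_eq K r u hn, ← hw, ← mul_sub, norm_mul, Complex.norm_real, Real.norm_eq_abs, abs_of_pos (by positivity)]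
  have e1 : Real.exp (-((1 / 2 + sr r) * Real.log n)) ≤ (Real.sqrt n)⁻¹ := by
    have e2 : (Real.sqrt n)⁻¹ = Real.exp (-(Real.log n / 2)) := by
      rw [Real.exp_neg, Real.exp_half, Real.exp_log (by linarith)]
    rw [e2]
    apply Real.exp_le_exp.2
    nlinarith
  rw [mul_assoc (Real.exp (sr r * Ur r) * (Real.sqrt n)⁻¹)]
  refine mul_le_mul (mul_le_mul_of_nonneg_left e1 (Real.exp_pos _).le) ?_ (norm_nonneg _) (by positivity)
  rw [← Real.norm_eq_abs]
  exact hlip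

end Pool.Agent.Helper11.DR
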