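import Pool.Agent.Helper11.DR.Rm
import Pool.Agent.Helper52.DR.SERi

/-!
# Project DR (MP_a499ba_nt), block SER: the smoothed sums and the functionals of the coordinates
-/

set_option autoImplicit false

namespace Pool.Agent.Helper11.DR

open Finset MeasureTheory Filter Topology Pool.Agent.Helper5.RM Pool.Agent.Helper96.AF Pool.Agent.Helper66.LW Pool.Agent.IT
open Pool.Agent.DR

/-- the grid weight -/
noncomputable def Gn (K : Ker) (r i n : ℕ) : ℂ := ∑ j ∈ Finset.range (NG r), cij K r i j * (n : ℂ) ^ (-(dd r (tj r j)))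

lemma continuous_Ff (K : Ker) {r : ℕ} (hr : 2 ≤ r) (u : ℝ) {n : ℕ} (hn : 1 ≤ n) : Continuous (Ff K r u n) := by
  have h : Ff K r u n = fun τ => ((Real.exp (sr r * Ur r) * Real.exp (-((1 / 2 + sr r) * Real.log n)) : ℝ) : ℂ) *
      ((K.ρ τ : ℂ) * Complex.exp (Complex.I * ((u - Real.log n : ℝ) : ℂ) * (τ : ℂ)) * (dd r τ)⁻¹) := funext fun τ => Ff_eq K r u hn τ
  rw [h]
  have h1 := K.ρ_smooth.continuous
  have h2 : Continuous fun τ => (dd r τ)⁻¹ := Continuous.inv₀ (by unfold dd; fun_prop) fun τ => dd_ne hr τ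
  fun_prop

lemma Gn_eq (K : Ker) (r i n : ℕ) : Gn K r i n = ∑ j ∈ Finset.range (NG r), ((1 / (2 * NG r) : ℝ) : ℂ) *
    Ff K r (Ur r + i) n (-1 / 4 + j / (2 * NG r)) := by
  unfold Gn
  refine Finset.sum_congr rfl fun j _ => ?_
  have e : (-1 / 4 + (j : ℝ) / (2 * (NG r : ℝ)) : ℝ) = tj r j := rfl
  unfold cij Ff
  rw [e]
  have e2 : ((1 / 2 + sr r : ℝ) : ℂ) + Complex.I * ((tj r j : ℝ) : ℂ) = dd r (tj r j) := rfl
  rw [e2]
  push_cast
  ring

/-- (B) -/
theorem Gn_near (K : Ker) : ∃ r0 : ℕ, ∀ r : ℕ, r0 ≤ r → ∀ i : ℕ, (i : ℝ) ≤ 1 / sr r → ∀ n : ℕ, 1 ≤ n → n ≤ Y (2 * r + 2) →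
    ‖(Wn K r (Ur r + i) n : ℂ) - Gn K r i n‖ ≤ 1 / (4 * Vr r ^ 8 * Real.sqrt n) := by
  obtain ⟨R, hR, hRb⟩ := rho_bd K
  obtain ⟨r1, h1⟩ := inv_sr_le
  obtain ⟨r2, h2⟩ := pow_le_Vr 60 (1 / (128 * R)) (by positivity) 10 (by norm_num)
  refine ⟨max (max r1 r2) 3, fun r hr i hi n hn hn2 => ?_⟩
  have hra : r1 ≤ r := (le_max_left _ _).trans ((le_max_left _ _).trans hr)
  have hrb : r2 ≤ r := (le_max_right _ _).trans ((le_max_left _ _).trans hr)
  have hrc : 3 ≤ r := (le_max_right _ _).trans hr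
  have hV := Vr_pos r
  have hV2 := Vr_le r
  have hn1 : (1 : ℝ) ≤ n := by exact_mod_cast hn
  have hsn : 0 < Real.sqrt n := Real.sqrt_pos.2 (by linarith)
  have hl0 : 0 ≤ Real.log n := Real.log_nonneg hn1
  have hu0 : 0 ≤ Ur r + i := by
    unfold Ur
    positivity
  have hu1 : Ur r + i ≤ 2 * 2 ^ r := by
    have := h1 r hra
    unfold Ur
    linarith
  have hl1 : Real.log n ≤ 4 * (2 ^ r) ^ 2 := by
    have h3 : Real.log n ≤ Real.log (Y (2 * r + 2) : ℕ) := Real.log_le_log (by linarith) (by exact_mod_cast hn2)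
    have h4 : Real.log (Y (2 * r + 2) : ℕ) = Vr (2 * r + 2) := by rw [← exp_Vr, Real.log_exp]
    rw [h4] at h3
    refine h3.trans ((Vr_le _).trans (le_of_eq ?_))
    rw [pow_add, pow_mul', ← pow_mul]
    ring
  have hNG : (0 : ℝ) < NG r := by
    unfold NG
    positivity
  have hNG' : (NG r : ℝ) = (2 ^ r) ^ 20 := by
    unfold NG
    push_cast
    rw [← pow_mul]
    ring_nf
  -- the integral
  have e1 : (Wn K r (Ur r + i) n : ℂ) = ∫ x in (-1 / 4 : ℝ)..(1 / 4), Ff K r (Ur r + i) n x := by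
    rw [Wn_eq K (by omega) _ hn, intervalIntegral.integral_of_le (by norm_num), ← integral_Icc_eq_integral_Ioc,
      setIntegral_eq_integral_of_forall_compl_eq_zero]
    intro τ hτ
    have : K.ρ τ = 0 := by
      apply K.ρ_supp
      rw [Set.mem_Icc, show (-1 / 4 : ℝ) = -(1 / 4) by norm_num, ← abs_le, not_le] at hτ
      exact hτ.le
    unfold Ff
    rw [this]
    simp
  rw [e1, Gn_eq]
  set M : ℝ := Real.exp (sr r * Ur r) * (Real.sqrt n)⁻¹ * (4 * R * (2 + (Ur r + i) + Real.log n)) with hM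
  have hM0 : 0 ≤ M := by positivity
  refine (riemann (continuous_Ff K (by omega) _ hn) (fun x _ y _ => Ff_lip K hR hRb (by omega) hu0 hn x y)
    (by unfold NG; positivity) hM0).trans ?_
  have h60 : Real.exp (sr r * Ur r) = (r : ℝ) ^ 60 := by
    have h1 : sr r * Ur r = (60 : ℕ) * Real.log r := by
      unfold Ur
      have := sr_mul_Vr r
      push_cast
      linarith
    rw [h1, ← Real.log_pow, Real.exp_log (by positivity)]
  have hr60 := h2 r hrb
  set q : ℝ := 2 ^ r with hq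
  have hq8 : 8 ≤ q := by
    have : (2 : ℝ) ^ 3 ≤ 2 ^ r := pow_le_pow_right₀ (by norm_num) hrc
    rw [hq]
    linarith
  have hsum : 2 + (Ur r + i) + Real.log n ≤ 8 * q ^ 2 := by nlinarith
  have hVq : Vr r ^ 10 ≤ q ^ 10 := pow_le_pow_left₀ hV.le hV2 10
  have hVq8 : Vr r ^ 8 ≤ q ^ 8 := pow_le_pow_left₀ hV.le hV2 8
  rw [h60, hNG', div_le_div_iff₀ (by positivity) (by positivity), one_mul]
  have hr60' : (r : ℝ) ^ 60 ≤ 1 / (128 * R) * q ^ 10 := hr60.trans (mul_le_mul_of_nonneg_left hVq (by positivity))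
  calc (r : ℝ) ^ 60 * (Real.sqrt n)⁻¹ * (4 * R * (2 + (Ur r + i) + Real.log n)) * (4 * Vr r ^ 8 * Real.sqrt n) =
        (r : ℝ) ^ 60 * (4 * R * (2 + (Ur r + i) + Real.log n)) * (4 * Vr r ^ 8) := by field_simp
    _ ≤ (1 / (128 * R) * q ^ 10) * (4 * R * (8 * q ^ 2)) * (4 * q ^ 8) := by gcongr
    _ = q ^ 20 := by
        field_simp
        ring
    _ ≤ 4 * q ^ 20 := by
        have : 0 < q ^ 20 := by positivity
        linarith

theorem sER {a α : ℕ → ℂ} (hC : LogC a α) : StmtSER a α := by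
  intro K
  obtain ⟨r1, h1⟩ := wt_near K
  obtain ⟨r2, h2⟩ := Gn_near K
  refine ⟨max (max r1 r2) 2, fun r hr i hi => ?_⟩
  have hra : r1 ≤ r := (le_max_left _ _).trans ((le_max_left _ _).trans hr)
  have hrb : r2 ≤ r := (le_max_right _ _).trans ((le_max_left _ _).trans hr)
  have hrc : 2 ≤ r := (le_max_right _ _).trans hr
  have hV := Vr_pos r
  obtain ⟨B, hB1, hB2, hB3⟩ := Pool.Agent.Helper52.DR.ser_i hC r
  have hi0 : (0 : ℝ) ≤ i := Nat.cast_nonneg i
  have hYY : Y (r + 1) ≤ Y (2 * r + 2) := by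
    unfold Y
    exact Nat.pow_le_pow_right (by norm_num) (Nat.pow_le_pow_right (by norm_num) (by omega))
  have hAB : ∀ n : ℕ, 1 ≤ n → n ≤ Y (2 * r + 2) → ‖(wt K r (Ur r + i) n : ℂ) - Gn K r i n‖ ≤ 1 / (Vr r ^ 8 * Real.sqrt n) := by
    intro n hn hn2
    have hn1 : (1 : ℝ) ≤ n := by exact_mod_cast hn
    have hsn : 0 < Real.sqrt n := Real.sqrt_pos.2 (by linarith)
    have a1 := h1 r hra (Ur r + i) (by linarith) (by linarith) n hn
    have a2 := h2 r hrb i hi n hn hn2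
    have a3 : (wt K r (Ur r + i) n : ℂ) - Gn K r i n = ((wt K r (Ur r + i) n - Wn K r (Ur r + i) n : ℝ) : ℂ) +
        ((Wn K r (Ur r + i) n : ℂ) - Gn K r i n) := by
      push_cast
      ring
    rw [a3]
    refine (norm_add_le _ _).trans ?_
    rw [Complex.norm_real, Real.norm_eq_abs]
    refine (add_le_add a1 a2).trans ?_
    rw [← add_div, div_le_div_iff₀ (by positivity) (by positivity)]
    have : 0 < Vr r ^ 8 * Real.sqrt n := by positivity
    nlinarith
  have hwt0 : ∀ n : ℕ, Y (r + 1) < n → wt K r (Ur r + i) n = 0 := by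
    intro n hn
    unfold wt
    rw [intervalIntegral.integral_congr (g := fun _ => (0 : ℝ))]
    · simp
    · intro v hv
      rw [Set.uIcc_of_le (by linarith)] at hv
      simp only
      rw [if_neg]
      rw [not_le]
      refine hv.2.trans_lt ?_
      have hn0 : (0 : ℝ) < n := by exact_mod_cast (by omega : 0 < n)
      rw [Real.lt_log_iff_exp_lt hn0, exp_two_Vr]
      exact_mod_cast hn
  refine ⟨fun n => if 1 ≤ n ∧ n ≤ Y (2 * r + 2) then (if n ≤ Y (r + 1) then a n * (wt K r (Ur r + i) n : ℂ) else 0) - B n * Gn K r i n else 0,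
    fun n hn => ?_, fun g hg1 hgm => ?_⟩
  · simp only
    have hn1 : (1 : ℝ) ≤ n := by exact_mod_cast hn
    have hsn : 0 < Real.sqrt n := Real.sqrt_pos.2 (by linarith)
    split_ifs with c1 c2
    · rw [hB2 n hn c2, ← mul_sub, norm_mul]
      refine (mul_le_of_le_one_left (norm_nonneg _) (hC.norm_le n)).trans (hAB n hn c1.2)
    · have h3 := hAB n hn c1.2
      rw [hwt0 n (by omega), Complex.ofReal_zero, zero_sub, norm_neg] at h3
      rw [zero_sub, norm_neg, norm_mul]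
      exact (mul_le_of_le_one_left (norm_nonneg _) (hB1 n)).trans h3
    · rw [norm_zero]
      positivity
  · -- the identity
    have e1 : SS K r (fun n => a n * g n) i = ∑ n ∈ Finset.Icc 1 (Y (2 * r + 2)),
        (if n ≤ Y (r + 1) then a n * (wt K r (Ur r + i) n : ℂ) else 0) * g n := by
      rw [SS_eq]
      have hsub : Finset.Icc 1 (Y (r + 1)) ⊆ Finset.Icc 1 (Y (2 * r + 2)) := Finset.Icc_subset_Icc le_rfl hYY
      rw [← Finset.sum_subset hsub]
      · refine Finset.sum_congr rfl fun n hn => ?_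
        rw [if_pos (Finset.mem_Icc.1 hn).2]
        ring
      · intro n hn hn2
        rw [if_neg, zero_mul]
        intro h
        exact hn2 (Finset.mem_Icc.2 ⟨(Finset.mem_Icc.1 hn).1, h⟩)
    have e2 : PH K r (fun j => PS r α g (tj r j)) i = ∑ n ∈ Finset.Icc 1 (Y (2 * r + 2)), B n * Gn K r i n * g n := by
      unfold PH
      have e3 : ∀ j ∈ Finset.range (NG r), cij K r i j * TE r (PS r α g (tj r j)) =
          ∑ n ∈ Finset.Icc 1 (Y (2 * r + 2)), cij K r i j * (B n * (g n * (n : ℂ) ^ (-(dd r (tj r j))))) := by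
        intro j _
        rw [hB3 g hg1 hgm, Finset.mul_sum]
        rfl
      rw [Finset.sum_congr rfl e3, Finset.sum_comm]
      refine Finset.sum_congr rfl fun n _ => ?_
      unfold Gn
      rw [Finset.mul_sum, Finset.sum_mul]
      refine Finset.sum_congr rfl fun j _ => ?_
      ring
    rw [e1, e2, ← Finset.sum_sub_distrib]
    refine Finset.sum_congr rfl fun n hn => ?_
    simp only
    rw [if_pos (Finset.mem_Icc.1 hn)]
    ring

end Pool.Agent.Helper11.DR
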