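import Pool.Agent.Helper11.DR.Pack
import Pool.Agent.Helper5.DR.SUB

/-!
# Project DR (MP_a499ba_nt), part A1: the coordinates are at most `20 r` outside a small set, for the biased signs and for the real
characters
-/

set_option autoImplicit false

namespace Pool.Agent.Helper11.DR

open Finset MeasureTheory Filter Topology Pool.Agent.Helper5.RM Pool.Agent.Helper96.AF Pool.Agent.Helper11.Q3 Pool.Agent.DR Pool.Agent.Helper66.LW
open Pool.Agent.IT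

variable {a α : ℕ → ℂ}

/-- the bound for the moments -/
noncomputable def EB (C : ℝ) (r : ℕ) : ℝ := ((2 * (20 * r)).factorial : ℝ) * ((36 : ℝ) ^ (20 * r))⁻¹ *
  (2 * Real.exp (29 * ((r + 1) * Real.log 2 + C))) + 2 / (Y (150 * r) : ℝ) * (Y (r + 1) : ℝ) ^ (2 * (20 * r))

/-- the tail of the real part of a Dirichlet polynomial, from the moments -/
theorem tail_of {Ω : Type} [MeasurableSpace Ω] {P : Measure Ω} {χ : Ω → ℕ → ℂ} {C : ℝ} {r : ℕ} (hr : 8 ≤ r)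
    (h : CF P χ (Y (150 * r))) {A : ℕ → ℂ}
    (hmom : ∫ ω, (∑ m ∈ Icc 1 (Y (r + 1)), A m * χ ω m).re ^ (2 * (20 * r)) ∂P ≤ EB C r) :
    P.real {ω | 14 * (r : ℝ) < |(∑ m ∈ Icc 1 (Y (r + 1)), A m * χ ω m).re|} ≤ (2 ^ 30 * Real.exp (29 * C) + 1) / 2 ^ (31 * r) := by
  have hp := h.prob
  obtain ⟨k, hk⟩ : ∃ k : ℕ, k = 20 * r := ⟨_, rfl⟩
  unfold EB at hmom
  rw [← hk] at hmom
  have hr1 : (1 : ℝ) ≤ r := by exact_mod_cast (by omega : 1 ≤ r)
  have hr0 : (0 : ℝ) < r := by linarith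
  have hYZ : Y (r + 1) ≤ Y (150 * r) := Y_mono (by omega)
  obtain ⟨V, hVd⟩ : ∃ V : ℝ, V = (r + 1) * Real.log 2 + C := ⟨_, rfl⟩
  rw [← hVd] at hmom
  set E1 : ℝ := 2 / (Y (150 * r) : ℝ) * (Y (r + 1) : ℝ) ^ (2 * k) with hE1
  set E2 : ℝ := ((2 * k).factorial : ℝ) * ((36 : ℝ) ^ k)⁻¹ * (2 * Real.exp (29 * V)) with hE2
  -- Markov
  set D : ℝ := (14 * (r : ℝ)) ^ (2 * k) with hD
  have hD0 : 0 < D := by positivity
  have hD1 : 1 ≤ D := one_le_pow₀ (by linarith)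
  have hmk := mul_meas_ge_le_integral_of_nonneg (μ := P) (f := fun ω => (∑ m ∈ Icc 1 (Y (r + 1)), A m * χ ω m).re ^ (2 * k))
    (ae_of_all _ fun ω => by beta_reduce; rw [pow_mul]; positivity) (h.int_pow A hYZ (2 * k)) D
  have hsub : P.real {ω | 14 * (r : ℝ) < |(∑ m ∈ Icc 1 (Y (r + 1)), A m * χ ω m).re|} ≤
      P.real {ω | D ≤ (∑ m ∈ Icc 1 (Y (r + 1)), A m * χ ω m).re ^ (2 * k)} := by
    refine measureReal_mono (fun ω hω => ?_) (measure_ne_top _ _)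
    rw [Set.mem_ofPred_eq] at hω ⊢
    have h1 : (∑ m ∈ Icc 1 (Y (r + 1)), A m * χ ω m).re ^ (2 * k) = |(∑ m ∈ Icc 1 (Y (r + 1)), A m * χ ω m).re| ^ (2 * k) :=
      ((even_two_mul k).pow_abs _).symm
    rw [h1, hD]
    exact pow_le_pow_left₀ (by positivity) hω.le _
  have hfin : D * P.real {ω | 14 * (r : ℝ) < |(∑ m ∈ Icc 1 (Y (r + 1)), A m * χ ω m).re|} ≤ E2 + E1 :=
    (mul_le_mul_of_nonneg_left hsub hD0.le).trans (hmk.trans hmom)
  -- numbers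
  have n1 : ((2 * k).factorial : ℝ) * ((36 : ℝ) ^ k)⁻¹ ≤ D / 2 ^ (60 * r) := by
    have h1 : ((2 * k).factorial : ℝ) ≤ (2 * k : ℝ) ^ k * (k : ℝ) ^ k := by
      have := (Nat.factorial_two_mul_le k).trans (Nat.mul_le_mul_left _ (Nat.factorial_le_pow k))
      exact_mod_cast this
    rw [← div_eq_mul_inv, div_le_div_iff₀ (by positivity) (by positivity)]
    have h2 : (2 : ℝ) ^ (60 * r) = 8 ^ k := by
      rw [hk, show 60 * r = 3 * (20 * r) by ring, pow_mul]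
      norm_num
    have h3 : D = (196 * (r : ℝ) ^ 2) ^ k := by
      rw [hD, pow_mul]
      congr 1
      ring
    have h4 : (k : ℝ) = 20 * r := by rw [hk]; push_cast; rfl
    rw [h2, h3]
    calc ((2 * k).factorial : ℝ) * 8 ^ k ≤ (2 * k : ℝ) ^ k * (k : ℝ) ^ k * 8 ^ k := mul_le_mul_of_nonneg_right h1 (by positivity)
      _ = (2 * (20 * r) * (20 * r) * 8 : ℝ) ^ k := by rw [← mul_pow, ← mul_pow, h4]
      _ ≤ (196 * (r : ℝ) ^ 2 * 36) ^ k := by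
          apply pow_le_pow_left₀ (by positivity)
          nlinarith [sq_nonneg (r : ℝ)]
      _ = (196 * (r : ℝ) ^ 2) ^ k * 36 ^ k := by rw [mul_pow]
  have n2 : Real.exp (29 * V) = 2 ^ (29 * r) * (2 ^ 29 * Real.exp (29 * C)) := by
    have h1 : Real.exp (29 * V) = Real.exp ((29 * r + 29 : ℕ) * Real.log 2) * Real.exp (29 * C) := by
      rw [← Real.exp_add, hVd]
      congr 1
      push_cast
      ring
    rw [h1, mul_comm ((29 * r + 29 : ℕ) : ℝ), Real.exp_mul, Real.exp_log (by norm_num), Real.rpow_natCast, pow_add]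
    ring
  have n3 : E1 ≤ 1 / 2 ^ (60 * r) := by
    have hY : (Y (150 * r) : ℝ) = 2 ^ (2 ^ (150 * r)) := by unfold Y; push_cast; rfl
    have hY2 : (Y (r + 1) : ℝ) = 2 ^ (2 ^ (r + 1)) := by unfold Y; push_cast; rfl
    rw [hE1, hY, hY2, ← pow_mul, div_mul_eq_mul_div, div_le_div_iff₀ (by positivity) (by positivity), one_mul]
    calc 2 * (2 : ℝ) ^ (2 ^ (r + 1) * (2 * k)) * 2 ^ (60 * r) = 2 ^ (60 * r + 1 + 2 ^ (r + 1) * (2 * k)) := by
          rw [pow_add _ (60 * r + 1), pow_succ]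
          ring
      _ ≤ 2 ^ (2 ^ (150 * r)) := pow_le_pow_right₀ (by norm_num) (by rw [hk]; exact nuk (by omega))
  have n4 : E2 + E1 ≤ D * ((2 ^ 30 * Real.exp (29 * C) + 1) / 2 ^ (31 * r)) := by
    have h1 : E2 ≤ D * (2 ^ 30 * Real.exp (29 * C) / 2 ^ (31 * r)) := by
      calc E2 ≤ D / 2 ^ (60 * r) * (2 * Real.exp (29 * V)) := mul_le_mul_of_nonneg_right n1 (by positivity)
        _ = D * (2 ^ 30 * Real.exp (29 * C) / 2 ^ (31 * r)) := by
            rw [n2, show 60 * r = 29 * r + 31 * r by ring, pow_add]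
            field_simp
    have h2 : E1 ≤ D * (1 / 2 ^ (31 * r)) := by
      calc E1 ≤ 1 / 2 ^ (60 * r) := n3
        _ ≤ 1 / 2 ^ (31 * r) := by
            apply one_div_le_one_div_of_le (by positivity)
            exact pow_le_pow_right₀ (by norm_num) (by omega)
        _ ≤ D * (1 / 2 ^ (31 * r)) := le_mul_of_one_le_left (by positivity) hD1
    calc E2 + E1 ≤ D * (2 ^ 30 * Real.exp (29 * C) / 2 ^ (31 * r)) + D * (1 / 2 ^ (31 * r)) := add_le_add h1 h2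
      _ = _ := by ring
  exact le_of_mul_le_mul_left (hfin.trans n4) hD0

/-- the coordinates are at most `20 r` outside a small set, from the moments -/
theorem sub_of (C : ℝ) (α : ℕ → ℂ) : ∀ η : ℝ, 0 < η → ∃ r0 : ℕ, ∀ r : ℕ, r0 ≤ r → ∀ (Ω : Type) [MeasurableSpace Ω]
    (P : Measure Ω) (χ : Ω → ℕ → ℂ), CF P χ (Y (150 * r)) →
    (∀ A : ℕ → ℂ, (∀ m, 1 ≤ m → ‖A m‖ ≤ ‖α m‖ / Real.sqrt m) →
      ∫ ω, (∑ m ∈ Icc 1 (Y (r + 1)), A m * χ ω m).re ^ (2 * (20 * r)) ∂P ≤ EB C r) →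
    P.real {ω | ∃ j : ℕ, j < NG r ∧ 20 * (r : ℝ) < ‖PS r α (χ ω) (tj r j)‖} ≤ η := by
  intro η hη
  set D : ℝ := 2 ^ 30 * Real.exp (29 * C) + 1 with hD
  have hD0 : 0 < D := by positivity
  obtain ⟨r1, hr1⟩ := exists_nat_gt (2 * D / η)
  refine ⟨max 8 r1, fun r hr Ω _ P χ h hmom => ?_⟩
  have hr8 : 8 ≤ r := (le_max_left _ _).trans hr
  have hrr1 : (r1 : ℝ) ≤ r := by exact_mod_cast (le_max_right _ _).trans hr
  have hp := h.prob
  have hs := sr_pos (r := r) (by omega)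
  set B : ℕ → ℕ → ℂ := fun j m => α m * (m : ℂ) ^ (-(((1 / 2 + sr r : ℝ) : ℂ) + Complex.I * (tj r j : ℂ))) with hB
  have hBn : ∀ j m, 1 ≤ m → ‖B j m‖ ≤ ‖α m‖ / Real.sqrt m := by
    intro j m hm
    have hm0 : (0 : ℝ) < m := by exact_mod_cast hm
    have hm1 : (1 : ℝ) ≤ m := by exact_mod_cast hm
    rw [hB]
    beta_reduce
    rw [norm_mul, Complex.norm_natCast_cpow_of_pos (by omega)]
    have h2 : (-(((1 / 2 + sr r : ℝ) : ℂ) + Complex.I * (tj r j : ℂ))).re = -(1 / 2 + sr r) := by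
      simp
    rw [h2, div_eq_mul_inv]
    refine mul_le_mul_of_nonneg_left ?_ (norm_nonneg _)
    rw [Real.rpow_neg hm0.le]
    apply inv_anti₀ (Real.sqrt_pos.2 hm0)
    rw [Real.sqrt_eq_rpow]
    exact Real.rpow_le_rpow_of_exponent_le hm1 (by linarith)
  have hPS : ∀ ω j, PS r α (χ ω) (tj r j) = ∑ m ∈ Icc 1 (Y (r + 1)), B j m * χ ω m := by
    intro ω j
    unfold PS
    exact sum_congr rfl fun m _ => by rw [hB]; ring
  have hone : ∀ j, P.real {ω | 20 * (r : ℝ) < ‖PS r α (χ ω) (tj r j)‖} ≤ 2 * (D / 2 ^ (31 * r)) := by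
    intro j
    have t1 := tail_of (C := C) hr8 h (A := B j) (hmom _ (hBn j))
    have t2 := tail_of (C := C) hr8 h (A := fun m => -Complex.I * B j m) (hmom _ fun m hm => by
      rw [norm_mul, norm_neg, Complex.norm_I, one_mul]
      exact hBn j m hm)
    have hsub : {ω | 20 * (r : ℝ) < ‖PS r α (χ ω) (tj r j)‖} ⊆ {ω | 14 * (r : ℝ) < |(∑ m ∈ Icc 1 (Y (r + 1)), B j m * χ ω m).re|} ∪
        {ω | 14 * (r : ℝ) < |(∑ m ∈ Icc 1 (Y (r + 1)), -Complex.I * B j m * χ ω m).re|} := by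
      intro ω hω
      rw [Set.mem_ofPred_eq, hPS] at hω
      rw [Set.mem_union, Set.mem_ofPred_eq, Set.mem_ofPred_eq]
      set z := ∑ m ∈ Icc 1 (Y (r + 1)), B j m * χ ω m with hz
      have h1 : ∑ m ∈ Icc 1 (Y (r + 1)), -Complex.I * B j m * χ ω m = -Complex.I * z := by
        rw [hz, mul_sum]
        exact sum_congr rfl fun m _ => by ring
      have h2 : (-Complex.I * z).re = z.im := by simp
      rw [h1, h2]
      by_contra hc
      push Not at hc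
      have h3 : ‖z‖ ^ 2 = z.re ^ 2 + z.im ^ 2 := by
        rw [← Complex.normSq_eq_norm_sq, Complex.normSq_apply]
        ring
      have hr0 : (0 : ℝ) ≤ r := Nat.cast_nonneg _
      have h4 : z.re ^ 2 ≤ (14 * (r : ℝ)) ^ 2 := by
        rw [← sq_abs]
        exact pow_le_pow_left₀ (abs_nonneg _) hc.1 2
      have h5 : z.im ^ 2 ≤ (14 * (r : ℝ)) ^ 2 := by
        rw [← sq_abs]
        exact pow_le_pow_left₀ (abs_nonneg _) hc.2 2
      have h6 : (20 * (r : ℝ)) ^ 2 < ‖z‖ ^ 2 := pow_lt_pow_left₀ hω (by positivity) (by norm_num)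
      nlinarith [sq_nonneg (r : ℝ)]
    calc P.real {ω | 20 * (r : ℝ) < ‖PS r α (χ ω) (tj r j)‖} ≤ _ := measureReal_mono hsub (measure_ne_top _ _)
      _ ≤ _ := measureReal_union_le _ _
      _ ≤ D / 2 ^ (31 * r) + D / 2 ^ (31 * r) := add_le_add t1 t2
      _ = _ := by ring
  have hun : {ω | ∃ j : ℕ, j < NG r ∧ 20 * (r : ℝ) < ‖PS r α (χ ω) (tj r j)‖} ⊆
      ⋃ j ∈ range (NG r), {ω | 20 * (r : ℝ) < ‖PS r α (χ ω) (tj r j)‖} := by
    rintro ω ⟨j, hj, hω⟩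
    rw [Set.mem_iUnion₂]
    exact ⟨j, mem_range.2 hj, hω⟩
  calc P.real {ω | ∃ j : ℕ, j < NG r ∧ 20 * (r : ℝ) < ‖PS r α (χ ω) (tj r j)‖} ≤
        P.real (⋃ j ∈ range (NG r), {ω | 20 * (r : ℝ) < ‖PS r α (χ ω) (tj r j)‖}) := measureReal_mono hun (measure_ne_top _ _)
    _ ≤ ∑ j ∈ range (NG r), P.real {ω | 20 * (r : ℝ) < ‖PS r α (χ ω) (tj r j)‖} := measureReal_biUnion_finset_le _ _
    _ ≤ ∑ _j ∈ range (NG r), 2 * (D / 2 ^ (31 * r)) := sum_le_sum fun j _ => hone j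
    _ = 2 * D / 2 ^ (11 * r) := by
        rw [sum_const, card_range, nsmul_eq_mul]
        unfold NG
        push_cast
        rw [show 31 * r = 20 * r + 11 * r by ring, pow_add]
        field_simp
    _ ≤ η := by
        rw [div_le_iff₀ (by positivity)]
        rw [div_lt_iff₀ hη] at hr1
        have h1 : (r : ℝ) ≤ 2 ^ (11 * r) := by
          have : r < 2 ^ r := Nat.lt_two_pow_self
          have h2 : 2 ^ r ≤ 2 ^ (11 * r) := Nat.pow_le_pow_right (by norm_num) (by omega)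
          exact_mod_cast (this.le.trans h2)
        nlinarith

/-- moments under the biased signs -/
theorem khinB {r N : ℕ} (hN : Y (r + 1) ≤ N) (hα : ∀ m, ‖α m‖ ≤ 1) {A : ℕ → ℂ} (hA : ∀ m, 1 ≤ m → ‖A m‖ ≤ ‖α m‖ / Real.sqrt m)
    {V : ℝ} (hV : ∑ p ∈ PP (Y (r + 1)), (1 : ℝ) / p ≤ V)
    (hB : ∑ m ∈ (Icc 1 (Y (r + 1))).filter (fun m => ¬ m.Prime), ‖α m‖ / Real.sqrt m ≤ 7 / 4 * V) (k : ℕ) :
    ∫ T, (∑ m ∈ Icc 1 (Y (r + 1)), A m * chB T m).re ^ (2 * k) ∂(PB (PP N)) ≤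
      ((2 * k).factorial : ℝ) * ((36 : ℝ) ^ k)⁻¹ * (2 * Real.exp (29 * (V + 2))) := by
  classical
  have hsub : PP (Y (r + 1)) ⊆ PP N := by
    intro p hp
    rw [mem_PP] at hp ⊢
    exact ⟨hp.1, hp.2.trans hN⟩
  set B1 : ℝ := 7 / 4 * V with hB1
  set x : ℕ → ℝ := fun p => (A p).re with hx
  have hV0 : 0 ≤ V := le_trans (sum_nonneg fun p _ => by positivity) hV
  have hxa : ∀ p ∈ PP (Y (r + 1)), |x p| ≤ 1 / Real.sqrt p := by
    intro p hp
    obtain ⟨hp1, hp2⟩ := mem_PP.1 hp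
    refine (Complex.abs_re_le_norm _).trans ?_
    calc ‖A p‖ ≤ ‖α p‖ / Real.sqrt p := hA p hp1.one_le
      _ ≤ 1 / Real.sqrt p := div_le_div_of_nonneg_right (hα p) (Real.sqrt_nonneg _)
  have hVx : ∑ p ∈ PP (Y (r + 1)), x p ^ 2 ≤ V := by
    refine le_trans (sum_le_sum fun p hp => ?_) hV
    have hp0 : (0 : ℝ) < p := by exact_mod_cast (mem_PP.1 hp).1.pos
    calc x p ^ 2 = |x p| ^ 2 := (sq_abs _).symm
      _ ≤ (1 / Real.sqrt p) ^ 2 := pow_le_pow_left₀ (abs_nonneg _) (hxa p hp) 2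
      _ = 1 / (p : ℝ) := by rw [div_pow, Real.sq_sqrt hp0.le, one_pow]
  have hW : ∑ p ∈ PP (Y (r + 1)), bp p * |x p| ≤ 3 := by
    have hY1 : 1 ≤ Y (r + 1) := by unfold Y; exact Nat.one_le_two_pow
    have h1 : ∑ p ∈ PP (Y (r + 1)), bp p * |x p| ≤ ∑ p ∈ PP (Y (r + 1)), 1 / ((p : ℝ) * Real.sqrt p) := by
      refine sum_le_sum fun p hp => ?_
      have hpp := (mem_PP.1 hp).1
      have hp0 : (0 : ℝ) < p := by exact_mod_cast hpp.pos
      calc bp p * |x p| ≤ 1 / p * (1 / Real.sqrt p) := mul_le_mul (bp_le hpp) (hxa p hp) (abs_nonneg _) (by positivity)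
        _ = 1 / ((p : ℝ) * Real.sqrt p) := by rw [div_mul_div_comm, one_mul]
    have h2 : ∑ p ∈ PP (Y (r + 1)), 1 / ((p : ℝ) * Real.sqrt p) ≤ ∑ p ∈ Icc 1 (Y (r + 1)), 1 / ((p : ℝ) * Real.sqrt p) := by
      refine sum_le_sum_of_subset_of_nonneg (fun p hp => ?_) fun p _ _ => by positivity
      rw [mem_PP] at hp
      rw [mem_Icc]
      exact ⟨hp.1.one_le, hp.2⟩
    have h3 := sum_32_le hY1
    have h4 : 0 ≤ 2 / Real.sqrt (Y (r + 1) : ℕ) := by positivity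
    linarith
  have hdec : ∀ T1 : Finset ℕ, ∃ y : ℝ, |y| ≤ B1 ∧ (∑ m ∈ Icc 1 (Y (r + 1)), A m * chB T1 m).re = ∑ p ∈ PP (Y (r + 1)), sg T1 p * x p + y := by
    intro T1
    refine ⟨(∑ m ∈ (Icc 1 (Y (r + 1))).filter (fun m => ¬ m.Prime), A m * chB T1 m).re, ?_, ?_⟩
    · refine (Complex.abs_re_le_norm _).trans ((norm_sum_le _ _).trans (le_trans (sum_le_sum fun m hm => ?_) hB))
      rw [mem_filter, mem_Icc] at hm
      rw [norm_mul, chB_eq, gt_norm _ _ hm.1.1, mul_one]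
      exact hA m hm.1.1
    · rw [← sum_filter_add_sum_filter_not (Icc 1 (Y (r + 1))) Nat.Prime, Complex.add_re]
      congr 1
      rw [Complex.re_sum]
      refine sum_congr rfl fun p hp => ?_
      have hp1 : p.Prime := (mem_filter.1 hp).2
      rw [chB_eq, gt_prime T1 hp1, hx, mul_comm (A p) (sg T1 p : ℂ), Complex.re_ofReal_mul]
  have hf0 : (0 : ℝ) < ((2 * k).factorial : ℝ) := by exact_mod_cast Nat.factorial_pos _
  have hpt : ∀ T1 : Finset ℕ, (∑ m ∈ Icc 1 (Y (r + 1)), A m * chB T1 m).re ^ (2 * k) ≤ ((2 * k).factorial : ℝ) * ((36 : ℝ) ^ k)⁻¹ * Real.exp (6 * B1) *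
      (Real.exp (∑ p ∈ PP (Y (r + 1)), sg T1 p * (6 * x p)) + Real.exp (∑ p ∈ PP (Y (r + 1)), sg T1 p * (-6 * x p))) := by
    intro T1
    obtain ⟨y, hy, he⟩ := hdec T1
    set X := (∑ m ∈ Icc 1 (Y (r + 1)), A m * chB T1 m).re with hX
    have h1 := Real.pow_div_factorial_le_exp (x := 6 * |X|) (by positivity) (2 * k)
    rw [div_le_iff₀ hf0] at h1
    have h2 : (6 * |X|) ^ (2 * k) = (36 : ℝ) ^ k * X ^ (2 * k) := by
      rw [mul_pow, pow_mul |X|, sq_abs, ← pow_mul X, pow_mul (6 : ℝ)]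
      norm_num
    rw [h2] at h1
    have h3 : Real.exp (6 * |X|) ≤ Real.exp (6 * X) + Real.exp (-6 * X) := by
      rcases abs_cases X with ⟨h, _⟩ | ⟨h, _⟩
      · rw [h]
        have := Real.exp_pos (-6 * X)
        linarith
      · rw [h, show 6 * -X = -6 * X by ring]
        have := Real.exp_pos (6 * X)
        linarith
    rw [abs_le] at hy
    have h4 : Real.exp (6 * X) ≤ Real.exp (6 * B1) * Real.exp (∑ p ∈ PP (Y (r + 1)), sg T1 p * (6 * x p)) := by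
      rw [← Real.exp_add]
      apply Real.exp_le_exp.2
      have h5 : ∑ p ∈ PP (Y (r + 1)), sg T1 p * (6 * x p) = 6 * ∑ p ∈ PP (Y (r + 1)), sg T1 p * x p := by
        rw [mul_sum]
        exact sum_congr rfl fun p _ => by ring
      rw [h5, he]
      linarith [hy.2]
    have h5 : Real.exp (-6 * X) ≤ Real.exp (6 * B1) * Real.exp (∑ p ∈ PP (Y (r + 1)), sg T1 p * (-6 * x p)) := by
      rw [← Real.exp_add]
      apply Real.exp_le_exp.2
      have h5 : ∑ p ∈ PP (Y (r + 1)), sg T1 p * (-6 * x p) = -6 * ∑ p ∈ PP (Y (r + 1)), sg T1 p * x p := by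
        rw [mul_sum]
        exact sum_congr rfl fun p _ => by ring
      rw [h5, he]
      linarith [hy.1]
    have h64 : (0 : ℝ) < (36 : ℝ) ^ k := by positivity
    have h6 : X ^ (2 * k) ≤ ((36 : ℝ) ^ k)⁻¹ * (Real.exp (6 * |X|) * ((2 * k).factorial : ℝ)) := by
      rw [inv_mul_eq_div, le_div_iff₀ h64]
      linarith
    refine h6.trans ?_
    have h7 : Real.exp (6 * |X|) ≤ Real.exp (6 * B1) * (Real.exp (∑ p ∈ PP (Y (r + 1)), sg T1 p * (6 * x p)) +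
        Real.exp (∑ p ∈ PP (Y (r + 1)), sg T1 p * (-6 * x p))) := by
      rw [mul_add]
      linarith
    calc ((36 : ℝ) ^ k)⁻¹ * (Real.exp (6 * |X|) * ((2 * k).factorial : ℝ)) ≤ ((36 : ℝ) ^ k)⁻¹ * ((Real.exp (6 * B1) *
          (Real.exp (∑ p ∈ PP (Y (r + 1)), sg T1 p * (6 * x p)) + Real.exp (∑ p ∈ PP (Y (r + 1)), sg T1 p * (-6 * x p)))) * ((2 * k).factorial : ℝ)) := by
          gcongr
      _ = _ := by ring
  have hE : ∀ s : ℝ, s = 6 ∨ s = -6 → ∫ T, Real.exp (∑ p ∈ PP (Y (r + 1)), sg T p * (s * x p)) ∂(PB (PP N)) ≤ Real.exp (18 * V + 36) := by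
    intro s hs
    rw [PB_int (PP_prime N)]
    refine (avb_exp hsub fun p => s * x p).trans (Real.exp_le_exp.2 ?_)
    have h1 : ∀ p, (s * x p) ^ 2 / 2 + 2 * (bp p * |s * x p|) = 18 * x p ^ 2 + 12 * (bp p * |x p|) := by
      intro p
      rw [abs_mul]
      rcases hs with rfl | rfl
      · rw [abs_of_pos (by norm_num : (0 : ℝ) < 6)]
        ring
      · rw [abs_of_neg (by norm_num : (-6 : ℝ) < 0)]
        ring
    simp_rw [h1]
    rw [sum_add_distrib, ← mul_sum, ← mul_sum]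
    linarith
  have hint : ∀ F : Finset ℕ → ℝ, Integrable F (PB (PP N)) := fun F => FM_integrable _ _ F
  have h8 : ∫ T, (∑ m ∈ Icc 1 (Y (r + 1)), A m * chB T m).re ^ (2 * k) ∂(PB (PP N)) ≤
      ∫ T, ((2 * k).factorial : ℝ) * ((36 : ℝ) ^ k)⁻¹ * Real.exp (6 * B1) *
        (Real.exp (∑ p ∈ PP (Y (r + 1)), sg T p * (6 * x p)) + Real.exp (∑ p ∈ PP (Y (r + 1)), sg T p * (-6 * x p))) ∂(PB (PP N)) :=
    integral_mono (hint _) (hint _) hpt
  refine h8.trans ?_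
  rw [integral_const_mul, integral_add (hint _) (hint _)]
  have hc0 : 0 ≤ ((2 * k).factorial : ℝ) * ((36 : ℝ) ^ k)⁻¹ * Real.exp (6 * B1) := by positivity
  have e7 : Real.exp (6 * B1) * Real.exp (18 * V + 36) ≤ Real.exp (29 * (V + 2)) := by
    rw [← Real.exp_add]
    apply Real.exp_le_exp.2
    rw [hB1]
    linarith
  calc ((2 * k).factorial : ℝ) * ((36 : ℝ) ^ k)⁻¹ * Real.exp (6 * B1) *
        (∫ T, Real.exp (∑ p ∈ PP (Y (r + 1)), sg T p * (6 * x p)) ∂(PB (PP N)) +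
          ∫ T, Real.exp (∑ p ∈ PP (Y (r + 1)), sg T p * (-6 * x p)) ∂(PB (PP N))) ≤
        ((2 * k).factorial : ℝ) * ((36 : ℝ) ^ k)⁻¹ * Real.exp (6 * B1) * (Real.exp (18 * V + 36) + Real.exp (18 * V + 36)) :=
        mul_le_mul_of_nonneg_left (add_le_add (hE 6 (Or.inl rfl)) (hE (-6) (Or.inr rfl))) hc0
    _ = ((2 * k).factorial : ℝ) * ((36 : ℝ) ^ k)⁻¹ * (2 * (Real.exp (6 * B1) * Real.exp (18 * V + 36))) := by ring
    _ ≤ _ := by gcongr

/-- the constant -/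
theorem cst : ∃ C : ℝ, ∀ (a α : ℕ → ℂ), LogC a α → ∀ r : ℕ, 1 ≤ r → ∀ N : ℕ, Y (r + 1) ≤ N →
    ∀ A : ℕ → ℂ, (∀ m, 1 ≤ m → ‖A m‖ ≤ ‖α m‖ / Real.sqrt m) → ∀ k : ℕ,
    ∫ T, (∑ m ∈ Icc 1 (Y (r + 1)), A m * chB T m).re ^ (2 * k) ∂(PB (PP N)) ≤
      ((2 * k).factorial : ℝ) * ((36 : ℝ) ^ k)⁻¹ * (2 * Real.exp (29 * ((r + 1) * Real.log 2 + C))) := by
  obtain ⟨C, hC0, hC⟩ := mer5
  refine ⟨C + 2, fun a α hL r hr N hN A hA k => ?_⟩
  have hB := (np6 hL r).trans (mul_le_mul_of_nonneg_left (hC r hr) (by norm_num : (0 : ℝ) ≤ 7 / 4))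
  have h := khinB hN (al_le_one hL) hA (hC r hr) hB k
  rwa [add_assoc ((r + 1) * Real.log 2)] at h

/-- SUB for the biased signs -/
theorem sub_B (hL : LogC a α) : ∀ η : ℝ, 0 < η → ∃ r0 : ℕ, ∀ r : ℕ, r0 ≤ r → ∀ N : ℕ, Y (r + 1) ≤ N →
    (PB (PP N)).real {T | ∃ j : ℕ, j < NG r ∧ 20 * (r : ℝ) < ‖PS r α (chB T) (tj r j)‖} ≤ η := by
  intro η hη
  obtain ⟨C, hC⟩ := cst
  obtain ⟨r0, hr0⟩ := sub_of C α η hη
  refine ⟨max r0 1, fun r hr N hN => hr0 r ((le_max_left _ _).trans hr) _ _ _ (cf_B (PP_prime N) _) fun A hA => ?_⟩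
  have h := hC a α hL r ((le_max_right _ _).trans hr) N hN A hA (20 * r)
  unfold EB
  have h1 : 0 ≤ 2 / (Y (150 * r) : ℝ) * (Y (r + 1) : ℝ) ^ (2 * (20 * r)) := by positivity
  linarith

/-- SUB for the real characters -/
theorem sub_Q (hL : LogC a α) : ∀ η : ℝ, 0 < η → ∃ r0 : ℕ, ∀ r : ℕ, r0 ≤ r → ∀ Q : ℕ, 0 < (OS Q).card →
    (∀ m n : ℕ, 1 ≤ m → m ≤ Y (150 * r) → 1 ≤ n → n ≤ Y (150 * r) →
      ‖(∫ q, chQ q m * (starRingEnd ℂ) (chQ q n) ∂(PQ Q)) - (kap (m * n) : ℂ)‖ ≤ 2 / (Y (150 * r) : ℝ)) →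
    (PQ Q).real {q | ∃ j : ℕ, j < NG r ∧ 20 * (r : ℝ) < ‖PS r α (chQ q) (tj r j)‖} ≤ η := by
  intro η hη
  obtain ⟨C, hC⟩ := cst
  obtain ⟨r0, hr0⟩ := sub_of C α η hη
  refine ⟨max r0 1, fun r hr Q hQ hcorr => hr0 r ((le_max_left _ _).trans hr) _ _ _ (cf_Q hQ _) fun A hA => ?_⟩
  have hr1 : 1 ≤ r := (le_max_right _ _).trans hr
  have hYZ : Y (r + 1) ≤ Y (150 * r) := Y_mono (by omega)
  have hY1 : 1 ≤ Y (r + 1) := by unfold Y; exact Nat.one_le_two_pow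
  have h := hC a α hL r hr1 (Y (150 * r)) hYZ A hA (20 * r)
  have hkY : Y (r + 1) ^ (2 * (20 * r)) ≤ Y (150 * r) := by
    unfold Y
    rw [← pow_mul]
    apply Nat.pow_le_pow_right (by norm_num)
    have := nuk hr1
    omega
  have h1 := mom_diff (cf_Q hQ (Y (150 * r))) (cf_B (PP_prime (Y (150 * r))) (Y (150 * r))) (e := 2 / (Y (150 * r) : ℝ)) (by positivity)
    (corr_QB hcorr) A hY1 (2 * (20 * r)) hkY
  have h2 := (abs_le.1 h1).2
  have hSA : ∑ m ∈ Icc 1 (Y (r + 1)), ‖A m‖ ≤ (Y (r + 1) : ℝ) := by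
    calc ∑ m ∈ Icc 1 (Y (r + 1)), ‖A m‖ ≤ ∑ _m ∈ Icc 1 (Y (r + 1)), (1 : ℝ) := by
          refine sum_le_sum fun m hm => ?_
          rw [mem_Icc] at hm
          refine (hA m hm.1).trans ?_
          rw [div_le_one (Real.sqrt_pos.2 (by exact_mod_cast hm.1))]
          refine (al_le_one hL m).trans ?_
          rw [Real.one_le_sqrt]
          exact_mod_cast hm.1
      _ = (Y (r + 1) : ℝ) := by simp
  have h3 : 2 / (Y (150 * r) : ℝ) * (∑ m ∈ Icc 1 (Y (r + 1)), ‖A m‖) ^ (2 * (20 * r)) ≤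
      2 / (Y (150 * r) : ℝ) * (Y (r + 1) : ℝ) ^ (2 * (20 * r)) := by
    refine mul_le_mul_of_nonneg_left ?_ (by positivity)
    exact pow_le_pow_left₀ (sum_nonneg fun _ _ => norm_nonneg _) hSA _
  unfold EB
  linarith

end Pool.Agent.Helper11.DR
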