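import Pool.Agent.Helper5.DR.Defs

/-!
# Project DR (MP_a499ba_nt), block SER, part (ii): the weights of the smoothed sums
-/

set_option autoImplicit false

namespace Pool.Agent.Helper11.DR

open Finset MeasureTheory Filter Topology Pool.Agent.Helper5.RM Pool.Agent.Helper96.AF Pool.Agent.Helper66.LW Pool.Agent.IT
open Pool.Agent.DR

/-- the weight function -/
noncomputable def gv (K : Ker) (r : ℕ) (u v : ℝ) : ℝ := Real.exp (-(v / 2)) * kf K r u v

lemma continuous_gv (K : Ker) (r : ℕ) (u : ℝ) : Continuous (gv K r u) := by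
  have := continuous_kf K r u
  unfold gv
  fun_prop

/-- the weight of `n` in the smoothed sums -/
noncomputable def wt (K : Ker) (r : ℕ) (u : ℝ) (n : ℕ) : ℝ :=
  ∫ v in (Vr r)..(2 * Vr r), if Real.log n ≤ v then gv K r u v else 0

private lemma ii (K : Ker) (r : ℕ) (u c a b : ℝ) :
    IntervalIntegrable (fun v => if c ≤ v then gv K r u v else 0) volume a b := by
  have h := (continuous_gv K r u).intervalIntegrable (μ := volume) a b
  refine h.mono_fun ?_ ?_
  · apply Measurable.aestronglyMeasurable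
    exact Measurable.ite measurableSet_Ici (continuous_gv K r u).measurable measurable_const
  · refine Eventually.of_forall fun v => ?_
    simp only
    split_ifs
    · exact le_rfl
    · simp

theorem SS_eq (K : Ker) (r : ℕ) (f : ℕ → ℂ) (i : ℕ) :
    SS K r f i = ∑ n ∈ Finset.Icc 1 (Y (r + 1)), f n * (wt K r (Ur r + i) n : ℂ) := by
  have hV := Vr_pos r
  have hVV : Vr r ≤ 2 * Vr r := by linarith
  have h1 : ∀ v ∈ Set.uIcc (Vr r) (2 * Vr r), Ac f v * (kf K r (Ur r + i) v : ℂ) =
      ∑ n ∈ Finset.Icc 1 (Y (r + 1)), f n * ((if Real.log n ≤ v then gv K r (Ur r + i) v else 0 : ℝ) : ℂ) := by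
    intro v hv
    rw [Set.uIcc_of_le hVV] at hv
    have hset : Finset.Icc 1 ⌊Real.exp v⌋₊ = (Finset.Icc 1 (Y (r + 1))).filter fun n : ℕ => Real.log n ≤ v := by
      ext n
      rw [Finset.mem_Icc, Finset.mem_filter, Finset.mem_Icc]
      constructor
      · rintro ⟨h1, h2⟩
        have h3 : (n : ℝ) ≤ Real.exp v := (Nat.le_floor_iff (Real.exp_pos _).le).1 h2
        have hn : (0 : ℝ) < n := by exact_mod_cast h1
        refine ⟨⟨h1, ?_⟩, ?_⟩
        · have h4 := (floor_mem hv.1 hv.2)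
          rw [Finset.mem_Icc] at h4
          exact h2.trans h4.2
        · rw [Real.log_le_iff_le_exp hn]
          exact h3
      · rintro ⟨⟨h1, -⟩, h3⟩
        have hn : (0 : ℝ) < n := by exact_mod_cast h1
        refine ⟨h1, ?_⟩
        rw [Nat.le_floor_iff (Real.exp_pos _).le, ← Real.log_le_iff_le_exp hn]
        exact h3
    unfold Ac Hc
    rw [hset, Finset.sum_filter, Finset.mul_sum, Finset.sum_mul]
    refine Finset.sum_congr rfl fun n _ => ?_
    split_ifs with h
    · unfold gv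
      push_cast
      ring
    · simp
  unfold SS
  rw [intervalIntegral.integral_congr h1, intervalIntegral.integral_finsetSum]
  · refine Finset.sum_congr rfl fun n _ => ?_
    rw [intervalIntegral.integral_const_mul, intervalIntegral.integral_ofReal]
    rfl
  · intro n _
    have h2 := ii K r (Ur r + i) (Real.log n) (Vr r) (2 * Vr r)
    have h3 : IntervalIntegrable (fun v => ((if Real.log n ≤ v then gv K r (Ur r + i) v else 0 : ℝ) : ℂ)) volume (Vr r) (2 * Vr r) :=
      ⟨h2.1.ofReal, h2.2.ofReal⟩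
    exact h3.const_mul _

/-- the exact weight -/
noncomputable def Wn (K : Ker) (r : ℕ) (u : ℝ) (n : ℕ) : ℝ := ∫ v in Set.Ioi (Real.log n), gv K r u v

lemma gv_nonneg (K : Ker) (r : ℕ) (u v : ℝ) : 0 ≤ gv K r u v := mul_nonneg (Real.exp_pos _).le (kf_nonneg K r u v)

/-- the tail of the kernel -/
theorem gv_far (K : Ker) : ∃ r0 : ℕ, ∀ r : ℕ, r0 ≤ r → ∀ u : ℝ, Ur r ≤ u → u ≤ Ur r + 1 / sr r → ∀ v : ℝ, 0 ≤ v →
    (v ≤ Vr r ∨ 2 * Vr r ≤ v) → gv K r u v ≤ 1 / (8 * Vr r ^ 8) * Real.exp (-(v / 2)) := by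
  obtain ⟨C, hC, hw⟩ := K.w_dec
  obtain ⟨r2, hr2⟩ := pow_le_Vr 60 (1 / (8 * (8 ^ 12 * C))) (by positivity) 4 (by norm_num)
  refine ⟨max r2 3, fun r hr u hu hu2 v hv0 hv => ?_⟩
  have hrb : r2 ≤ r := (le_max_left _ _).trans hr
  have hrc : 3 ≤ r := (le_max_right _ _).trans hr
  have hs := sr_pos (r := r) (by omega)
  have hV := Vr_pos r
  have h1s : 1 / sr r ≤ Vr r / 4 := by
    have h1 : 1 ≤ Real.log r := by
      rw [Real.le_log_iff_exp_le (by positivity)]
      have h2 := Real.exp_one_lt_d9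
      have h3 : (3 : ℝ) ≤ r := by exact_mod_cast hrc
      linarith
    unfold sr
    rw [one_div_div, div_le_div_iff₀ (by positivity) (by norm_num)]
    nlinarith
  have hdist : Vr r / 8 ≤ |u - v| := by
    rcases hv with h | h
    · refine le_trans ?_ (le_abs_self _)
      unfold Ur at hu
      linarith
    · refine le_trans ?_ (neg_le_abs _)
      unfold Ur at hu2
      linarith
  have hexp : Real.exp (-(sr r * (v - Ur r))) ≤ (r : ℝ) ^ 60 := by
    have h60 : Real.exp (sr r * Ur r) = (r : ℝ) ^ 60 := by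
      have h1 : sr r * Ur r = (60 : ℕ) * Real.log r := by
        unfold Ur
        have := sr_mul_Vr r
        push_cast
        linarith
      rw [h1, ← Real.log_pow, Real.exp_log (by positivity)]
    rw [← h60]
    apply Real.exp_le_exp.2
    nlinarith
  have hw1 : K.w (u - v) ≤ C / (Vr r / 8) ^ 12 := by
    refine (hw (u - v)).trans ?_
    refine div_le_div_of_nonneg_left hC.le (by positivity) ?_
    exact pow_le_pow_left₀ (by positivity) (by linarith) 12
  have hr3 := hr2 r hrb
  unfold gv kf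
  rw [mul_comm]
  refine mul_le_mul_of_nonneg_right ?_ (Real.exp_pos _).le
  refine (mul_le_mul hexp hw1 (K.w_nonneg _) (by positivity)).trans ?_
  rw [div_pow, div_div_eq_mul_div, mul_div_assoc', div_le_div_iff₀ (by positivity) (by positivity)]
  calc (r : ℝ) ^ 60 * (C * 8 ^ 12) * (8 * Vr r ^ 8) ≤ (1 / (8 * (8 ^ 12 * C)) * Vr r ^ 4) * (C * 8 ^ 12) * (8 * Vr r ^ 8) := by gcongr
    _ = 1 * Vr r ^ 12 := by field_simp

private lemma int_exp2 (c : ℝ) : IntegrableOn (fun v : ℝ => Real.exp (-(v / 2))) (Set.Ioi c) ∧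
    ∫ v in Set.Ioi c, Real.exp (-(v / 2)) = 2 * Real.exp (-(c / 2)) := by
  have h1 := integrableOn_exp_mul_Ioi (a := -(1 / 2 : ℝ)) (by norm_num) c
  have h2 := integral_exp_mul_Ioi (a := -(1 / 2 : ℝ)) (by norm_num) c
  have e : (fun v : ℝ => Real.exp (-(v / 2))) = fun v => Real.exp (-(1 / 2) * v) := by
    ext v
    congr 1
    ring
  rw [e]
  refine ⟨h1, ?_⟩
  rw [h2, show -(1 / 2) * c = -(c / 2) by ring]
  ring

lemma gv_le (K : Ker) (r : ℕ) (hr : 2 ≤ r) (u : ℝ) : ∃ M : ℝ, 0 < M ∧ ∀ v : ℝ, 0 ≤ v → gv K r u v ≤ M * Real.exp (-(v / 2)) := by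
  obtain ⟨C, hC, hw⟩ := K.w_dec
  have hs := sr_pos hr
  refine ⟨Real.exp (sr r * Ur r) * C, by positivity, fun v hv => ?_⟩
  unfold gv kf
  rw [mul_comm]
  refine mul_le_mul_of_nonneg_right ?_ (Real.exp_pos _).le
  refine mul_le_mul (Real.exp_le_exp.2 (by nlinarith)) ?_ (K.w_nonneg _) (Real.exp_pos _).le
  refine (hw (u - v)).trans ?_
  apply div_le_self hC.le
  apply one_le_pow₀
  have := abs_nonneg (u - v)
  linarith

lemma integrable_gv (K : Ker) (r : ℕ) (hr : 2 ≤ r) (u : ℝ) {c : ℝ} (hc : 0 ≤ c) : IntegrableOn (gv K r u) (Set.Ioi c) := by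
  obtain ⟨M, hM, h⟩ := gv_le K r hr u
  refine ((int_exp2 c).1.const_mul M).mono' (continuous_gv K r u).aestronglyMeasurable ?_
  refine (ae_restrict_mem measurableSet_Ioi).mono fun v hv => ?_
  rw [Real.norm_eq_abs, abs_of_nonneg (gv_nonneg K r u v)]
  exact h v (hc.trans (le_of_lt hv))

/-- (A) -/
theorem wt_near (K : Ker) : ∃ r0 : ℕ, ∀ r : ℕ, r0 ≤ r → ∀ u : ℝ, Ur r ≤ u → u ≤ Ur r + 1 / sr r → ∀ n : ℕ, 1 ≤ n →
    |wt K r u n - Wn K r u n| ≤ 1 / (4 * Vr r ^ 8 * Real.sqrt n) := by
  obtain ⟨r1, h1⟩ := gv_far K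
  refine ⟨max r1 2, fun r hr u hu hu2 n hn => ?_⟩
  have hra : r1 ≤ r := (le_max_left _ _).trans hr
  have hrb : 2 ≤ r := (le_max_right _ _).trans hr
  have hV := Vr_pos r
  have hn1 : (1 : ℝ) ≤ n := by exact_mod_cast hn
  have hl : 0 ≤ Real.log n := Real.log_nonneg hn1
  set L := Real.log n with hL
  have e1 : wt K r u n = ∫ v, (Set.Ioc (Vr r) (2 * Vr r)).indicator (fun v => if L ≤ v then gv K r u v else 0) v := by
    unfold wt
    rw [intervalIntegral.integral_of_le (by linarith), integral_indicator measurableSet_Ioc]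
  have e2 : Wn K r u n = ∫ v, (Set.Ici L).indicator (gv K r u) v := by
    unfold Wn
    rw [← integral_Ici_eq_integral_Ioi, integral_indicator measurableSet_Ici]
  have i1 : Integrable ((Set.Ioc (Vr r) (2 * Vr r)).indicator (fun v => if L ≤ v then gv K r u v else 0)) := by
    rw [integrable_indicator_iff measurableSet_Ioc, ← intervalIntegrable_iff_integrableOn_Ioc_of_le (by linarith)]
    exact ii K r u L _ _
  have i2 : Integrable ((Set.Ici L).indicator (gv K r u)) := by
    rw [integrable_indicator_iff measurableSet_Ici, integrableOn_Ici_iff_integrableOn_Ioi]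
    exact integrable_gv K r hrb u hl
  have i3 : Integrable ((Set.Ici L).indicator fun v => 1 / (8 * Vr r ^ 8) * Real.exp (-(v / 2))) := by
    rw [integrable_indicator_iff measurableSet_Ici, integrableOn_Ici_iff_integrableOn_Ioi]
    exact (int_exp2 L).1.const_mul _
  rw [e1, e2, ← integral_sub i1 i2, ← Real.norm_eq_abs]
  refine (norm_integral_le_of_norm_le i3 (Eventually.of_forall fun v => ?_)).trans ?_
  · simp only [Set.indicator_apply, Set.mem_Ioc, Set.mem_Ici]
    by_cases h2 : L ≤ v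
    · by_cases h3 : Vr r < v ∧ v ≤ 2 * Vr r
      · rw [if_pos h3]
        simp only [if_pos h2, sub_self, norm_zero]
        positivity
      · rw [if_neg h3]
        simp only [if_pos h2]
        rw [zero_sub, norm_neg, Real.norm_eq_abs, abs_of_nonneg (gv_nonneg K r u v)]
        refine h1 r hra u hu hu2 v (hl.trans h2) ?_
        by_contra h4
        push Not at h4
        exact h3 ⟨h4.1, h4.2.le⟩
    · simp only [if_neg h2]
      split_ifs <;> simp
  · rw [integral_indicator measurableSet_Ici, integral_Ici_eq_integral_Ioi, integral_const_mul, (int_exp2 L).2]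
    have e3 : Real.exp (-(L / 2)) = (Real.sqrt n)⁻¹ := by
      rw [Real.exp_neg, Real.exp_half, hL, Real.exp_log (by linarith)]
    rw [e3]
    apply le_of_eq
    have h5 : 0 < Real.sqrt n := Real.sqrt_pos.2 (by linarith)
    field_simp
    norm_num

end Pool.Agent.Helper11.DR
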